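import Pool.Agent.H344R2.TraceGen

open scoped BigOperators ComplexConjugate

namespace H344

open Classical in
/-- matrices with a block on `SA`, arrows `x → o x` for `x ∈ S2`, and a diagonal part -/
noncomputable def gen (SA S2 : Finset ℂ) (o : ℂ → ℂ) (a : ℂ → ℂ → ℝ) (b c : ℂ → ℝ) (z w : ℂ) : ℝ :=
  (if z ∈ SA ∧ w ∈ SA then a z w else 0) + (if z ∈ S2 ∧ w = o z then b z else 0) +
    (if w ∈ S2 ∧ z = o w then b w else 0) + (if z = w then c z else 0)

lemma gen_sum (P SA S2 : Finset ℂ) (hA : SA ⊆ P) (h2 : S2 ⊆ P) (o : ℂ → ℂ)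
    (ho : ∀ x ∈ S2, o x ∈ P) (a : ℂ → ℂ → ℝ) (b c : ℂ → ℝ) (L : ℂ → ℂ → ℝ) :
    ∑ z ∈ P, ∑ w ∈ P, gen SA S2 o a b c z w * L z w =
      ∑ z ∈ SA, ∑ w ∈ SA, a z w * L z w + ∑ x ∈ S2, b x * (L x (o x) + L (o x) x) +
        ∑ z ∈ P, c z * L z z := by
  classical
  have e : ∀ z w, gen SA S2 o a b c z w * L z w =
      (if z ∈ SA then (if w ∈ SA then a z w * L z w else 0) else 0) +
      (if z ∈ S2 then (if w = o z then b z * L z w else 0) else 0) +
      (if w ∈ S2 then (if z = o w then b w * L z w else 0) else 0) +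
      (if z = w then c z * L z w else 0) := by
    intro z w
    simp only [gen, add_mul, ite_and, ite_mul, zero_mul]
  simp_rw [e, Finset.sum_add_distrib]
  have s1 : ∑ z ∈ P, ∑ w ∈ P, (if z ∈ SA then (if w ∈ SA then a z w * L z w else 0) else 0) =
      ∑ z ∈ SA, ∑ w ∈ SA, a z w * L z w := by
    have : ∀ z, ∑ w ∈ P, (if z ∈ SA then (if w ∈ SA then a z w * L z w else 0) else 0) =
        if z ∈ SA then ∑ w ∈ SA, a z w * L z w else 0 := by
      intro z
      split_ifs with h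
      · rw [← Finset.sum_filter, Finset.filter_mem_eq_inter, Finset.inter_eq_right.mpr hA]
      · simp
    simp_rw [this]
    rw [← Finset.sum_filter, Finset.filter_mem_eq_inter, Finset.inter_eq_right.mpr hA]
  have s2 : ∑ z ∈ P, ∑ w ∈ P, (if z ∈ S2 then (if w = o z then b z * L z w else 0) else 0) =
      ∑ x ∈ S2, b x * L x (o x) := by
    have : ∀ z ∈ P, ∑ w ∈ P, (if z ∈ S2 then (if w = o z then b z * L z w else 0) else 0) =
        if z ∈ S2 then b z * L z (o z) else 0 := by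
      intro z _
      split_ifs with h
      · rw [Finset.sum_ite_eq' P (o z) (fun w => b z * L z w), if_pos (ho z h)]
      · simp
    rw [Finset.sum_congr rfl this, ← Finset.sum_filter, Finset.filter_mem_eq_inter,
      Finset.inter_eq_right.mpr h2]
  have s3 : ∑ z ∈ P, ∑ w ∈ P, (if w ∈ S2 then (if z = o w then b w * L z w else 0) else 0) =
      ∑ x ∈ S2, b x * L (o x) x := by
    rw [Finset.sum_comm]
    have : ∀ w ∈ P, ∑ z ∈ P, (if w ∈ S2 then (if z = o w then b w * L z w else 0) else 0) =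
        if w ∈ S2 then b w * L (o w) w else 0 := by
      intro w _
      split_ifs with h
      · rw [Finset.sum_ite_eq' P (o w) (fun z => b w * L z w), if_pos (ho w h)]
      · simp
    rw [Finset.sum_congr rfl this, ← Finset.sum_filter, Finset.filter_mem_eq_inter,
      Finset.inter_eq_right.mpr h2]
  have s4 : ∑ z ∈ P, ∑ w ∈ P, (if z = w then c z * L z w else 0) = ∑ z ∈ P, c z * L z z := by
    refine Finset.sum_congr rfl fun z hz => ?_
    rw [Finset.sum_ite_eq P z (fun w => c z * L z w), if_pos hz]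
  rw [s1, s2, s3, s4]
  have : ∑ x ∈ S2, b x * (L x (o x) + L (o x) x) = ∑ x ∈ S2, b x * L x (o x) +
      ∑ x ∈ S2, b x * L (o x) x := by
    rw [← Finset.sum_add_distrib]
    exact Finset.sum_congr rfl fun x _ => by ring
  rw [this]
  ring

lemma gen_sq (SA S2 : Finset ℂ) (o : ℂ → ℂ) (hd : Disjoint SA S2)
    (ho : ∀ x ∈ S2, o x ∉ SA ∧ o x ∉ S2) (a : ℂ → ℂ → ℝ) (b c : ℂ → ℝ)
    (hc : ∀ z ∈ SA, c z = 0) (z w : ℂ) :
    gen SA S2 o a b c z w ^ 2 = gen SA S2 o (fun z w => a z w ^ 2) (fun z => b z ^ 2)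
      (fun z => c z ^ 2) z w := by
  classical
  have hd' : ∀ z, z ∈ SA → z ∉ S2 := fun z h => Finset.disjoint_left.mp hd h
  unfold gen
  by_cases h1 : z ∈ SA ∧ w ∈ SA
  · have h3 : ¬ (z ∈ S2 ∧ w = o z) := fun h => hd' z h1.1 h.1
    have h4 : ¬ (w ∈ S2 ∧ z = o w) := fun h => hd' w h1.2 h.1
    simp only [if_pos h1, if_neg h3, if_neg h4, hc z h1.1]
    simp
  · by_cases h2 : z ∈ S2 ∧ w = o z
    · have h4 : ¬ (w ∈ S2 ∧ z = o w) := fun h => (ho z h2.1).2 (h2.2 ▸ h.1)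
      have h5 : ¬ (z = w) := fun h => (ho z h2.1).2 (by rw [← h2.2, ← h]; exact h2.1)
      simp only [if_neg h1, if_pos h2, if_neg h4, if_neg h5]
      ring
    · by_cases h3 : w ∈ S2 ∧ z = o w
      · have h5 : ¬ (z = w) := fun h => (ho w h3.1).2 (by rw [← h3.2, h]; exact h3.1)
        simp only [if_neg h1, if_neg h2, if_pos h3, if_neg h5]
        ring
      · by_cases h4 : z = w
        · simp only [if_neg h1, if_neg h2, if_neg h3, if_pos h4]
          ring
        · simp only [if_neg h1, if_neg h2, if_neg h3, if_neg h4]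
          ring

open Classical in
/-- The trace inequality with blocks: a test matrix `Y ≤ 1` on `SA`, and every point of `S2`
attached to a point outside `S` (a multiple point or a pair off the line). -/
theorem trace_blocks {E : Type*} [NormedAddCommGroup E] [InnerProductSpace ℂ E]
    (φ : ℂ → ℂ) (k : ℂ → E) (hk : ∀ z w, inner ℂ (k z) (k w) = φ (w - (starRingEnd ℂ) z))
    (hev : ∀ z, φ (-z) = φ z) (h0 : φ 0 = 1)
    (Z : Finset ℂ) (hZ : ∀ z ∈ Z, (starRingEnd ℂ) z ∈ Z) (m : ℂ → ℕ)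
    (hm1 : ∀ z ∈ Z, 1 ≤ m z) (hmc : ∀ z ∈ Z, m ((starRingEnd ℂ) z) = m z)
    (SA S2 : Finset ℂ) (hd : Disjoint SA S2)
    (hS : Z.filter (fun z => z.im = 0 ∧ m z = 1) = SA ∪ S2)
    (o : ℂ → ℂ) (ho : ∀ x ∈ S2, o x ∈ Z.filter (fun z => 0 ≤ z.im) ∧ o x ∉ SA ∪ S2)
    (hcard : ∀ z, (S2.filter (fun x => o x = z)).card ≤ 4)
    (Y : ℂ → ℂ → ℝ)
    (hY : ∀ v : ℂ → ℂ, ∑ x ∈ SA, ∑ y ∈ SA, Y x y * ((starRingEnd ℂ (v x)) * v y).re
        ≤ ∑ x ∈ SA, ‖v x‖ ^ 2) :
    2 * ∑ z ∈ Z, (m z : ℝ) - ((Z.filter (fun z => z.im = 0 ∧ m z = 1)).card : ℝ)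
      + (2 * ∑ x ∈ SA, ∑ y ∈ SA, Y x y * ((φ (x - y)).re - if x = y then 1 else 0)
          - ∑ x ∈ SA, ∑ y ∈ SA, (Y x y) ^ 2)
      + ∑ x ∈ S2, 2 * rr φ m x (o x) ^ 2 / rr φ m (o x) (o x)
      ≤ (∑ z ∈ Z, ∑ w ∈ Z, (m z : ℂ) * (m w : ℂ) * (φ (z - w)) ^ 2).re := by
  set P := Z.filter (fun z => 0 ≤ z.im) with hP
  set S := Z.filter (fun z => z.im = 0 ∧ m z = 1) with hSd
  have hSP : S ⊆ P := by
    intro z hz
    simp only [hSd, hP, Finset.mem_filter] at hz ⊢
    exact ⟨hz.1, hz.2.1.ge⟩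
  have hAP : SA ⊆ P := fun z hz => hSP (hS ▸ Finset.mem_union_left _ hz)
  have h2P : S2 ⊆ P := fun z hz => hSP (hS ▸ Finset.mem_union_right _ hz)
  have hd' : ∀ z, z ∈ SA → z ∉ S2 := fun z h => Finset.disjoint_left.mp hd h
  have hoP : ∀ x ∈ S2, o x ∈ P := fun x hx => (ho x hx).1
  have hoA : ∀ x ∈ S2, o x ∉ SA ∧ o x ∉ S2 := fun x hx =>
    ⟨fun h => (ho x hx).2 (Finset.mem_union_left _ h), fun h => (ho x hx).2 (Finset.mem_union_right _ h)⟩
  set r := rr φ m with hr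
  set t : ℂ → ℝ := fun x => r x (o x) / r (o x) (o x) with ht
  set τ : ℂ → ℝ := fun z => ∑ x ∈ S2.filter (fun x => o x = z), t x ^ 2 with hτ
  set c : ℂ → ℝ := fun z => if z ∈ SA then 0 else if z ∈ S2 then 1 else 2 - τ z with hc
  set D := gen SA S2 o (fun z w => (if z = w then 1 else 0) + Y z w) t c with hDdef
  have hτsum : ∀ g : ℂ → ℝ, ∑ z ∈ P, τ z * g z = ∑ x ∈ S2, t x ^ 2 * g (o x) := by
    intro g
    rw [← Finset.sum_fiberwise_of_maps_to hoP (fun x => t x ^ 2 * g (o x))]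
    refine Finset.sum_congr rfl fun z _ => ?_
    simp only [hτ]
    rw [Finset.sum_mul]
    refine Finset.sum_congr rfl fun x hx => ?_
    rw [(Finset.mem_filter.mp hx).2]
  have hτ0 : ∀ z, 0 ≤ τ z := fun z => Finset.sum_nonneg fun x _ => sq_nonneg _
  have hτS : ∀ z ∈ S, τ z = 0 := by
    intro z hz
    simp only [hτ]
    rw [Finset.filter_eq_empty_iff.mpr, Finset.sum_empty]
    intro x hx h
    exact (ho x hx).2 (hS ▸ h ▸ hz)
  -- diagonal sum
  have hcsum : ∀ g : ℂ → ℝ, ∑ z ∈ P, c z * g z = ∑ x ∈ S2, g x + ∑ z ∈ P \ S, 2 * g z -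
      ∑ z ∈ P \ S, τ z * g z := by
    intro g
    rw [← Finset.sum_sdiff hSP, hS, Finset.sum_union hd]
    have e1 : ∑ z ∈ SA, c z * g z = 0 := Finset.sum_eq_zero fun z hz => by simp [hc, hz]
    have e2 : ∑ z ∈ S2, c z * g z = ∑ z ∈ S2, g z := Finset.sum_congr rfl fun z hz => by
      have : z ∉ SA := fun h => hd' z h hz
      simp [hc, hz, this]
    have e3 : ∑ z ∈ P \ (SA ∪ S2), c z * g z = ∑ z ∈ P \ (SA ∪ S2), 2 * g z -
        ∑ z ∈ P \ (SA ∪ S2), τ z * g z := by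
      rw [← Finset.sum_sub_distrib]
      refine Finset.sum_congr rfl fun z hz => ?_
      have h1 := (Finset.mem_sdiff.mp hz).2
      rw [Finset.mem_union, not_or] at h1
      simp only [hc, h1.1, h1.2, if_false]
      ring
    rw [e1, e2, e3]
    ring
  have hτsum' : ∀ g : ℂ → ℝ, ∑ z ∈ P \ S, τ z * g z = ∑ x ∈ S2, t x ^ 2 * g (o x) := by
    intro g
    rw [← hτsum g, ← Finset.sum_sdiff hSP]
    have : ∑ z ∈ S, τ z * g z = 0 := Finset.sum_eq_zero fun z hz => by rw [hτS z hz, zero_mul]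
    rw [this, add_zero]
  obtain ⟨hCS, hcr, hsym, hNs, hmain⟩ := trace_gen φ k hk hev h0 Z hZ m hmc D (by
    intro v
    rw [hDdef, gen_sum P SA S2 hAP h2P o hoP _ _ _
      (fun z w => ((starRingEnd ℂ (v z)) * v w).re), hcsum, hτsum']
    have e0 : ∀ z, ((starRingEnd ℂ (v z)) * v z).re = ‖v z‖ ^ 2 := by
      intro z
      rw [Complex.conj_mul', ← Complex.ofReal_pow, Complex.ofReal_re]
    simp only [e0]
    have e1 : ∑ z ∈ SA, ∑ w ∈ SA, ((if z = w then 1 else 0) + Y z w) *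
        ((starRingEnd ℂ) (v z) * v w).re ≤ 2 * ∑ z ∈ SA, ‖v z‖ ^ 2 := by
      have e3 : ∑ z ∈ SA, ∑ w ∈ SA, ((if z = w then 1 else 0) + Y z w) *
        ((starRingEnd ℂ) (v z) * v w).re = ∑ z ∈ SA, ‖v z‖ ^ 2 +
        ∑ z ∈ SA, ∑ w ∈ SA, Y z w * ((starRingEnd ℂ) (v z) * v w).re := by
        rw [← Finset.sum_add_distrib]
        refine Finset.sum_congr rfl fun z hz => ?_
        simp_rw [add_mul, ite_mul, one_mul, zero_mul]
        rw [Finset.sum_add_distrib, Finset.sum_ite_eq, if_pos hz, e0]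
      rw [e3]
      have := hY v
      linarith
    have e2 : ∑ x ∈ S2, t x * (((starRingEnd ℂ) (v x) * v (o x)).re +
        ((starRingEnd ℂ) (v (o x)) * v x).re) ≤ ∑ x ∈ S2, (‖v x‖ ^ 2 + t x ^ 2 * ‖v (o x)‖ ^ 2) := by
      refine Finset.sum_le_sum fun x _ => ?_
      have a1 : |((starRingEnd ℂ) (v x) * v (o x)).re| ≤ ‖v x‖ * ‖v (o x)‖ := by
        refine (Complex.abs_re_le_norm _).trans ?_
        rw [norm_mul, Complex.norm_conj]
      have a2 : |((starRingEnd ℂ) (v (o x)) * v x).re| ≤ ‖v x‖ * ‖v (o x)‖ := by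
        refine (Complex.abs_re_le_norm _).trans ?_
        rw [norm_mul, Complex.norm_conj, mul_comm]
      calc t x * (((starRingEnd ℂ) (v x) * v (o x)).re + ((starRingEnd ℂ) (v (o x)) * v x).re)
          ≤ |t x * (((starRingEnd ℂ) (v x) * v (o x)).re + ((starRingEnd ℂ) (v (o x)) * v x).re)| :=
            le_abs_self _
        _ = |t x| * |((starRingEnd ℂ) (v x) * v (o x)).re + ((starRingEnd ℂ) (v (o x)) * v x).re| :=
            abs_mul _ _
        _ ≤ |t x| * (2 * (‖v x‖ * ‖v (o x)‖)) := by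
            apply mul_le_mul_of_nonneg_left _ (abs_nonneg _)
            refine (abs_add_le _ _).trans ?_
            linarith
        _ ≤ ‖v x‖ ^ 2 + t x ^ 2 * ‖v (o x)‖ ^ 2 := by
            rw [← sq_abs (t x)]
            nlinarith [sq_nonneg (‖v x‖ - |t x| * ‖v (o x)‖)]
    rw [Finset.sum_add_distrib] at e2
    have e4 : ∑ i ∈ P, ‖v i‖ ^ 2 = ∑ i ∈ P \ S, ‖v i‖ ^ 2 + (∑ i ∈ SA, ‖v i‖ ^ 2 +
        ∑ i ∈ S2, ‖v i‖ ^ 2) := by
      rw [← Finset.sum_sdiff hSP]
      congr 1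
      rw [hS, Finset.sum_union hd]
    rw [e4, ← Finset.mul_sum]
    linarith)
  change ∀ z w, r z w ^ 2 ≤ r z z * r w w at hCS
  change ∀ z, 4 * cc m z ≤ r z z at hcr
  change ∀ z w, r z w = r w z at hsym
  -- values on S
  have hSc : ∀ z ∈ S, cc m z = 1 / 4 ∧ (starRingEnd ℂ) z = z := by
    intro z hz
    simp only [hSd, Finset.mem_filter] at hz
    refine ⟨?_, Complex.conj_eq_iff_im.mpr hz.2.1⟩
    unfold cc
    rw [if_pos hz.2.1, hz.2.2]
    norm_num
  have hrS : ∀ z ∈ S, ∀ w ∈ S, r z w = (φ (z - w)).re := by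
    intro z hz w hw
    simp only [hr, rr]
    rw [(hSc z hz).1, (hSc w hw).1, (hSc z hz).2, (hSc w hw).2,
      Real.mul_self_sqrt (by norm_num), ← hev (w - z), neg_sub]
    ring
  have hrSS : ∀ z ∈ S, r z z = 1 := by
    intro z hz
    rw [hrS z hz z hz, sub_self, h0, Complex.one_re]
  have hA : ∀ z ∈ SA, z ∈ S := fun z hz => hS ▸ Finset.mem_union_left _ hz
  have h2 : ∀ z ∈ S2, z ∈ S := fun z hz => hS ▸ Finset.mem_union_right _ hz
  -- lower bound for cc outside S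
  have hcO : ∀ z ∈ P \ S, 1 / 2 ≤ cc m z := by
    intro z hz
    rw [Finset.mem_sdiff] at hz
    have hzP := (Finset.mem_filter.mp hz.1)
    have hmz : 1 ≤ m z := hm1 z hzP.1
    unfold cc
    split_ifs with h
    · have h3 : m z ≠ 1 := fun h3 => hz.2 (Finset.mem_filter.mpr ⟨hzP.1, h, h3⟩)
      have h4 : 2 ≤ m z := by omega
      have h5 : (2 : ℝ) ≤ m z := by exact_mod_cast h4
      linarith
    · have h5 : (1 : ℝ) ≤ m z := by exact_mod_cast hmz
      linarith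
  have hR2 : ∀ z ∈ P \ S, 2 ≤ r z z := by
    intro z hz
    have a1 := hcO z hz
    have a2 := hcr z
    linarith
  -- evaluate the linear term
  have hlin : ∑ z ∈ P, ∑ w ∈ P, D z w * r z w = ((SA.card : ℝ) + ∑ z ∈ SA, ∑ w ∈ SA,
      Y z w * (φ (z - w)).re) + ∑ x ∈ S2, t x * (2 * r x (o x)) + ((S2.card : ℝ) +
        ∑ z ∈ P \ S, 2 * r z z - ∑ x ∈ S2, t x ^ 2 * r (o x) (o x)) := by
    rw [hDdef, gen_sum P SA S2 hAP h2P o hoP _ _ _ r, hcsum (fun z => r z z), hτsum' (fun z => r z z)]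
    congr 1
    · congr 1
      · rw [Finset.card_eq_sum_ones, Nat.cast_sum, ← Finset.sum_add_distrib]
        refine Finset.sum_congr rfl fun z hz => ?_
        simp_rw [add_mul, ite_mul, one_mul, zero_mul]
        rw [Finset.sum_add_distrib, Finset.sum_ite_eq, if_pos hz, hrSS z (hA z hz)]
        simp only [Nat.cast_one]
        congr 1
        refine Finset.sum_congr rfl fun w hw => ?_
        rw [hrS z (hA z hz) w (hA w hw)]
      · refine Finset.sum_congr rfl fun x _ => ?_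
        rw [hsym (o x) x]; ring
    · congr 2
      rw [Finset.card_eq_sum_ones, Nat.cast_sum]
      refine Finset.sum_congr rfl fun z hz => ?_
      rw [hrSS z (h2 z hz)]; simp
  have hquad : ∑ z ∈ P, ∑ w ∈ P, (D z w) ^ 2 = ((SA.card : ℝ) + 2 * ∑ z ∈ SA, Y z z +
      ∑ z ∈ SA, ∑ w ∈ SA, (Y z w) ^ 2) + ∑ x ∈ S2, 2 * t x ^ 2 + ((S2.card : ℝ) +
        ∑ z ∈ P \ S, (2 - τ z) ^ 2) := by
    have e1 : ∀ z w, (D z w) ^ 2 = gen SA S2 o (fun z w => ((if z = w then 1 else 0) + Y z w) ^ 2)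
        (fun z => t z ^ 2) (fun z => c z ^ 2) z w * 1 := by
      intro z w
      rw [hDdef, gen_sq SA S2 o hd hoA _ _ _ (fun z hz => by simp [hc, hz]), mul_one]
    simp_rw [e1]
    rw [gen_sum P SA S2 hAP h2P o hoP _ _ _ (fun _ _ => 1)]
    congr 1
    · congr 1
      · rw [Finset.card_eq_sum_ones, Nat.cast_sum, Finset.mul_sum, ← Finset.sum_add_distrib,
          ← Finset.sum_add_distrib]
        refine Finset.sum_congr rfl fun z hz => ?_
        have : ∀ w, ((if z = w then 1 else 0) + Y z w) ^ 2 * 1 =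
            (if z = w then 1 + 2 * Y z w else 0) + (Y z w) ^ 2 := by
          intro w
          split_ifs <;> ring
        simp_rw [this]
        rw [Finset.sum_add_distrib, Finset.sum_ite_eq, if_pos hz]
        simp
      · refine Finset.sum_congr rfl fun x _ => ?_
        ring
    · rw [← Finset.sum_sdiff hSP, hS, Finset.sum_union hd]
      have a1 : ∑ z ∈ SA, c z ^ 2 * 1 = 0 := Finset.sum_eq_zero fun z hz => by simp [hc, hz]
      have a2 : ∑ z ∈ S2, c z ^ 2 * 1 = (S2.card : ℝ) := by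
        rw [Finset.card_eq_sum_ones, Nat.cast_sum]
        refine Finset.sum_congr rfl fun z hz => ?_
        have : z ∉ SA := fun h => hd' z h hz
        simp [hc, hz, this]
      have a3 : ∑ z ∈ P \ (SA ∪ S2), c z ^ 2 * 1 = ∑ z ∈ P \ (SA ∪ S2), (2 - τ z) ^ 2 := by
        refine Finset.sum_congr rfl fun z hz => ?_
        have h1 := (Finset.mem_sdiff.mp hz).2
        rw [Finset.mem_union, not_or] at h1
        simp only [hc, h1.1, h1.2, if_false, mul_one]
      rw [a1, a2, a3]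
      ring
  -- the diagonal part with b
  have hbs : ∑ z ∈ P, (r z z - 4 * cc m z) = ∑ z ∈ P \ S, (r z z - 4 * cc m z) := by
    rw [← Finset.sum_sdiff hSP]
    have : ∑ z ∈ S, (r z z - 4 * cc m z) = 0 := Finset.sum_eq_zero fun z hz => by
      rw [hrSS z hz, (hSc z hz).1]; norm_num
    rw [this, add_zero]
  have hNsplit : ∑ z ∈ Z, (m z : ℝ) = (S.card : ℝ) + ∑ z ∈ P \ S, 4 * cc m z := by
    rw [← hNs, ← Finset.sum_sdiff hSP, add_comm]
    congr 1
    rw [Finset.card_eq_sum_ones, Nat.cast_sum]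
    refine Finset.sum_congr rfl fun z hz => ?_
    rw [(hSc z hz).1]; norm_num
  have hcardS : (S.card : ℝ) = (SA.card : ℝ) + (S2.card : ℝ) := by
    rw [hS, Finset.card_union_of_disjoint hd]; push_cast; rfl
  -- τ bounds
  have hτ2 : ∀ z ∈ P \ S, τ z ^ 2 ≤ 2 * τ z := by
    intro z hz
    have hR := hR2 z hz
    have a1 : τ z ≤ 2 := by
      have a2 : ∀ x ∈ S2.filter (fun x => o x = z), t x ^ 2 ≤ 1 / 2 := by
        intro x hx
        rw [Finset.mem_filter] at hx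
        have a3 := hCS x (o x)
        rw [hrSS x (h2 x hx.1), one_mul, hx.2] at a3
        simp only [ht]
        rw [hx.2, div_pow, div_le_iff₀ (by positivity)]
        nlinarith
      calc τ z ≤ ∑ x ∈ S2.filter (fun x => o x = z), (1 / 2 : ℝ) := Finset.sum_le_sum a2
        _ = ((S2.filter (fun x => o x = z)).card : ℝ) * (1 / 2) := by
            rw [Finset.sum_const, nsmul_eq_mul]
        _ ≤ 4 * (1 / 2) := by
            apply mul_le_mul_of_nonneg_right _ (by norm_num)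
            exact_mod_cast hcard z
        _ = 2 := by norm_num
    have := hτ0 z
    nlinarith
  have hOsum : ∑ z ∈ P \ S, (2 - τ z) ^ 2 ≤ ∑ z ∈ P \ S, (4 - 4 * τ z + 2 * τ z) := by
    refine Finset.sum_le_sum fun z hz => ?_
    have := hτ2 z hz
    nlinarith
  have hOsum2 : ∑ z ∈ P \ S, (4 - 4 * τ z + 2 * τ z) = 4 * ((P \ S).card : ℝ) -
      2 * ∑ x ∈ S2, t x ^ 2 := by
    have a1 := hτsum' (fun _ => 1)
    simp only [mul_one] at a1
    rw [← a1, Finset.mul_sum, ← nsmul_eq_mul', ← Finset.sum_const, ← Finset.sum_sub_distrib]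
    exact Finset.sum_congr rfl fun z _ => by ring
  have hOc : 4 * ((P \ S).card : ℝ) ≤ ∑ z ∈ P \ S, 8 * cc m z := by
    rw [← nsmul_eq_mul', ← Finset.sum_const]
    refine Finset.sum_le_sum fun z hz => ?_
    have := hcO z hz
    linarith
  have hgain : ∑ x ∈ S2, 2 * r x (o x) ^ 2 / r (o x) (o x) ≤
      ∑ x ∈ S2, (4 * t x * r x (o x) - 2 * t x ^ 2 * r (o x) (o x)) := by
    refine Finset.sum_le_sum fun x hx => ?_
    have hxO : o x ∈ P \ S := Finset.mem_sdiff.mpr ⟨hoP x hx, fun h => (ho x hx).2 (hS ▸ h)⟩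
    have hR := hR2 (o x) hxO
    have hR0 : r (o x) (o x) ≠ 0 := by linarith
    apply le_of_eq
    simp only [ht]
    field_simp
    ring
  have e8 : ∑ z ∈ P \ S, 8 * cc m z = 2 * ∑ z ∈ P \ S, 4 * cc m z := by
    rw [Finset.mul_sum]; exact Finset.sum_congr rfl fun z _ => by ring
  have e9 : ∑ z ∈ P \ S, (r z z - 4 * cc m z) = ∑ z ∈ P \ S, r z z - ∑ z ∈ P \ S, 4 * cc m z :=
    Finset.sum_sub_distrib ..
  have e10 : ∑ z ∈ P \ S, 2 * r z z = 2 * ∑ z ∈ P \ S, r z z := by rw [Finset.mul_sum]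
  have e11 : ∑ x ∈ S2, (4 * t x * r x (o x) - 2 * t x ^ 2 * r (o x) (o x)) =
      2 * ∑ x ∈ S2, t x * (2 * r x (o x)) - 2 * ∑ x ∈ S2, t x ^ 2 * r (o x) (o x) := by
    rw [Finset.mul_sum, Finset.mul_sum, ← Finset.sum_sub_distrib]
    exact Finset.sum_congr rfl fun x _ => by ring
  have e12 : ∑ x ∈ S2, 2 * t x ^ 2 = 2 * ∑ x ∈ S2, t x ^ 2 := by rw [Finset.mul_sum]
  have e13 : ∑ x ∈ SA, ∑ y ∈ SA, Y x y * ((φ (x - y)).re - if x = y then 1 else 0) =
      ∑ z ∈ SA, ∑ w ∈ SA, Y z w * (φ (z - w)).re - ∑ z ∈ SA, Y z z := by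
    rw [← Finset.sum_sub_distrib]
    refine Finset.sum_congr rfl fun z hz => ?_
    simp_rw [mul_sub, mul_ite, mul_one, mul_zero]
    rw [Finset.sum_sub_distrib, Finset.sum_ite_eq, if_pos hz]
  rw [hlin, hquad, hbs] at hmain
  rw [hNsplit, e13]
  linarith

end H344
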