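import Pool.Agent.H370R2.Fin4

open Complex Filter Topology Set MeasureTheory
open scoped BigOperators ComplexConjugate

namespace H344

open H370

/-- there is a test matrix on `C` with gain at least `q` per point -/
def Good (Λ q : ℝ) (C : Finset ℝ) : Prop :=
  ∃ Y : ℝ → ℝ → ℝ, (∀ v : ℝ → ℂ, ∑ x ∈ C, ∑ y ∈ C, Y x y * (conj (v x) * v y).re ≤
    ∑ x ∈ C, ‖v x‖ ^ 2) ∧ q * (C.card : ℝ) ≤ YT Λ C Y

open Classical in
lemma dbl_union (A B : Finset ℝ) (hd : Disjoint A B) (f g : ℝ → ℝ → ℝ) :
    ∑ x ∈ A ∪ B, ∑ y ∈ A ∪ B, (if x ∈ A ∧ y ∈ A then f x y else if x ∈ B ∧ y ∈ B then g x y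
      else 0) = ∑ x ∈ A, ∑ y ∈ A, f x y + ∑ x ∈ B, ∑ y ∈ B, g x y := by
  have hd1 : ∀ x ∈ A, x ∉ B := fun x h => Finset.disjoint_left.mp hd h
  have hd2 : ∀ x ∈ B, x ∉ A := fun x h h' => Finset.disjoint_left.mp hd h' h
  rw [Finset.sum_union hd]
  congr 1
  · refine Finset.sum_congr rfl fun x hx => ?_
    rw [Finset.sum_union hd]
    have h1 : ∑ y ∈ B, (if x ∈ A ∧ y ∈ A then f x y else if x ∈ B ∧ y ∈ B then g x y
      else 0) = 0 := by
      refine Finset.sum_eq_zero fun y hy => ?_
      rw [if_neg (fun h => hd2 y hy h.2), if_neg (fun h => hd1 x hx h.1)]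
    rw [h1, add_zero]
    exact Finset.sum_congr rfl fun y hy => by rw [if_pos ⟨hx, hy⟩]
  · refine Finset.sum_congr rfl fun x hx => ?_
    rw [Finset.sum_union hd]
    have h1 : ∑ y ∈ A, (if x ∈ A ∧ y ∈ A then f x y else if x ∈ B ∧ y ∈ B then g x y
      else 0) = 0 := by
      refine Finset.sum_eq_zero fun y hy => ?_
      rw [if_neg (fun h => hd2 x hx h.1), if_neg (fun h => hd1 y hy h.2)]
    rw [h1, zero_add]
    exact Finset.sum_congr rfl fun y hy => by
      rw [if_neg (fun h => hd2 x hx h.1), if_pos ⟨hx, hy⟩]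

lemma glue (Λ : ℝ) (A B : Finset ℝ) (hd : Disjoint A B) (YA YB : ℝ → ℝ → ℝ)
    (hA : ∀ v : ℝ → ℂ, ∑ x ∈ A, ∑ y ∈ A, YA x y * (conj (v x) * v y).re ≤ ∑ x ∈ A, ‖v x‖ ^ 2)
    (hB : ∀ v : ℝ → ℂ, ∑ x ∈ B, ∑ y ∈ B, YB x y * (conj (v x) * v y).re ≤ ∑ x ∈ B, ‖v x‖ ^ 2) :
    ∃ Y : ℝ → ℝ → ℝ, (∀ v : ℝ → ℂ, ∑ x ∈ A ∪ B, ∑ y ∈ A ∪ B, Y x y * (conj (v x) * v y).re ≤
      ∑ x ∈ A ∪ B, ‖v x‖ ^ 2) ∧ YT Λ (A ∪ B) Y = YT Λ A YA + YT Λ B YB := by
  classical
  refine ⟨fun x y => if x ∈ A ∧ y ∈ A then YA x y else if x ∈ B ∧ y ∈ B then YB x y else 0,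
    fun v => ?_, ?_⟩
  · have := dbl_union A B hd (fun x y => YA x y * (conj (v x) * v y).re)
      (fun x y => YB x y * (conj (v x) * v y).re)
    simp only [ite_mul, zero_mul]
    rw [this, Finset.sum_union hd]
    exact add_le_add (hA v) (hB v)
  · unfold YT
    have h1 := dbl_union A B hd
      (fun x y => YA x y * ((phi Λ ((x : ℂ) - y)).re - if x = y then 1 else 0))
      (fun x y => YB x y * ((phi Λ ((x : ℂ) - y)).re - if x = y then 1 else 0))
    have h2 := dbl_union A B hd (fun x y => YA x y ^ 2) (fun x y => YB x y ^ 2)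
    have e1 : ∀ x y : ℝ, (if x ∈ A ∧ y ∈ A then YA x y else if x ∈ B ∧ y ∈ B then YB x y else 0) *
        ((phi Λ ((x : ℂ) - y)).re - if x = y then 1 else 0) =
        (if x ∈ A ∧ y ∈ A then YA x y * ((phi Λ ((x : ℂ) - y)).re - if x = y then 1 else 0) else
          if x ∈ B ∧ y ∈ B then YB x y * ((phi Λ ((x : ℂ) - y)).re - if x = y then 1 else 0)
          else 0) := by
      intro x y
      by_cases c1 : x ∈ A ∧ y ∈ A
      · simp only [if_pos c1]
      · by_cases c2 : x ∈ B ∧ y ∈ B
        · simp only [if_neg c1, if_pos c2]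
        · simp only [if_neg c1, if_neg c2, zero_mul]
    have e2 : ∀ x y : ℝ, (if x ∈ A ∧ y ∈ A then YA x y else if x ∈ B ∧ y ∈ B then YB x y
        else 0) ^ 2 = (if x ∈ A ∧ y ∈ A then YA x y ^ 2 else if x ∈ B ∧ y ∈ B then YB x y ^ 2
        else 0) := by
      intro x y
      by_cases c1 : x ∈ A ∧ y ∈ A
      · simp only [if_pos c1]
      · by_cases c2 : x ∈ B ∧ y ∈ B
        · simp only [if_neg c1, if_pos c2]
        · simp only [if_neg c1, if_neg c2]; norm_num
    simp only [e1, e2]
    rw [h1, h2]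
    ring

lemma Good.union {Λ q : ℝ} {A B : Finset ℝ} (hA : Good Λ q A) (hB : Good Λ q B)
    (hd : Disjoint A B) : Good Λ q (A ∪ B) := by
  obtain ⟨YA, a1, a2⟩ := hA
  obtain ⟨YB, b1, b2⟩ := hB
  obtain ⟨Y, h1, h2⟩ := glue Λ A B hd YA YB a1 b1
  refine ⟨Y, h1, ?_⟩
  rw [h2, Finset.card_union_of_disjoint hd]
  push_cast
  linarith

lemma Good.empty (Λ q : ℝ) : Good Λ q ∅ := ⟨fun _ _ => 0, fun v => by simp, by simp [YT]⟩

lemma Good.pair {Λ q x y : ℝ} (hxy : x ≠ y) (h : q ≤ (phi Λ ((x : ℂ) - y)).re ^ 2) :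
    Good Λ q {x, y} := by
  classical
  refine ⟨yt Λ 1, fun v => yt_block Λ 1 1 (by norm_num) (by norm_num) _ Finset.card_le_two v, ?_⟩
  rw [YT_yt, Finset.card_pair hxy]
  have e1 : x ∉ ({y} : Finset ℝ) := by simpa using hxy
  simp only [Finset.sum_insert e1, Finset.sum_singleton, if_true, if_neg hxy, if_neg hxy.symm]
  rw [phi_sub_symm Λ y x]
  push_cast
  linarith

lemma Good.triple {Λ q x1 x2 x3 : ℝ} (h12 : x1 < x2) (h23 : x2 < x3)
    (h1 : q ≤ (phi Λ ((x1 : ℂ) - x2)).re ^ 2) (h2 : q ≤ (phi Λ ((x2 : ℂ) - x3)).re ^ 2) :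
    Good Λ q {x1, x2, x3} := by
  classical
  refine ⟨yt Λ (1 / 2), fun v => yt_block Λ (1 / 2) 2 (by norm_num) (by norm_num) _
    Finset.card_le_three v, ?_⟩
  rw [YT_triple Λ _ _ _ _ h12 h23]
  rw [phi_sub_symm Λ x1 x2] at h1
  rw [phi_sub_symm Λ x2 x3] at h2
  have h3 : 0 ≤ (phi Λ ((x3 : ℂ) - x1)).re ^ 2 := sq_nonneg _
  have e1 : x1 ∉ ({x2, x3} : Finset ℝ) := by simp [h12.ne, (h12.trans h23).ne]
  rw [Finset.card_insert_of_notMem e1, Finset.card_pair h23.ne]
  push_cast
  norm_num
  linarith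

open Classical in
/-- points of `S` that have another point of `S` within `ρ` -/
noncomputable def closeS (ρ : ℝ) (S : Finset ℝ) : Finset ℝ :=
  S.filter (fun x => ∃ y ∈ S, y ≠ x ∧ |x - y| ≤ ρ)

lemma mem_closeS {ρ : ℝ} {S : Finset ℝ} {x : ℝ} :
    x ∈ closeS ρ S ↔ x ∈ S ∧ ∃ y ∈ S, y ≠ x ∧ |x - y| ≤ ρ := by
  classical
  unfold closeS
  rw [Finset.mem_filter]

lemma closeS_split {ρ : ℝ} {S B R : Finset ℝ} (hS : S = B ∪ R) 
    (hB : ∀ b ∈ B, b ∈ closeS ρ S) (hR : ∀ z ∈ R, ∀ y ∈ B, |z - y| ≤ ρ → z ∈ closeS ρ R) :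
    closeS ρ S = B ∪ closeS ρ R := by
  classical
  ext z
  rw [Finset.mem_union]
  constructor
  · intro hz
    by_cases hzB : z ∈ B
    · exact Or.inl hzB
    · right
      obtain ⟨h1, y, hy, hyz, hd⟩ := mem_closeS.mp hz
      rw [hS, Finset.mem_union] at h1 hy
      have hzR : z ∈ R := h1.resolve_left hzB
      rcases hy with hy | hy
      · exact hR z hzR y hy hd
      · exact mem_closeS.mpr ⟨hzR, y, hy, hyz, hd⟩
  · rintro (hz | hz)
    · exact hB z hz
    · obtain ⟨h1, y, hy, hyz, hd⟩ := mem_closeS.mp hz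
      refine mem_closeS.mpr ⟨?_, y, ?_, hyz, hd⟩
      · rw [hS]; exact Finset.mem_union_right _ h1
      · rw [hS]; exact Finset.mem_union_right _ hy

lemma closeS_sub {ρ : ℝ} {S : Finset ℝ} : closeS ρ S ⊆ S := fun _ h => (mem_closeS.mp h).1

theorem close_good {Λ q ρ : ℝ} (hq : ∀ x y : ℝ, |x - y| ≤ ρ → q ≤ (phi Λ ((x : ℂ) - y)).re ^ 2) :
    ∀ (n : ℕ) (S : Finset ℝ), S.card = n → Good Λ q (closeS ρ S) := by
  classical
  intro n
  induction n using Nat.strong_induction_on with
  | _ n ih =>
    intro S hSn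
    rcases S.eq_empty_or_nonempty with hSe | hSne
    · subst hSe
      have : closeS ρ (∅ : Finset ℝ) = ∅ := by
        unfold closeS; simp
      rw [this]
      exact Good.empty Λ q
    · set x1 := S.min' hSne with hx1
      have hx1S : x1 ∈ S := S.min'_mem hSne
      have hx1m : ∀ y ∈ S, x1 ≤ y := fun y hy => S.min'_le y hy
      set S1 := S.erase x1 with hS1
      have hc1 : S1.card < n := by rw [← hSn]; exact Finset.card_erase_lt_of_mem hx1S
      have hSS1 : S = {x1} ∪ S1 := by
        rw [hS1, ← Finset.insert_eq, Finset.insert_erase hx1S]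
      by_cases hcl : x1 ∈ closeS ρ S
      · obtain ⟨-, y, hyS, hyne, hyd⟩ := mem_closeS.mp hcl
        have hyS1 : y ∈ S1 := Finset.mem_erase.mpr ⟨hyne, hyS⟩
        have hS1ne : S1.Nonempty := ⟨y, hyS1⟩
        set x2 := S1.min' hS1ne with hx2
        have hx2S1 : x2 ∈ S1 := S1.min'_mem hS1ne
        have hx2m : ∀ y ∈ S1, x2 ≤ y := fun y hy => S1.min'_le y hy
        have hx2S : x2 ∈ S := Finset.mem_of_mem_erase hx2S1
        have h12 : x1 < x2 := lt_of_le_of_ne (hx1m x2 hx2S) (Ne.symm (Finset.ne_of_mem_erase hx2S1))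
        have hd12 : x2 - x1 ≤ ρ := by
          have h1 := hx2m y hyS1
          rw [abs_le] at hyd
          linarith [hyd.1]
        have ha12 : |x1 - x2| ≤ ρ := by rw [abs_le]; constructor <;> linarith
        set S2 := S1.erase x2 with hS2
        have hc2 : S2.card < n := (Finset.card_erase_lt_of_mem hx2S1).trans hc1
        have hSS2 : S = {x1, x2} ∪ S2 := by
          rw [hSS1, ← Finset.insert_eq, Finset.insert_union, ← Finset.insert_eq,
            hS2, Finset.insert_erase hx2S1]
        have hx2c : x2 ∈ closeS ρ S := mem_closeS.mpr ⟨hx2S, x1, hx1S, h12.ne, by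
          rw [abs_sub_comm]; exact ha12⟩
        have hS2gt : ∀ z ∈ S2, x2 < z := fun z hz =>
          lt_of_le_of_ne (hx2m z (Finset.mem_of_mem_erase hz)) (Ne.symm (Finset.ne_of_mem_erase hz))
        have hpair : Good Λ q {x1, x2} := Good.pair h12.ne (hq x1 x2 ha12)
        have hB12 : ∀ b ∈ ({x1, x2} : Finset ℝ), b ∈ closeS ρ S := by
          intro b hb
          rw [Finset.mem_insert, Finset.mem_singleton] at hb
          rcases hb with rfl | rfl
          · exact hcl
          · exact hx2c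
        have hdisj2 : Disjoint ({x1, x2} : Finset ℝ) (closeS ρ S2) := by
          rw [Finset.disjoint_left]
          intro b hb hb2
          have := hS2gt b (closeS_sub hb2)
          rw [Finset.mem_insert, Finset.mem_singleton] at hb
          rcases hb with rfl | rfl <;> linarith
        by_cases hB1 : ∃ z ∈ S2, z - x2 ≤ ρ
        · obtain ⟨z0, hz0, hz0d⟩ := hB1
          have hS2ne : S2.Nonempty := ⟨z0, hz0⟩
          set x3 := S2.min' hS2ne with hx3
          have hx3S2 : x3 ∈ S2 := S2.min'_mem hS2ne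
          have hx3m : ∀ y ∈ S2, x3 ≤ y := fun y hy => S2.min'_le y hy
          have hx3S : x3 ∈ S := by rw [hSS2]; exact Finset.mem_union_right _ hx3S2
          have h23 : x2 < x3 := hS2gt x3 hx3S2
          have hd23 : x3 - x2 ≤ ρ := by linarith [hx3m z0 hz0]
          have ha23 : |x2 - x3| ≤ ρ := by rw [abs_le]; constructor <;> linarith
          set S3 := S2.erase x3 with hS3
          have hc3 : S3.card < n := (Finset.card_erase_lt_of_mem hx3S2).trans hc2
          have hS3gt : ∀ z ∈ S3, x3 < z := fun z hz =>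
            lt_of_le_of_ne (hx3m z (Finset.mem_of_mem_erase hz)) (Ne.symm (Finset.ne_of_mem_erase hz))
          by_cases hB2 : ∃ w ∈ S3, w - x3 ≤ ρ
          · obtain ⟨w0, hw0, hw0d⟩ := hB2
            have hsp := closeS_split (ρ := ρ) hSS2 hB12 (by
              intro z hz y hy hzy
              have hzx2 : z - x2 ≤ ρ := by
                rw [abs_le] at hzy
                rw [Finset.mem_insert, Finset.mem_singleton] at hy
                rcases hy with rfl | rfl <;> linarith [hzy.2]
              by_cases hz3 : z = x3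
              · subst hz3
                refine mem_closeS.mpr ⟨hz, w0, Finset.mem_of_mem_erase hw0,
                  (hS3gt w0 hw0).ne', ?_⟩
                have := hS3gt w0 hw0
                rw [abs_le]; constructor <;> linarith
              · have h3z : x3 < z := lt_of_le_of_ne (hx3m z hz) (Ne.symm hz3)
                refine mem_closeS.mpr ⟨hz, x3, hx3S2, h3z.ne, ?_⟩
                rw [abs_le]; constructor <;> linarith)
            rw [hsp]
            exact hpair.union (ih _ hc2 S2 rfl) hdisj2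
          · push Not at hB2
            have hSS3 : S = {x1, x2, x3} ∪ S3 := by
              rw [hSS2]
              have : S2 = {x3} ∪ S3 := by
                rw [hS3, ← Finset.insert_eq, Finset.insert_erase hx3S2]
              rw [this, ← Finset.union_assoc]
              congr 1
              ext z
              simp only [Finset.mem_union, Finset.mem_insert, Finset.mem_singleton]
              tauto
            have hx3c : x3 ∈ closeS ρ S := mem_closeS.mpr ⟨hx3S, x2, hx2S, h23.ne, by
              rw [abs_sub_comm]; exact ha23⟩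
            have hsp := closeS_split (ρ := ρ) hSS3 (by
              intro b hb
              simp only [Finset.mem_insert, Finset.mem_singleton] at hb
              rcases hb with rfl | rfl | rfl
              · exact hcl
              · exact hx2c
              · exact hx3c) (by
              intro z hz y hy hzy
              exfalso
              have h1 := hB2 z hz
              rw [abs_le] at hzy
              simp only [Finset.mem_insert, Finset.mem_singleton] at hy
              rcases hy with rfl | rfl | rfl <;> linarith [hzy.2])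
            rw [hsp]
            refine (Good.triple h12 h23 (hq x1 x2 ha12) (hq x2 x3 ha23)).union (ih _ hc3 S3 rfl) ?_
            rw [Finset.disjoint_left]
            intro b hb hb2
            have := hS3gt b (closeS_sub hb2)
            simp only [Finset.mem_insert, Finset.mem_singleton] at hb
            rcases hb with rfl | rfl | rfl <;> linarith
        · push Not at hB1
          have hsp := closeS_split (ρ := ρ) hSS2 hB12 (by
            intro z hz y hy hzy
            exfalso
            have h1 := hB1 z hz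
            rw [abs_le] at hzy
            rw [Finset.mem_insert, Finset.mem_singleton] at hy
            rcases hy with rfl | rfl <;> linarith [hzy.2])
          rw [hsp]
          exact hpair.union (ih _ hc2 S2 rfl) hdisj2
      · have : closeS ρ S = closeS ρ S1 := by
          ext z
          constructor
          · intro hz
            obtain ⟨h1, y, hy, hyz, hd⟩ := mem_closeS.mp hz
            have hzx : z ≠ x1 := fun h => hcl (h ▸ hz)
            have hyx : y ≠ x1 := by
              rintro rfl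
              exact hcl (mem_closeS.mpr ⟨hx1S, z, h1, hyz.symm, by rw [abs_sub_comm]; exact hd⟩)
            exact mem_closeS.mpr ⟨Finset.mem_erase.mpr ⟨hzx, h1⟩, y,
              Finset.mem_erase.mpr ⟨hyx, hy⟩, hyz, hd⟩
          · intro hz
            obtain ⟨h1, y, hy, hyz, hd⟩ := mem_closeS.mp hz
            exact mem_closeS.mpr ⟨Finset.mem_of_mem_erase h1, y, Finset.mem_of_mem_erase hy,
              hyz, hd⟩
        rw [this]
        exact ih _ hc1 S1 rfl

end H344
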