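import Pool.Agent.H344R2.Blocks
import Pool.Agent.H344R2.Close

open Complex Filter Topology Set MeasureTheory
open scoped BigOperators ComplexConjugate

namespace H344

open H370

open Classical in
/-- ordinates of the simple critical zeros in `(U1, U2]` that have no other zero of `(U1, U2]`
in the box `|Im| ≤ ρ`, `|Re - 1/2| ≤ h` around them -/
noncomputable def SI (F : ℂ → ℂ) (U1 U2 ρ h : ℝ) : Finset ℝ :=
  (SF F U1 U2).filter (fun x => ∀ s' ∈ Zf F U1 U2, s' ≠ (1 / 2 + I * x : ℂ) →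
    |s'.im - x| ≤ ρ → h < |s'.re - 1 / 2|)

variable {F : ℂ → ℂ} (hF : GoodL F) {U1 U2 : ℝ} (hU : 1 ≤ U1)

lemma mem_SF {x : ℝ} : x ∈ SF F U1 U2 ↔ (1 / 2 + I * x : ℂ) ∈ Zf F U1 U2 ∧
    mult F (1 / 2 + I * x) = 1 := by
  classical
  unfold SF
  rw [Finset.mem_image]
  constructor
  · rintro ⟨s, hs, rfl⟩
    rw [Finset.mem_filter] at hs
    have : s = 1 / 2 + I * s.im := by
      apply Complex.ext
      · simp [hs.2.1]
      · simp
    rw [← this]
    exact ⟨hs.1, hs.2.2⟩
  · rintro ⟨h1, h2⟩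
    refine ⟨1 / 2 + I * x, Finset.mem_filter.mpr ⟨h1, by simp, h2⟩, by simp⟩

include hF hU in
theorem core_ineq (Λ ρ h q : ℝ) (hρ : 0 ≤ ρ) (hh : 0 ≤ h) (hq0 : 0 ≤ q)
    (hq1 : ∀ x y : ℝ, |x - y| ≤ ρ → q ≤ (phi Λ ((x : ℂ) - y)).re ^ 2)
    (hq2 : ∀ (x : ℝ) (w : ℂ), |w.re - x| ≤ ρ → 0 < w.im → w.im ≤ h →
      q * ((phi Λ (w - conj w)).re + 1) ≤ 4 * (phi Λ (w - x)).re ^ 2)
    (Y0 : ℝ → ℝ → ℝ)
    (hY0 : ∀ v : ℝ → ℂ, ∑ x ∈ SI F U1 U2 ρ h, ∑ y ∈ SI F U1 U2 ρ h,
      Y0 x y * (conj (v x) * v y).re ≤ ∑ x ∈ SI F U1 U2 ρ h, ‖v x‖ ^ 2) :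
    2 * (NN F U1 U2 : ℝ) - Ns F U1 U2 + q * ((Ns F U1 U2 : ℝ) - (SI F U1 U2 ρ h).card)
      + YT Λ (SI F U1 U2 ρ h) Y0 ≤ QQ F Λ U1 U2 := by
  classical
  obtain ⟨E, iE1, iE2, k, hk⟩ := gram_exists Λ
  set W := Zf F U1 U2 with hW
  set Z : Finset ℂ := W.image zz with hZ
  set m : ℂ → ℕ := fun z => mult F (1 / 2 + I * z) with hm
  have hback : ∀ s : ℂ, (1 / 2 + I * zz s) = s := by
    intro s
    have := zz_spec s
    linear_combination -this
  have hzzb : ∀ z : ℂ, zz (1 / 2 + I * z) = z := by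
    intro z
    unfold zz
    have := I_mul_I
    linear_combination (-z) * this
  have hmz : ∀ s : ℂ, m (zz s) = mult F s := by
    intro s; simp only [hm]; rw [hback]
  have hWm : ∀ s ∈ W, s ∈ zset F U1 U2 := fun s hs => (mem_Zf hF hU).mp hs
  have hWpos : ∀ s ∈ W, 1 ≤ mult F s := by
    intro s hs
    have := hWm s hs
    exact Loc.mult_pos' hF (by linarith [this.2.2.1]) this.2.2.2.2
  have hZW : ∀ z : ℂ, z ∈ Z ↔ (1 / 2 + I * z) ∈ W := by
    intro z
    rw [hZ, Finset.mem_image]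
    constructor
    · rintro ⟨s, hs, rfl⟩; rw [hback]; exact hs
    · intro hz; exact ⟨_, hz, hzzb z⟩
  have hsumZ : ∀ {M : Type} [AddCommMonoid M] (f : ℂ → M),
      ∑ z ∈ Z, f z = ∑ s ∈ W, f (zz s) := by
    intro M _ f
    rw [hZ, Finset.sum_image (fun s _ s' _ h => zz_inj h)]
  have hN : ∑ z ∈ Z, (m z : ℝ) = NN F U1 U2 := by
    rw [NN_eq hF hU, hsumZ]
    simp only [hmz]
    push_cast; rfl
  have hZc : ∀ z ∈ Z, conj z ∈ Z := by
    intro z hz
    rw [hZ, Finset.mem_image] at hz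
    obtain ⟨s, hs, rfl⟩ := hz
    rw [← zz_refl]
    exact Finset.mem_image_of_mem _ ((mem_Zf hF hU).mpr (zset_refl hF hU (hWm s hs)))
  have hmp : ∀ z ∈ Z, 1 ≤ m z := by
    intro z hz
    rw [hZ, Finset.mem_image] at hz
    obtain ⟨s, hs, rfl⟩ := hz
    rw [hmz]
    exact hWpos s hs
  have hmc : ∀ z ∈ Z, m (conj z) = m z := by
    intro z hz
    rw [hZ, Finset.mem_image] at hz
    obtain ⟨s, hs, rfl⟩ := hz
    have := hWm s hs
    rw [← zz_refl, hmz, hmz, mult_refl hF this.1 this.2.1 (by linarith [this.2.2.1])]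
  -- real sets
  set Sr := SF F U1 U2 with hSr
  set C1 := closeS ρ Sr with hC1
  set S0 := SI F U1 U2 ρ h with hS0
  have hS0r : S0 ⊆ Sr := Finset.filter_subset _ _
  have hC1r : C1 ⊆ Sr := closeS_sub
  have hSrZ : ∀ x : ℝ, x ∈ Sr ↔ (x : ℂ) ∈ Z ∧ m x = 1 := by
    intro x
    rw [hSr, mem_SF, hZW]
  have hd01 : Disjoint C1 S0 := by
    rw [Finset.disjoint_left]
    intro x hx1 hx0
    obtain ⟨h1, y, hy, hyx, hd⟩ := mem_closeS.mp hx1
    rw [hS0, SI, Finset.mem_filter] at hx0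
    have h2 := hx0.2 (1 / 2 + I * y) (mem_SF.mp hy).1 (by
      intro h3
      apply hyx
      have := congrArg Complex.im h3
      simpa using this) (by
      rw [abs_sub_comm] at hd
      simpa using hd)
    simp at h2
    linarith
  set SAr := C1 ∪ S0 with hSAr
  set S2r := Sr \ SAr with hS2r
  have hSAr_sub : SAr ⊆ Sr := Finset.union_subset hC1r hS0r
  obtain ⟨Y1, hY1, hY1g⟩ := close_good hq1 _ Sr rfl
  obtain ⟨Y, hYq, hYT⟩ := glue Λ C1 S0 hd01 Y1 Y0 hY1 hY0
  -- complex sets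
  have hinj : ∀ A : Finset ℝ, Set.InjOn (fun x : ℝ => (x : ℂ)) (A : Set ℝ) :=
    fun A x _ y _ hxy => Complex.ofReal_injective hxy
  have himg : ∀ (A : Finset ℝ) {M : Type} [AddCommMonoid M] (f : ℂ → M),
      ∑ z ∈ A.image (fun x : ℝ => (x : ℂ)), f z = ∑ x ∈ A, f (x : ℂ) := by
    intro A M _ f
    rw [Finset.sum_image (hinj A)]
  set SA : Finset ℂ := SAr.image (fun x : ℝ => (x : ℂ)) with hSA
  set S2 : Finset ℂ := S2r.image (fun x : ℝ => (x : ℂ)) with hS2
  have hSfil : Z.filter (fun z => z.im = 0 ∧ m z = 1) = Sr.image (fun x : ℝ => (x : ℂ)) := by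
    ext z
    constructor
    · intro hz'
      rw [Finset.mem_filter] at hz'
      obtain ⟨h1, h2, h3⟩ := hz'
      have hz : ((z.re : ℝ) : ℂ) = z := by
        apply Complex.ext
        · simp
        · simp [h2]
      exact Finset.mem_image.mpr ⟨z.re, (hSrZ _).mpr (by rw [hz]; exact ⟨h1, h3⟩), hz⟩
    · intro hz'
      obtain ⟨x, hx, rfl⟩ := Finset.mem_image.mp hz'
      obtain ⟨h1, h2⟩ := (hSrZ x).mp hx
      exact Finset.mem_filter.mpr ⟨h1, by simp, h2⟩
  have hS : Z.filter (fun z => z.im = 0 ∧ m z = 1) = SA ∪ S2 := by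
    rw [hSfil, hSA, hS2, ← Finset.image_union, hS2r, Finset.union_sdiff_of_subset hSAr_sub]
  have hd : Disjoint SA S2 := by
    rw [hSA, hS2, Finset.disjoint_image Complex.ofReal_injective, hS2r]
    exact Finset.disjoint_sdiff
  -- attach map
  set Pw : ℂ → ℂ → Prop := fun x w => w ∈ Z ∧ 0 ≤ w.im ∧ w.im ≤ h ∧ |w.re - x.re| ≤ ρ ∧
    ¬ (w.im = 0 ∧ m w = 1) with hPw
  have hex : ∀ x ∈ S2, ∃ w, Pw x w := by
    intro x hx
    rw [hS2, Finset.mem_image] at hx
    obtain ⟨x, hx, rfl⟩ := hx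
    rw [hS2r, Finset.mem_sdiff, hSAr, Finset.mem_union, not_or] at hx
    obtain ⟨hxS, hxC, hx0⟩ := hx
    rw [hS0, SI, Finset.mem_filter, not_and] at hx0
    have h1 := hx0 hxS
    push Not at h1
    obtain ⟨s, hsW, hsx, hs1, hs2⟩ := h1
    have hns : ∀ w : ℂ, w.re = s.im → ¬ (w ∈ Z ∧ w.im = 0 ∧ m w = 1) ∨ w = x := by
      intro w hw
      by_contra hcon
      push Not at hcon
      obtain ⟨⟨c1, c2, c3⟩, c4⟩ := hcon
      apply hxC
      have hwr : ((w.re : ℝ) : ℂ) = w := by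
        apply Complex.ext
        · simp
        · simp [c2]
      refine mem_closeS.mpr ⟨hxS, w.re, (hSrZ _).mpr (by rw [hwr]; exact ⟨c1, c3⟩), ?_, ?_⟩
      · intro h5
        apply c4
        rw [← hwr, h5]
      · rw [abs_sub_comm, hw]; exact hs1
    have hzs : zz s ∈ Z := Finset.mem_image_of_mem _ hsW
    have him : (zz s).im = -(s.re - 1 / 2) := zz_im s
    have hre : (zz s).re = s.im := zz_re s
    have hne : zz s ≠ x := by
      intro h3
      apply hsx
      rw [← hback s, h3]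
    rcases le_or_gt 0 (zz s).im with h3 | h3
    · refine ⟨zz s, hzs, h3, ?_, ?_, ?_⟩
      · rw [him]
        exact (le_abs_self _).trans (by rw [abs_neg]; exact hs2)
      · rw [hre]; simpa using hs1
      · intro h4
        rcases hns (zz s) hre with h5 | h5
        · exact h5 ⟨hzs, h4⟩
        · exact hne h5
    · refine ⟨conj (zz s), hZc _ hzs, ?_, ?_, ?_, ?_⟩
      · rw [Complex.conj_im]; linarith
      · rw [Complex.conj_im, him, neg_neg]
        exact (le_abs_self _).trans hs2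
      · rw [Complex.conj_re, hre]; simpa using hs1
      · intro h4
        rw [Complex.conj_im] at h4
        linarith [h4.1]
  set o : ℂ → ℂ := fun x => if hx : ∃ w, Pw x w then hx.choose else 0 with ho'
  have hoP : ∀ x ∈ S2, Pw x (o x) := by
    intro x hx
    simp only [ho', dif_pos (hex x hx)]
    exact (hex x hx).choose_spec
  have ho : ∀ x ∈ S2, o x ∈ Z.filter (fun z => 0 ≤ z.im) ∧ o x ∉ SA ∪ S2 := by
    intro x hx
    obtain ⟨a1, a2, a3, a4, a5⟩ := hoP x hx
    refine ⟨Finset.mem_filter.mpr ⟨a1, a2⟩, ?_⟩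
    rw [← hS, Finset.mem_filter]
    rintro ⟨b1, b2⟩
    exact a5 b2
  have hS2far : ∀ x ∈ S2r, ∀ y ∈ S2r, |x - y| ≤ ρ → x = y := by
    intro x hx y hy hxy
    by_contra hne
    rw [hS2r, Finset.mem_sdiff] at hx hy
    apply hx.2
    rw [hSAr, Finset.mem_union]
    left
    exact mem_closeS.mpr ⟨hx.1, y, hy.1, fun h => hne h.symm, hxy⟩
  have hcard : ∀ z, (S2.filter (fun x => o x = z)).card ≤ 4 := by
    intro z
    have h1 : S2.filter (fun x => o x = z) ⊆
        (S2.filter (fun x => o x = z ∧ x.re ≤ z.re)) ∪ (S2.filter (fun x => o x = z ∧ z.re < x.re)) := by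
      intro x hx
      rw [Finset.mem_union, Finset.mem_filter, Finset.mem_filter]
      rw [Finset.mem_filter] at hx
      rcases le_or_gt x.re z.re with h | h
      · exact Or.inl ⟨hx.1, hx.2, h⟩
      · exact Or.inr ⟨hx.1, hx.2, h⟩
    have h2 : (S2.filter (fun x => o x = z ∧ x.re ≤ z.re)).card ≤ 1 := by
      rw [Finset.card_le_one]
      intro x hx y hy
      rw [Finset.mem_filter] at hx hy
      have bx := (hoP x hx.1).2.2.2.1
      have bY := (hoP y hy.1).2.2.2.1
      rw [hx.2.1] at bx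
      rw [hy.2.1] at bY
      obtain ⟨hx1, hx2, hx3⟩ := hx
      obtain ⟨hy1, hy2, hy3⟩ := hy
      rw [hS2, Finset.mem_image] at hx1 hy1
      obtain ⟨x, hx, rfl⟩ := hx1
      obtain ⟨y, hy, rfl⟩ := hy1
      simp only [Complex.ofReal_re] at *
      rw [abs_le] at bx bY
      rw [hS2far x hx y hy (by rw [abs_le]; constructor <;> linarith [bx.1, bx.2, bY.1, bY.2])]
    have h3 : (S2.filter (fun x => o x = z ∧ z.re < x.re)).card ≤ 1 := by
      rw [Finset.card_le_one]
      intro x hx y hy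
      rw [Finset.mem_filter] at hx hy
      have bx := (hoP x hx.1).2.2.2.1
      have bY := (hoP y hy.1).2.2.2.1
      rw [hx.2.1] at bx
      rw [hy.2.1] at bY
      obtain ⟨hx1, hx2, hx3⟩ := hx
      obtain ⟨hy1, hy2, hy3⟩ := hy
      rw [hS2, Finset.mem_image] at hx1 hy1
      obtain ⟨x, hx, rfl⟩ := hx1
      obtain ⟨y, hy, rfl⟩ := hy1
      simp only [Complex.ofReal_re] at *
      rw [abs_le] at bx bY
      rw [hS2far x hx y hy (by rw [abs_le]; constructor <;> linarith [bx.1, bx.2, bY.1, bY.2])]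
    have h4 := Finset.card_le_card h1
    have h5 := Finset.card_union_le (S2.filter (fun x => o x = z ∧ x.re ≤ z.re))
      (S2.filter (fun x => o x = z ∧ z.re < x.re))
    omega
  have hmain := trace_blocks (phi Λ) k hk (phi_even Λ) (phi_zero Λ) Z hZc m hmp hmc SA S2 hd hS o ho
    hcard (fun z w => Y z.re w.re) (by
      intro v
      rw [hSA, himg SAr]
      simp only [himg SAr, Complex.ofReal_re]
      exact hYq (fun x => v x))
  -- gain from S2
  have hconj : ∀ z, conj (phi Λ z) = phi Λ (conj z) := by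
    intro z
    have h1 := hk 0 z
    have h2 := hk z 0
    rw [← inner_conj_symm, h1] at h2
    simp only [map_zero, sub_zero, zero_sub] at h2
    rw [h2, phi_even]
  have hg2 : q * (S2.card : ℝ) ≤ ∑ x ∈ S2, 2 * rr (phi Λ) m x (o x) ^ 2 / rr (phi Λ) m (o x) (o x) := by
    rw [mul_comm, ← nsmul_eq_mul, ← Finset.sum_const]
    refine Finset.sum_le_sum fun x hx => ?_
    obtain ⟨a1, a2, a3, a4, a5⟩ := hoP x hx
    have hxx : m x = 1 ∧ x.im = 0 := by
      have : x ∈ Z.filter (fun z => z.im = 0 ∧ m z = 1) := by rw [hS]; exact Finset.mem_union_right _ hx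
      rw [Finset.mem_filter] at this
      exact ⟨this.2.2, this.2.1⟩
    have hxr : x = ((x.re : ℝ) : ℂ) := by
      apply Complex.ext
      · simp
      · simp [hxx.2]
    have hcx : cc m x = 1 / 4 := by
      unfold cc; rw [if_pos hxx.2, hxx.1]; norm_num
    have hmo : 1 ≤ m (o x) := hmp _ a1
    have hconjx : conj x = x := Complex.conj_eq_iff_im.mpr hxx.2
    have hsum : 2 * (phi Λ (o x - conj x)).re + 2 * (phi Λ (conj (o x) - conj x)).re =
        4 * (phi Λ (o x - x)).re := by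
      have : phi Λ (conj (o x) - conj x) = conj (phi Λ (o x - x)) := by
        rw [hconj, map_sub]
      rw [this, Complex.conj_re, hconjx]
      ring
    have hs4 : Real.sqrt (1 / 4) = 1 / 2 := by
      rw [show (1 / 4 : ℝ) = (1 / 2) ^ 2 by norm_num, Real.sqrt_sq (by norm_num)]
    rcases a2.eq_or_lt with h0 | h0
    · -- multiple point on the line
      have him0 : (o x).im = 0 := h0.symm
      have hco : cc m (o x) = (m (o x) : ℝ) / 4 := by unfold cc; rw [if_pos him0]
      have hconjo : conj (o x) = o x := Complex.conj_eq_iff_im.mpr him0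
      have e1 : rr (phi Λ) m x (o x) ^ 2 = (m (o x) : ℝ) * (phi Λ (o x - x)).re ^ 2 := by
        unfold rr
        rw [hsum, hcx, hs4, hco, mul_pow, mul_pow, Real.sq_sqrt (by positivity)]
        ring
      have e2 : rr (phi Λ) m (o x) (o x) = (m (o x) : ℝ) := by
        unfold rr
        rw [hconjo, sub_self, phi_zero, Real.mul_self_sqrt (cc_nonneg m _), hco, Complex.one_re]
        ring
      rw [e1, e2]
      have hmR : (0 : ℝ) < m (o x) := by exact_mod_cast hmo
      have e3 : 2 * ((m (o x) : ℝ) * (phi Λ (o x - x)).re ^ 2) / (m (o x) : ℝ) =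
          2 * (phi Λ (o x - x)).re ^ 2 := by field_simp
      rw [e3]
      have hor : o x = (((o x).re : ℝ) : ℂ) := by
        apply Complex.ext
        · simp
        · simp [him0]
      have h5 := hq1 (o x).re x.re a4
      rw [← hor, ← hxr] at h5
      linarith
    · have hco : cc m (o x) = (m (o x) : ℝ) / 2 := by unfold cc; rw [if_neg h0.ne']
      have e1 : rr (phi Λ) m x (o x) ^ 2 = 2 * (m (o x) : ℝ) * (phi Λ (o x - x)).re ^ 2 := by
        unfold rr
        rw [hsum, hcx, hs4, hco, mul_pow, mul_pow, Real.sq_sqrt (by positivity)]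
        ring
      have e2 : rr (phi Λ) m (o x) (o x) = (m (o x) : ℝ) * ((phi Λ (o x - conj (o x))).re + 1) := by
        unfold rr
        rw [sub_self, phi_zero, Real.mul_self_sqrt (cc_nonneg m _), hco, Complex.one_re]
        ring
      have hmR : (0 : ℝ) < m (o x) := by exact_mod_cast hmo
      have h5 := hq2 x.re (o x) a4 h0 a3
      rw [← hxr] at h5
      rw [e1, e2]
      have h6 : 0 < (phi Λ (o x - conj (o x))).re + 1 := by
        obtain ⟨-, hcr, -⟩ := trace_gen (phi Λ) k hk (phi_even Λ) (phi_zero Λ) Z hZc m hmc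
          (fun _ _ => 0) (by
            intro v
            simp only [zero_mul, Finset.sum_const_zero]
            positivity)
        have h7 := hcr (o x)
        rw [e2, hco] at h7
        have h8 : (m (o x) : ℝ) * ((phi Λ (o x - conj (o x))).re + 1) ≥ (m (o x) : ℝ) * 2 := by
          linarith
        have h9 := le_of_mul_le_mul_left h8 hmR
        linarith
      rw [show 2 * (2 * (m (o x) : ℝ) * (phi Λ (o x - x)).re ^ 2) /
          ((m (o x) : ℝ) * ((phi Λ (o x - conj (o x))).re + 1)) =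
          4 * (phi Λ (o x - x)).re ^ 2 / ((phi Λ (o x - conj (o x))).re + 1) by
            field_simp; ring]
      rw [le_div_iff₀ h6]
      exact h5
  have hQ : (∑ z ∈ Z, ∑ w ∈ Z, (m z : ℂ) * (m w : ℂ) * (phi Λ (z - w)) ^ 2).re
      = QQ F Λ U1 U2 := by
    rw [QQ_eq hF hU, hsumZ]
    simp only [hsumZ, hmz, ← hW]
  have hcard1 : ((Z.filter (fun z => z.im = 0 ∧ m z = 1)).card : ℝ) = Ns F U1 U2 := by
    rw [hSfil, Finset.card_image_of_injective _ Complex.ofReal_injective, Ns_card hF hU]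
  have hYTc : 2 * ∑ x ∈ SA, ∑ y ∈ SA, Y x.re y.re * ((phi Λ (x - y)).re - if x = y then 1 else 0)
      - ∑ x ∈ SA, ∑ y ∈ SA, (Y x.re y.re) ^ 2 = YT Λ SAr Y := by
    unfold YT
    rw [hSA, himg SAr, himg SAr]
    simp only [himg SAr, Complex.ofReal_re, Complex.ofReal_inj]
  have hcards : (Sr.card : ℝ) = C1.card + S0.card + S2.card := by
    rw [hS2, Finset.card_image_of_injective _ Complex.ofReal_injective, hS2r,
      Finset.card_sdiff_of_subset hSAr_sub, hSAr, Finset.card_union_of_disjoint hd01]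
    have h1 : (C1 ∪ S0).card ≤ Sr.card := Finset.card_le_card hSAr_sub
    rw [Finset.card_union_of_disjoint hd01] at h1
    rw [Nat.cast_sub h1]
    push_cast
    ring
  have hNsr : (Ns F U1 U2 : ℝ) = Sr.card := by rw [Ns_card hF hU]
  rw [hYTc, hQ, hcard1, hN, hYT] at hmain
  rw [hNsr] at hmain ⊢
  have e5 : q * ((Sr.card : ℝ) - S0.card) = q * C1.card + q * S2.card := by
    rw [hcards]; ring
  rw [e5]
  linarith

end H344
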