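import Pool.Agent.H344R2.Kernel

open Complex Filter Topology Set MeasureTheory
open scoped BigOperators ComplexConjugate

namespace H344

open H370

lemma exp_num : Real.exp (4 * Real.pi / 5) ≤ 12.6 := by
  have h1 : 4 * Real.pi / 5 ≤ 2.5136 := by have := Real.pi_lt_d4; linarith
  have h2 : Real.exp 1 < 2.7183 := by have := Real.exp_one_lt_d9; linarith
  have h3 : Real.exp (4 * Real.pi / 5) ≤ Real.exp 2.5136 := Real.exp_le_exp.mpr h1
  have h4 : Real.exp 2.5136 = Real.exp 1 ^ 2 * Real.exp 0.0642 ^ 8 := by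
    rw [← Real.exp_nat_mul, ← Real.exp_nat_mul, ← Real.exp_add]
    norm_num
  have h5 : Real.exp 0.0642 ≤ 1.0687 := by
    have h6 := Real.one_sub_le_exp_neg (0.0642 : ℝ)
    rw [Real.exp_neg] at h6
    have h7 : 0 < Real.exp 0.0642 := Real.exp_pos _
    have h8 : Real.exp 0.0642 * (1 - 0.0642) ≤ 1 := by
      calc Real.exp 0.0642 * (1 - 0.0642) ≤ Real.exp 0.0642 * (Real.exp 0.0642)⁻¹ :=
            mul_le_mul_of_nonneg_left h6 h7.le
        _ = 1 := mul_inv_cancel₀ h7.ne'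
    norm_num at h8 ⊢
    linarith
  have h9 : Real.exp 1 ^ 2 ≤ 2.7183 ^ 2 := pow_le_pow_left₀ (Real.exp_pos _).le h2.le 2
  have h10 : Real.exp 0.0642 ^ 8 ≤ 1.0687 ^ 8 := pow_le_pow_left₀ (Real.exp_pos _).le h5 8
  calc Real.exp (4 * Real.pi / 5) ≤ Real.exp 2.5136 := h3
    _ = Real.exp 1 ^ 2 * Real.exp 0.0642 ^ 8 := h4
    _ ≤ 2.7183 ^ 2 * 1.0687 ^ 8 := mul_le_mul h9 h10 (by positivity) (by norm_num)
    _ ≤ 12.6 := by norm_num

lemma cosh_num {v : ℝ} (h0 : 0 ≤ v) (h1 : v ≤ 4 * Real.pi / 5) : Real.cosh v ≤ 6.8 := by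
  rw [Real.cosh_eq]
  have h2 : Real.exp v ≤ 12.6 := (Real.exp_le_exp.mpr h1).trans exp_num
  have h3 : Real.exp (-v) ≤ 1 := Real.exp_le_one_iff.mpr (by linarith)
  norm_num at h2 ⊢
  linarith

theorem kernel_bounds {r e1 : ℝ} (hr0 : 0 ≤ r) (hr : r ≤ 1 / 3) (he : 0 < e1) (he1 : e1 ≤ 1) :
    ∃ T0 : ℝ, 10 ≤ T0 ∧ ∀ T : ℝ, T0 ≤ T → ∀ Λ : ℝ, 0 ≤ Λ → Λ ≤ Real.log T →
      (∀ x y : ℝ, |x - y| ≤ 2 * Real.pi * r / Real.log T →
        (1 - e1) * KK r ^ 2 ≤ (phi Λ ((x : ℂ) - y)).re ^ 2) ∧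
      (∀ (x : ℝ) (w : ℂ), |w.re - x| ≤ 2 * Real.pi * r / Real.log T → 0 < w.im →
        w.im ≤ 4 * Real.pi / 5 / Real.log T →
        (1 - e1) * KK r ^ 2 * ((phi Λ (w - conj w)).re + 1) ≤ 4 * (phi Λ (w - x)).re ^ 2) := by
  have hK1 := KK_third hr0 hr
  have hK2 := KK_le_one r
  have hpi := Real.pi_pos
  have hpi4 := Real.pi_lt_d4
  refine ⟨Real.exp (max 100 (1 / e1)), ?_, fun T hT Λ hΛ0 hΛ1 => ?_⟩
  · have h1 : Real.exp 100 ≤ Real.exp (max 100 (1 / e1)) := Real.exp_le_exp.mpr (le_max_left _ _)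
    have h2 := Real.add_one_le_exp (100 : ℝ)
    linarith
  have hT0 : 0 < T := (Real.exp_pos _).trans_le hT
  have hL := (Real.le_log_iff_exp_le hT0).mpr hT
  set L := Real.log T with hLdef
  have hL1 : 100 ≤ L := (le_max_left _ _).trans hL
  have hL2 : 1 / e1 ≤ L := (le_max_right _ _).trans hL
  have hL0 : 0 < L := by linarith
  have hLe : 1 ≤ L * e1 := by rw [div_le_iff₀ he] at hL2; exact hL2
  -- scale
  set σ : ℝ := 2 * Real.pi / L with hσ
  have hσ0 : 0 < σ := by positivity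
  have hσL : σ * L = 2 * Real.pi := by rw [hσ]; field_simp
  have hσ1 : σ ≤ 0.063 := by
    rw [hσ, div_le_iff₀ hL0]; nlinarith
  have hσ2 : σ ^ 2 ≤ 0.4 * e1 := by
    have h1 : σ ^ 2 * L = σ * (2 * Real.pi) := by rw [← hσL]; ring
    have h2 : σ * (2 * Real.pi) ≤ 0.063 * 6.2832 := by
      apply mul_le_mul hσ1 (by linarith) (by positivity) (by norm_num)
    have h3 : σ ^ 2 * L ≤ 0.4 * (L * e1) := by
      rw [h1]
      norm_num at h2 ⊢
      linarith
    have h4 : σ ^ 2 * L ≤ (0.4 * e1) * L := by linarith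
    exact le_of_mul_le_mul_right h4 hL0
  have hρ : 2 * Real.pi * r / L = σ * r := by rw [hσ]; ring
  have hh : 4 * Real.pi / 5 / L = σ * (2 / 5) := by rw [hσ]; ring
  rw [hρ, hh]
  have hΛd : ∀ d : ℝ, |d| ≤ σ * r → |Λ * d| ≤ 2 * Real.pi * r := by
    intro d hd
    rw [abs_mul, abs_of_nonneg hΛ0]
    calc Λ * |d| ≤ L * (σ * r) := mul_le_mul hΛ1 hd (abs_nonneg _) hL0.le
      _ = 2 * Real.pi * r := by rw [← hσL]; ring
  have hRpi : 2 * Real.pi * r ≤ Real.pi := by nlinarith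
  have hdsq : ∀ d : ℝ, |d| ≤ σ * r → d ^ 2 ≤ σ ^ 2 / 9 := by
    intro d hd
    rw [← sq_abs]
    have h1 : |d| ≤ σ * (1 / 3) := hd.trans (mul_le_mul_of_nonneg_left hr hσ0.le)
    calc |d| ^ 2 ≤ (σ * (1 / 3)) ^ 2 := pow_le_pow_left₀ (abs_nonneg _) h1 2
      _ = σ ^ 2 / 9 := by ring
  constructor
  · intro x y hxy
    rw [phi_sub_re, mul_pow]
    have h1 := kap_lower (v := 0) (hΛd (x - y) hxy) hRpi
    simp only [Complex.ofReal_zero, mul_zero, add_zero] at h1
    change KK r ≤ _ at h1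
    have h2 : KK r ^ 2 ≤ (kap ((Λ * (x - y) : ℝ) : ℂ)).re ^ 2 :=
      pow_le_pow_left₀ (by linarith) h1 2
    have h3 : 1 - e1 ≤ Real.exp (-(x - y) ^ 2 / 8) ^ 2 := by
      rw [← Real.exp_nat_mul]
      have h4 := Real.add_one_le_exp (((2 : ℕ) : ℝ) * (-(x - y) ^ 2 / 8))
      have h5 := hdsq (x - y) hxy
      push_cast at h4 ⊢
      linarith
    calc (1 - e1) * KK r ^ 2 ≤ (1 - e1) * (kap ((Λ * (x - y) : ℝ) : ℂ)).re ^ 2 :=
          mul_le_mul_of_nonneg_left h2 (by linarith)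
      _ ≤ Real.exp (-(x - y) ^ 2 / 8) ^ 2 * (kap ((Λ * (x - y) : ℝ) : ℂ)).re ^ 2 :=
          mul_le_mul_of_nonneg_right h3 (sq_nonneg _)
      _ = _ := by ring
  · intro x w hwx hw0 hw1
    set d := w.re - x with hd
    set η := w.im with hη
    have hη2 : η ^ 2 ≤ 0.16 * σ ^ 2 := by
      calc η ^ 2 ≤ (σ * (2 / 5)) ^ 2 := pow_le_pow_left₀ hw0.le hw1 2
        _ = 0.16 * σ ^ 2 := by ring
    have hσ4 : σ ^ 2 ≤ 0.004 := by
      have : σ ^ 2 ≤ 0.063 ^ 2 := pow_le_pow_left₀ hσ0.le hσ1 2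
      norm_num at this ⊢
      linarith
    have hΛη0 : 0 ≤ Λ * η := mul_nonneg hΛ0 hw0.le
    have hΛη1 : Λ * η ≤ 4 * Real.pi / 5 := by
      calc Λ * η ≤ L * (σ * (2 / 5)) := mul_le_mul hΛ1 hw1 hw0.le hL0.le
        _ = 4 * Real.pi / 5 := by
          have : L * (σ * (2 / 5)) = (σ * L) * (2 / 5) := by ring
          rw [this, hσL]; ring
    -- the diagonal value
    have hdiag : (phi Λ (w - conj w)).re ≤ 2.9 := by
      have e1 : w - conj w = I * ((2 * η : ℝ) : ℂ) := by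
        apply Complex.ext
        · simp
        · simp [hη]; ring
      have e2 : phi Λ (w - conj w) = kap (I * ((2 * (Λ * η) : ℝ) : ℂ)) * ((Real.exp (η ^ 2 / 2) : ℝ) : ℂ) := by
        unfold phi
        rw [e1]
        congr 1
        · congr 1
          push_cast; ring
        · push_cast
          congr 1
          have := I_sq
          linear_combination (-(η : ℂ) ^ 2 / 2) * this
      rw [e2, Complex.re_mul_ofReal]
      have h1 := kap_imag (2 * (Λ * η))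
      rw [show 2 * (Λ * η) / 2 = Λ * η by ring] at h1
      have h2 := cosh_num hΛη0 hΛη1
      have h3 := cMTinv_le
      have h4 := cMTinv_ge
      have h5 : 1 ≤ Real.cosh (Λ * η) := Real.one_le_cosh _
      have h6 : (kap (I * ((2 * (Λ * η) : ℝ) : ℂ))).re ≤ 2.86 := by
        refine h1.trans ?_
        have h7 : 4 * (cMTinv - 5 / 4) * (Real.cosh (Λ * η) - 1) ≤ 0.32 * 5.8 := by
          apply mul_le_mul
          · norm_num at h3 ⊢; linarith
          · norm_num at h2 ⊢; linarith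
          · linarith
          · norm_num
        norm_num at h7 ⊢
        linarith
      have h8 : Real.exp (η ^ 2 / 2) ≤ 1.001 := by
        have h9 : η ^ 2 / 2 ≤ 0.00033 := by
          norm_num at hη2 hσ4 ⊢; nlinarith
        have h10 := Real.one_sub_le_exp_neg (η ^ 2 / 2)
        rw [Real.exp_neg] at h10
        have h7 : 0 < Real.exp (η ^ 2 / 2) := Real.exp_pos _
        have h8 : Real.exp (η ^ 2 / 2) * (1 - η ^ 2 / 2) ≤ 1 := by
          calc Real.exp (η ^ 2 / 2) * (1 - η ^ 2 / 2) ≤ Real.exp (η ^ 2 / 2) *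
                (Real.exp (η ^ 2 / 2))⁻¹ := mul_le_mul_of_nonneg_left h10 h7.le
            _ = 1 := mul_inv_cancel₀ h7.ne'
        have h11 : Real.exp (η ^ 2 / 2) * 0.9996 ≤ 1 := by
          refine le_trans (mul_le_mul_of_nonneg_left ?_ h7.le) h8
          norm_num at h9 ⊢
          linarith
        norm_num at h11 ⊢
        linarith
      have h12 : 0 ≤ (kap (I * ((2 * (Λ * η) : ℝ) : ℂ))).re := by
        have h13 := kap_lower (R := 0) (u := 0) (v := 2 * (Λ * η)) (by simp) hpi.le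
        simp only [Complex.ofReal_zero, zero_add, kap_zero, Complex.one_re] at h13
        linarith
      calc (kap (I * ((2 * (Λ * η) : ℝ) : ℂ))).re * Real.exp (η ^ 2 / 2) ≤ 2.86 * 1.001 :=
            mul_le_mul h6 h8 (Real.exp_pos _).le (by norm_num)
        _ ≤ 2.9 := by norm_num
    -- the off-diagonal value
    have hoff : KK r - 0.003 ≤ (phi Λ (w - x)).re := by
      have e1 : w - x = (d : ℂ) + I * η := by
        apply Complex.ext
        · simp [hd]
        · simp [hη]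
      have e2 : phi Λ (w - x) = kap ((Λ * d : ℝ) + I * (Λ * η : ℝ)) +
          kap ((Λ * d : ℝ) + I * (Λ * η : ℝ)) * (cexp (-((d : ℂ) + I * η) ^ 2 / 8) - 1) := by
        unfold phi
        rw [e1]
        have : (Λ : ℂ) * ((d : ℂ) + I * η) = ((Λ * d : ℝ) : ℂ) + I * ((Λ * η : ℝ) : ℂ) := by
          push_cast; ring
        rw [this]
        ring
      rw [e2, Complex.add_re]
      have h1 : KK r ≤ (kap ((Λ * d : ℝ) + I * (Λ * η : ℝ))).re := kap_lower (hΛd d hwx) hRpi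
      have h2 : ‖-((d : ℂ) + I * η) ^ 2 / 8‖ ≤ σ ^ 2 * 0.034 := by
        rw [norm_div, norm_neg, norm_pow]
        have h3 : ‖(d : ℂ) + I * η‖ ^ 2 = d ^ 2 + η ^ 2 := by
          rw [← Complex.normSq_eq_norm_sq, Complex.normSq_apply]
          simp
          ring
        rw [h3]
        have h4 := hdsq d hwx
        have h4' := sq_nonneg σ
        norm_num at hη2 ⊢
        linarith
      have h5 : ‖cexp (-((d : ℂ) + I * η) ^ 2 / 8) - 1‖ ≤ 2 * ‖-((d : ℂ) + I * η) ^ 2 / 8‖ := by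
        apply Complex.norm_exp_sub_one_le
        refine h2.trans ?_
        norm_num at hσ4 ⊢
        linarith
      have h6 : ‖kap ((Λ * d : ℝ) + I * (Λ * η : ℝ))‖ ≤ 4 := by
        refine (kap_norm _ _).trans ?_
        rw [abs_of_nonneg hΛη0]
        have h7 : Real.exp (Λ * η / 2) ^ 2 ≤ 4 ^ 2 := by
          rw [← Real.exp_nat_mul]
          have : ((2 : ℕ) : ℝ) * (Λ * η / 2) = Λ * η := by push_cast; ring
          rw [this]
          refine (Real.exp_le_exp.mpr hΛη1).trans (exp_num.trans (by norm_num))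
        exact le_of_sq_le_sq h7 (by norm_num)
      have h8 : ‖kap ((Λ * d : ℝ) + I * (Λ * η : ℝ)) * (cexp (-((d : ℂ) + I * η) ^ 2 / 8) - 1)‖
          ≤ 4 * (2 * (σ ^ 2 * 0.034)) := by
        rw [norm_mul]
        apply mul_le_mul h6 (h5.trans _) (norm_nonneg _) (by norm_num)
        linarith
      have h9 := Complex.abs_re_le_norm
        (kap ((Λ * d : ℝ) + I * (Λ * η : ℝ)) * (cexp (-((d : ℂ) + I * η) ^ 2 / 8) - 1))
      have h10 := (abs_le.mp (h9.trans h8)).1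
      have h11 : 4 * (2 * (σ ^ 2 * 0.034)) ≤ 0.003 := by
        norm_num at hσ4 ⊢
        linarith
      linarith
    have hK0 : 0 ≤ KK r - 0.003 := by norm_num at hK1 ⊢; linarith
    have hsq : (KK r - 0.003) ^ 2 ≤ (phi Λ (w - x)).re ^ 2 := pow_le_pow_left₀ hK0 hoff 2
    have hfin : KK r ^ 2 * (2.9 + 1) ≤ 4 * (KK r - 0.003) ^ 2 := by
      norm_num at hK1 ⊢
      nlinarith
    calc (1 - e1) * KK r ^ 2 * ((phi Λ (w - conj w)).re + 1)
        ≤ (1 - e1) * KK r ^ 2 * (2.9 + 1) := by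
          apply mul_le_mul_of_nonneg_left (by linarith)
          exact mul_nonneg (by linarith) (sq_nonneg _)
      _ ≤ 1 * KK r ^ 2 * (2.9 + 1) := by
          apply mul_le_mul_of_nonneg_right _ (by norm_num)
          exact mul_le_mul_of_nonneg_right (by linarith) (sq_nonneg _)
      _ ≤ 4 * (KK r - 0.003) ^ 2 := by linarith
      _ ≤ 4 * (phi Λ (w - x)).re ^ 2 := by linarith

end H344
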