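import Pool.Agent.H344R2.Core

open Complex Filter Topology Set MeasureTheory
open scoped BigOperators ComplexConjugate

namespace H344

open H370

/-- the value of the Montgomery-Taylor kernel at distance `r` (in units of the mean spacing) -/
noncomputable def KK (r : ℝ) : ℝ := (kap ((2 * Real.pi * r : ℝ) : ℂ)).re

lemma cosh_scale (v s : ℝ) (hs : |s| ≤ 1) : Real.cosh (v * s) ≤ 1 + s ^ 2 * (Real.cosh v - 1) := by
  have h1 := Real.hasSum_cosh (v * s)
  have h2 := (Real.hasSum_cosh v).mul_left (s ^ 2)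
  have h3 := h2.add (hasSum_ite_eq 0 (1 - s ^ 2))
  have hs2 : s ^ 2 ≤ 1 := by rw [← sq_abs]; nlinarith [abs_nonneg s]
  have h4 := hasSum_le (fun n => ?_) h1 h3
  · linarith
  · by_cases hn : n = 0
    · subst hn; simp
    · rw [if_neg hn, add_zero, mul_pow, mul_comm (v ^ (2 * n)), mul_div_assoc]
      apply mul_le_mul_of_nonneg_right
      · rw [pow_mul]
        calc (s ^ 2) ^ n ≤ (s ^ 2) ^ 1 :=
              pow_le_pow_of_le_one (sq_nonneg s) hs2 (by omega)
          _ = s ^ 2 := pow_one _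
      · have : 0 ≤ v ^ (2 * n) := by rw [pow_mul]; positivity
        positivity

lemma g0_even (t : ℝ) : g0 (-t) = g0 t := by
  unfold g0
  rw [mul_neg, Real.cos_neg]

lemma int_g0 : ∫ t in (-1 / 2 : ℝ)..(1 / 2), g0 t = 1 := by
  have h := GramAux.kap_re 0
  have h0 := kap_zero
  have e : ((0 : ℝ) : ℂ) = 0 := by simp
  rw [e, h0, Complex.one_re] at h
  refine Eq.trans ?_ h.symm
  apply intervalIntegral.integral_congr
  intro t _
  simp only
  rw [zero_mul, Real.cos_zero, mul_one]

/-- second moment of the window -/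
lemma int_g0_sq : ∫ t in (-1 / 2 : ℝ)..(1 / 2), g0 t * t ^ 2 = cMTinv - 5 / 4 := by
  have hs : Real.sqrt 2 * Real.sqrt 2 = 2 := Real.mul_self_sqrt (by norm_num)
  set s := Real.sqrt 2 with hsdef
  have hs0 : 0 < s := by rw [hsdef]; positivity
  have hden := GramAux.den_pos
  have hsin := GramAux.sin_half_pos
  have hd : ∀ t : ℝ, HasDerivAt (fun t => t ^ 2 * Real.sin (s * t) * s / 2 +
      t * Real.cos (s * t) - Real.sin (s * t) * s / 2)
      (Real.cos (s * t) * t ^ 2) t := by
    intro t
    have h1 : HasDerivAt (fun t : ℝ => s * t) s t := by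
      simpa using (hasDerivAt_id t).const_mul s
    have h2 : HasDerivAt (fun t : ℝ => t ^ 2) (2 * t) t := by
      simpa using hasDerivAt_pow 2 t
    have h3 := ((((h2.mul h1.sin).mul_const s).div_const 2).add ((hasDerivAt_id t).mul h1.cos)).sub
      ((h1.sin.mul_const s).div_const 2)
    refine h3.congr_deriv ?_
    simp only [id]
    linear_combination (t ^ 2 * Real.cos (s * t) / 2 - Real.cos (s * t) / 2) * hs
  have hint := intervalIntegral.integral_eq_sub_of_hasDerivAt
    (a := (-1 / 2 : ℝ)) (b := 1 / 2) (fun t _ => hd t)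
    (by apply Continuous.intervalIntegrable; fun_prop)
  have e1 : s * (1 / 2) = 1 / s := GramAux.half_eq
  have e2 : s * (-1 / 2) = -(1 / s) := by rw [← e1]; ring
  rw [e1, e2, Real.sin_neg, Real.cos_neg] at hint
  have e3 : ∫ t in (-1 / 2 : ℝ)..(1 / 2), g0 t * t ^ 2 =
      (∫ t in (-1 / 2 : ℝ)..(1 / 2), Real.cos (s * t) * t ^ 2) / (s * Real.sin (1 / s)) := by
    rw [← intervalIntegral.integral_div]
    apply intervalIntegral.integral_congr
    intro t _
    simp only [g0]
    ring
  rw [e3, hint]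
  unfold cMTinv
  rw [Real.cot_eq_cos_div_sin, div_eq_iff hden.ne']
  rw [← hsdef]
  have hsn : Real.sin (1 / s) ≠ 0 := hsin.ne'
  field_simp
  ring

lemma kap_re_gen (u v : ℝ) : (kap ((u : ℂ) + I * v)).re =
    ∫ t in (-1 / 2 : ℝ)..(1 / 2), g0 t * (Real.exp (-v * t) * Real.cos (u * t)) := by
  unfold kap
  have h := ContinuousLinearMap.intervalIntegral_comp_comm (μ := volume) Complex.reCLM
    (f := fun t : ℝ => (g0 t : ℂ) * cexp (I * ((u : ℂ) + I * v) * t)) (a := (-1 / 2 : ℝ)) (b := 1 / 2)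
    (by
      apply Continuous.intervalIntegrable
      have := GramAux.g0_cont
      fun_prop)
  simp only [Complex.reCLM_apply] at h
  rw [← h]
  apply intervalIntegral.integral_congr
  intro t _
  simp only
  rw [Complex.re_ofReal_mul]
  congr 1
  rw [Complex.exp_re]
  have h1 : (I * ((u : ℂ) + I * v) * t).re = -v * t := by simp
  have h2 : (I * ((u : ℂ) + I * v) * t).im = u * t := by simp
  rw [h1, h2]

lemma kap_re_cosh (u v : ℝ) : (kap ((u : ℂ) + I * v)).re =
    ∫ t in (-1 / 2 : ℝ)..(1 / 2), g0 t * (Real.cosh (v * t) * Real.cos (u * t)) := by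
  have hc := GramAux.g0_cont
  have h1 := kap_re_gen u v
  have h2 : (kap ((u : ℂ) + I * v)).re =
    ∫ t in (-1 / 2 : ℝ)..(1 / 2), g0 t * (Real.exp (v * t) * Real.cos (u * t)) := by
    rw [h1]
    have h := intervalIntegral.integral_comp_neg (a := (-1 / 2 : ℝ)) (b := 1 / 2)
      (fun t : ℝ => g0 t * (Real.exp (v * t) * Real.cos (u * t)))
    have e1 : (-(1 / 2) : ℝ) = -1 / 2 := by norm_num
    have e2 : (-(-1 / 2) : ℝ) = 1 / 2 := by norm_num
    rw [e1, e2] at h
    rw [← h]
    apply intervalIntegral.integral_congr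
    intro t _
    simp only
    rw [g0_even, mul_neg u, Real.cos_neg]
    ring_nf
  have h3 : (∫ t in (-1 / 2 : ℝ)..(1 / 2), g0 t * (Real.exp (-v * t) * Real.cos (u * t))) +
      (∫ t in (-1 / 2 : ℝ)..(1 / 2), g0 t * (Real.exp (v * t) * Real.cos (u * t))) =
      2 * ∫ t in (-1 / 2 : ℝ)..(1 / 2), g0 t * (Real.cosh (v * t) * Real.cos (u * t)) := by
    rw [← intervalIntegral.integral_add, ← intervalIntegral.integral_const_mul]
    · apply intervalIntegral.integral_congr
      intro t _
      simp only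
      rw [Real.cosh_eq, ← neg_mul]
      ring
    · apply Continuous.intervalIntegrable; fun_prop
    · apply Continuous.intervalIntegrable; fun_prop
  rw [← h1, ← h2] at h3
  linarith

/-- lower bound for the real part of the kernel in a box -/
lemma kap_lower {R u v : ℝ} (hu : |u| ≤ R) (hR : R ≤ Real.pi) :
    (kap (R : ℂ)).re ≤ (kap ((u : ℂ) + I * v)).re := by
  rw [GramAux.kap_re, kap_re_cosh]
  have hc := GramAux.g0_cont
  apply intervalIntegral.integral_mono_on (by norm_num)
  · apply Continuous.intervalIntegrable; fun_prop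
  · apply Continuous.intervalIntegrable; fun_prop
  intro t ht
  have hg := GramAux.g0_nonneg ht.1 ht.2
  apply mul_le_mul_of_nonneg_left _ hg
  have hR0 : 0 ≤ R := (abs_nonneg u).trans hu
  have hat : |t| ≤ 1 / 2 := by
    rw [abs_le]; constructor <;> linarith [ht.1, ht.2]
  have h1 : Real.cos (R * t) ≤ Real.cos (u * t) := by
    rw [← Real.cos_abs (R * t), ← Real.cos_abs (u * t)]
    apply Real.cos_le_cos_of_nonneg_of_le_pi (abs_nonneg _)
    · rw [abs_mul, abs_of_nonneg hR0]
      nlinarith [abs_nonneg t, Real.pi_pos]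
    · rw [abs_mul, abs_mul, abs_of_nonneg hR0]
      exact mul_le_mul_of_nonneg_right hu (abs_nonneg _)
  have h2 : 0 ≤ Real.cos (u * t) := by
    apply Real.cos_nonneg_of_mem_Icc
    have h3 : |u * t| ≤ Real.pi / 2 := by
      rw [abs_mul]
      nlinarith [abs_nonneg t, abs_nonneg u, Real.pi_pos]
    rw [abs_le] at h3
    exact ⟨by linarith [h3.1], h3.2⟩
  have h3 : 1 ≤ Real.cosh (v * t) := Real.one_le_cosh _
  nlinarith

lemma kap_norm (u v : ℝ) : ‖kap ((u : ℂ) + I * v)‖ ≤ Real.exp (|v| / 2) := by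
  unfold kap
  have hc := GramAux.g0_cont
  calc ‖∫ x in (-1 / 2 : ℝ)..(1 / 2), (g0 x : ℂ) * cexp (I * ((u : ℂ) + I * v) * x)‖
      ≤ ∫ x in (-1 / 2 : ℝ)..(1 / 2), g0 x * Real.exp (|v| / 2) := by
        apply intervalIntegral.norm_integral_le_of_norm_le (by norm_num)
        · refine Filter.Eventually.of_forall fun x hx => ?_
          have hg := GramAux.g0_nonneg hx.1.le hx.2
          rw [norm_mul, Complex.norm_real, Real.norm_of_nonneg hg, Complex.norm_exp]
          apply mul_le_mul_of_nonneg_left _ hg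
          apply Real.exp_le_exp.mpr
          have h1 : (I * ((u : ℂ) + I * v) * x).re = -v * x := by simp
          rw [h1]
          have hax : |x| ≤ 1 / 2 := by
            rw [abs_le]; constructor <;> linarith [hx.1, hx.2]
          calc -v * x ≤ |-v * x| := le_abs_self _
            _ = |v| * |x| := by rw [abs_mul, abs_neg]
            _ ≤ |v| * (1 / 2) := mul_le_mul_of_nonneg_left hax (abs_nonneg _)
            _ = |v| / 2 := by ring
        · apply Continuous.intervalIntegrable; fun_prop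
    _ = Real.exp (|v| / 2) := by
        rw [intervalIntegral.integral_mul_const, int_g0, one_mul]

lemma kap_imag (v : ℝ) : (kap (I * v : ℂ)).re ≤ 1 + 4 * (cMTinv - 5 / 4) * (Real.cosh (v / 2) - 1) := by
  have h := kap_re_cosh 0 v
  simp only [Complex.ofReal_zero, zero_add, zero_mul, Real.cos_zero, mul_one] at h
  rw [h]
  have hc := GramAux.g0_cont
  calc ∫ t in (-1 / 2 : ℝ)..(1 / 2), g0 t * Real.cosh (v * t)
      ≤ ∫ t in (-1 / 2 : ℝ)..(1 / 2), (g0 t + g0 t * t ^ 2 * (4 * (Real.cosh (v / 2) - 1))) := by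
        apply intervalIntegral.integral_mono_on (by norm_num)
        · apply Continuous.intervalIntegrable; fun_prop
        · apply Continuous.intervalIntegrable; fun_prop
        intro t ht
        have hg := GramAux.g0_nonneg ht.1 ht.2
        have h1 := cosh_scale (v / 2) (2 * t) (by
          rw [abs_le]; constructor <;> linarith [ht.1, ht.2])
        rw [show v / 2 * (2 * t) = v * t by ring] at h1
        have h2 := mul_le_mul_of_nonneg_left h1 hg
        calc g0 t * Real.cosh (v * t) ≤ g0 t * (1 + (2 * t) ^ 2 * (Real.cosh (v / 2) - 1)) := h2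
          _ = _ := by ring
    _ = 1 + 4 * (cMTinv - 5 / 4) * (Real.cosh (v / 2) - 1) := by
        rw [intervalIntegral.integral_add, intervalIntegral.integral_mul_const, int_g0, int_g0_sq]
        · ring
        · apply Continuous.intervalIntegrable; fun_prop
        · apply Continuous.intervalIntegrable; fun_prop

/-- numerical bound for the Montgomery-Taylor constant -/
lemma cMTinv_le : cMTinv ≤ 1.33 := by
  have hs : Real.sqrt 2 * Real.sqrt 2 = 2 := Real.mul_self_sqrt (by norm_num)
  have hsin := GramAux.sin_half_pos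
  have hcos := GramAux.cos_half_pos
  have hu0 := GramAux.half_pos
  set u : ℝ := 1 / Real.sqrt 2 with hu
  have hu2 : u ^ 2 = 1 / 2 := by
    rw [hu, div_pow, Real.sq_sqrt (by norm_num)]; norm_num
  have h1 : |u / 2| ≤ 1 := by
    rw [abs_of_pos (by positivity)]
    nlinarith
  have h2 := Real.cos_bound h1
  have h3 : |u / 2| ^ 4 = 1 / 64 := by
    rw [abs_of_pos (by positivity)]
    have : (u / 2) ^ 4 = (u ^ 2) ^ 2 / 16 := by ring
    rw [this, hu2]; norm_num
  rw [h3] at h2
  have h4 := (abs_le.mp h2).2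
  have h5 : (u / 2) ^ 2 = 1 / 8 := by
    have : (u / 2) ^ 2 = u ^ 2 / 4 := by ring
    rw [this, hu2]; norm_num
  rw [h5] at h4
  have h6 : Real.cos (u / 2) ≤ 0.938315 := by norm_num at h4 ⊢; linarith
  have h7 : 0 ≤ Real.cos (u / 2) := by
    apply Real.cos_nonneg_of_mem_Icc
    have := Real.pi_gt_three
    constructor <;> nlinarith
  have h8 : Real.cos u = 2 * Real.cos (u / 2) ^ 2 - 1 := by
    rw [← Real.cos_two_mul]; congr 1; ring
  have h9 : Real.cos u ≤ 0.76088 := by
    rw [h8]; nlinarith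
  have h10 : Real.cos u ^ 2 ≤ 0.57894 := by nlinarith
  have h11 : Real.sin u ^ 2 = 1 - Real.cos u ^ 2 := by
    have := Real.sin_sq_add_cos_sq u; linarith
  have h12 : u * Real.cos u ≤ 0.83 * Real.sin u := by
    apply le_of_sq_le_sq _ (by positivity)
    rw [mul_pow, mul_pow, hu2, h11]
    nlinarith
  unfold cMTinv
  rw [← hu, Real.cot_eq_cos_div_sin]
  have e : Real.cos u / Real.sin u / Real.sqrt 2 = u * Real.cos u / Real.sin u := by
    rw [hu]; ring
  rw [e]
  have h13 : u * Real.cos u / Real.sin u ≤ 0.83 := by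
    rw [div_le_iff₀ hsin]; exact h12
  norm_num at h13 ⊢
  linarith

lemma cMTinv_ge : 5 / 4 ≤ cMTinv := by
  have h := int_g0_sq
  have : 0 ≤ ∫ t in (-1 / 2 : ℝ)..(1 / 2), g0 t * t ^ 2 := by
    apply intervalIntegral.integral_nonneg (by norm_num)
    intro t ht
    exact mul_nonneg (GramAux.g0_nonneg ht.1 ht.2) (sq_nonneg t)
  linarith

lemma KK_lower (r : ℝ) : 1 - (2 * Real.pi * r) ^ 2 / 2 * (cMTinv - 5 / 4) ≤ KK r := by
  unfold KK
  rw [GramAux.kap_re]
  have hc := GramAux.g0_cont
  have h1 : ∫ t in (-1 / 2 : ℝ)..(1 / 2), (g0 t - g0 t * t ^ 2 * ((2 * Real.pi * r) ^ 2 / 2)) =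
      1 - (2 * Real.pi * r) ^ 2 / 2 * (cMTinv - 5 / 4) := by
    rw [intervalIntegral.integral_sub, intervalIntegral.integral_mul_const, int_g0, int_g0_sq]
    · ring
    · apply Continuous.intervalIntegrable; fun_prop
    · apply Continuous.intervalIntegrable; fun_prop
  rw [← h1]
  apply intervalIntegral.integral_mono_on (by norm_num)
  · apply Continuous.intervalIntegrable; fun_prop
  · apply Continuous.intervalIntegrable; fun_prop
  intro t ht
  have hg := GramAux.g0_nonneg ht.1 ht.2
  have h2 := Real.one_sub_sq_div_two_le_cos (x := 2 * Real.pi * r * t)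
  calc g0 t - g0 t * t ^ 2 * ((2 * Real.pi * r) ^ 2 / 2)
      = g0 t * (1 - (2 * Real.pi * r * t) ^ 2 / 2) := by ring
    _ ≤ g0 t * Real.cos (2 * Real.pi * r * t) := mul_le_mul_of_nonneg_left h2 hg

lemma KK_third {r : ℝ} (h0 : 0 ≤ r) (h1 : r ≤ 1 / 3) : 0.824 ≤ KK r := by
  refine le_trans ?_ (KK_lower r)
  have h2 := cMTinv_le
  have h3 := cMTinv_ge
  have h4 := Real.pi_lt_d4
  have h5 := Real.pi_pos
  have h6 : 2 * Real.pi * r ≤ 2.0944 := by nlinarith
  have h7 : 0 ≤ 2 * Real.pi * r := by positivity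
  have h8 : (2 * Real.pi * r) ^ 2 ≤ 2.0944 ^ 2 := pow_le_pow_left₀ h7 h6 2
  have h9 : (2 * Real.pi * r) ^ 2 / 2 * (cMTinv - 5 / 4) ≤ 2.0944 ^ 2 / 2 * 0.08 := by
    apply mul_le_mul
    · linarith
    · norm_num at h2 ⊢; linarith
    · linarith
    · norm_num
  norm_num at h9 ⊢
  linarith

lemma KK_le_one (r : ℝ) : KK r ≤ 1 := by
  unfold KK
  have h := kap_norm (2 * Real.pi * r) 0
  simp only [Complex.ofReal_zero, mul_zero, add_zero, abs_zero, zero_div, Real.exp_zero] at h
  exact (Complex.re_le_norm _).trans h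

end H344
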