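import Pool.Agent.H344R2.KBounds
import Pool.Agent.H370R2.RightZeros
import Pool.Agent.H370R2.Final

open Complex Filter Topology Set MeasureTheory
open scoped BigOperators ComplexConjugate

namespace H344

open H370

/-- simple critical zeros in `(T, 2T]` without another zero in the box `ρ × h` around them -/
def isoSet (F : ℂ → ℂ) (T ρ h : ℝ) : Set ℂ :=
  {s : ℂ | s ∈ zset F T (2 * T) ∧ s.re = 1 / 2 ∧ mult F s = 1 ∧
    ∀ s' : ℂ, F s' = 0 → 0 < s'.re → s'.re < 1 → s' ≠ s → |s'.im - s.im| ≤ ρ →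
      h < |s'.re - 1 / 2|}

noncomputable def isoN (F : ℂ → ℂ) (T ρ h : ℝ) : ℕ := (isoSet F T ρ h).ncard

lemma Ns_le_NN {F : ℂ → ℂ} (hF : GoodL F) {a b : ℝ} (h : 1 ≤ a) : Ns F a b ≤ NN F a b := by
  have := NR_split hF (b := b) h
  omega

lemma SF_mono {F : ℂ → ℂ} (hF : GoodL F) {a b a' b' : ℝ} (h : 1 ≤ a) (h' : 1 ≤ a') {x : ℝ}
    (hx : x ∈ SF F a b) (h1 : a' < x) (h2 : x ≤ b') : x ∈ SF F a' b' := by
  rw [mem_SF] at hx ⊢
  refine ⟨?_, hx.2⟩
  have h3 := (mem_Zf hF h).mp hx.1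
  rw [mem_Zf hF h']
  exact ⟨h3.1, h3.2.1, by simpa using h1, by simpa using h2, h3.2.2.2.2⟩

theorem iso_count {F : ℂ → ℂ} (hF : GoodL F) : ∃ C : ℝ, 0 < C ∧ ∀ T : ℝ, 10 ≤ T →
    ∀ U1 U2 : ℝ, T ≤ U1 → U1 ≤ T + 1 → 2 * T - 1 ≤ U2 → U2 ≤ 2 * T → ∀ ρ h : ℝ, ρ ≤ 1 →
      ((SI F U1 U2 ρ h).card : ℝ) ≤ isoN F T ρ h + C * Real.log T := by
  classical
  obtain ⟨C0, hC0, hz⟩ := zcount hF
  refine ⟨4 * C0, by positivity, fun T hT U1 U2 hU1 hU1' hU2 hU2' ρ h hρ => ?_⟩
  have hlog : 0 < Real.log T := Real.log_pos (by linarith)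
  set A := SI F U1 U2 ρ h with hA
  have hASF : A ⊆ SF F U1 U2 := Finset.filter_subset _ _
  have hU : 1 ≤ U1 := by linarith
  set A1 := A.filter (fun x => U1 + 1 < x ∧ x < U2 - 1) with hA1
  have hsub : A ⊆ A1 ∪ (SF F U1 (U1 + 2) ∪ SF F (U2 - 2) U2) := by
    intro x hx
    rw [Finset.mem_union, Finset.mem_union]
    have hxb := SF_mem hF hU (hASF hx)
    by_cases h1 : U1 + 1 < x
    · by_cases h2 : x < U2 - 1
      · exact Or.inl (Finset.mem_filter.mpr ⟨hx, h1, h2⟩)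
      · right; right
        exact SF_mono hF hU (by linarith) (hASF hx) (by linarith) hxb.2
    · right; left
      exact SF_mono hF hU hU (hASF hx) hxb.1 (by linarith)
  have hc1 : A1.card ≤ isoN F T ρ h := by
    unfold isoN
    have himg : ((A1.image (fun x : ℝ => (1 / 2 + I * x : ℂ)) : Finset ℂ) : Set ℂ) ⊆
        isoSet F T ρ h := by
      intro s hs
      rw [Finset.mem_coe, Finset.mem_image] at hs
      obtain ⟨x, hx, rfl⟩ := hs
      rw [hA1, Finset.mem_filter] at hx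
      obtain ⟨hx1, hx2, hx3⟩ := hx
      have h1 := mem_SF.mp (hASF hx1)
      have h2 := (mem_Zf hF hU).mp h1.1
      have him : (1 / 2 + I * (x : ℂ)).im = x := by simp
      refine ⟨⟨h2.1, h2.2.1, ?_, ?_, h2.2.2.2.2⟩, by simp, h1.2, ?_⟩
      · rw [him]; linarith
      · rw [him]; linarith
      · intro s' hs0 hs1 hs2 hne hd
        rw [him] at hd
        rw [hA, SI, Finset.mem_filter] at hx1
        have h3 := abs_le.mp hd
        exact hx1.2 s' ((mem_Zf hF hU).mpr ⟨hs1, hs2, by linarith [h3.1], by linarith [h3.2], hs0⟩)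
          hne hd
    have hinj : Function.Injective (fun x : ℝ => (1 / 2 + I * x : ℂ)) := by
      intro x y hxy
      have := congrArg Complex.im hxy
      simpa using this
    rw [← Finset.card_image_of_injective A1 hinj, ← Set.ncard_coe_finset]
    refine Set.ncard_le_ncard himg ?_
    exact (zset_finite hF T (2 * T) (by linarith)).subset fun s hs => hs.1
  have hc2 : ((SF F U1 (U1 + 2)).card : ℝ) ≤ 2 * C0 * Real.log T := by
    rw [← Ns_card hF hU]
    have h1 := Ns_le_NN hF (b := U1 + 2) hU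
    have h2 := hz (U1 + 1) (by linarith)
    rw [show U1 + 1 - 1 = U1 by ring, show U1 + 1 + 1 = U1 + 2 by ring] at h2
    have h3 : (Ns F U1 (U1 + 2) : ℝ) ≤ NN F U1 (U1 + 2) := by exact_mod_cast h1
    have h4 : Real.log (U1 + 1) ≤ 2 * Real.log T := by
      rw [← Real.log_rpow (by linarith)]
      apply Real.log_le_log (by linarith)
      norm_num
      nlinarith
    nlinarith
  have hc3 : ((SF F (U2 - 2) U2).card : ℝ) ≤ 2 * C0 * Real.log T := by
    have hU3 : 1 ≤ U2 - 2 := by linarith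
    rw [← Ns_card hF hU3]
    have h1 := Ns_le_NN hF (b := U2) hU3
    have h2 := hz (U2 - 1) (by linarith)
    rw [show U2 - 1 - 1 = U2 - 2 by ring, show U2 - 1 + 1 = U2 by ring] at h2
    have h3 : (Ns F (U2 - 2) U2 : ℝ) ≤ NN F (U2 - 2) U2 := by exact_mod_cast h1
    have h4 : Real.log (U2 - 1) ≤ 2 * Real.log T := by
      rw [← Real.log_rpow (by linarith)]
      apply Real.log_le_log (by linarith)
      norm_num
      nlinarith
    nlinarith
  have h5 : A.card ≤ A1.card + ((SF F U1 (U1 + 2)).card + (SF F (U2 - 2) U2).card) :=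
    (Finset.card_le_card hsub).trans ((Finset.card_union_le _ _).trans
      (Nat.add_le_add_left (Finset.card_union_le _ _) _))
  have h6 : (A.card : ℝ) ≤ (A1.card : ℝ) + ((SF F U1 (U1 + 2)).card + (SF F (U2 - 2) U2).card) := by
    exact_mod_cast h5
  have h7 : (A1.card : ℝ) ≤ isoN F T ρ h := by exact_mod_cast hc1
  linarith

/-- the analytic input at height `T`, with all error terms at most `e` -/
theorem setup {F : ℂ → ℂ} (hF : GoodL F) {κ : ℝ} (H : YHyp (1 / 2) κ) {r e : ℝ} (hr0 : 0 ≤ r)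
    (hr : r ≤ 1 / 3) (he : 0 < e) (he1 : e ≤ 1 / 1000) :
    ∃ T0 : ℝ, ∀ T : ℝ, T0 ≤ T → ∃ U1 U2 Λ : ℝ, 10 ≤ T ∧ T ≤ U1 ∧ U1 ≤ T + 1 ∧ 2 * T - 1 ≤ U2 ∧
      U2 ≤ 2 * T ∧
      (1 - e) * (T * Real.log T / (2 * Real.pi)) ≤ (NN F U1 U2 : ℝ) ∧
      (NN F T (2 * T) : ℝ) ≤ (1 + e) * (T * Real.log T / (2 * Real.pi)) ∧
      ((SI F U1 U2 (2 * Real.pi * r / Real.log T) (4 * Real.pi / 5 / Real.log T)).card : ℝ) ≤
        isoN F T (2 * Real.pi * r / Real.log T) (4 * Real.pi / 5 / Real.log T) +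
          e * (T * Real.log T / (2 * Real.pi)) ∧
      QQ F Λ U1 U2 ≤ (cMTinv + e) * (T * Real.log T / (2 * Real.pi)) ∧
      (∀ S : Finset ℝ, (∀ x ∈ S, T < x ∧ x ≤ 2 * T) →
        1 / 2 * (T * Real.log T / (2 * Real.pi)) ≤ (S.card : ℝ) →
        ∃ Y : ℝ → ℝ → ℝ,
          (∀ v : ℝ → ℂ, ∑ x ∈ S, ∑ y ∈ S, Y x y * (conj (v x) * v y).re ≤ ∑ x ∈ S, ‖v x‖ ^ 2) ∧
          κ * (T * Real.log T / (2 * Real.pi)) ≤ YT Λ S Y) ∧
      (∀ x y : ℝ, |x - y| ≤ 2 * Real.pi * r / Real.log T →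
        (1 - e) * KK r ^ 2 ≤ (phi Λ ((x : ℂ) - y)).re ^ 2) ∧
      (∀ (x : ℝ) (w : ℂ), |w.re - x| ≤ 2 * Real.pi * r / Real.log T → 0 < w.im →
        w.im ≤ 4 * Real.pi / 5 / Real.log T →
        (1 - e) * KK r ^ 2 * ((phi Λ (w - conj w)).re + 1) ≤ 4 * (phi Λ (w - x)).re ^ 2) := by
  obtain ⟨θ, hθ, T1, H⟩ := H
  set J : ℝ := ∫ α in (0 : ℝ)..1, α * Rf α with hJ
  have hJ0 : 0 ≤ J := Jint_nonneg
  have hR0 : 0 ≤ Rf 0 := Rf_nonneg 0
  have hcM : Rf 0 + 2 * J = cMTinv := Rf_const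
  set η : ℝ := e / 80 with hη
  have hη0 : 0 < η := by positivity
  set ε : ℝ := min (min (1 / 4) θ) (e / (8 * (Rf 0 + 1))) with hε
  have hε0 : 0 < ε := lt_min (lt_min (by norm_num) hθ) (by positivity)
  have hε1 : ε ≤ 1 / 4 := (min_le_left _ _).trans (min_le_left _ _)
  have hε2 : ε ≤ θ := (min_le_left _ _).trans (min_le_right _ _)
  have hε3 : ε * (8 * (Rf 0 + 1)) ≤ e := by
    have := min_le_right (min (1 / 4) θ) (e / (8 * (Rf 0 + 1)))
    rw [← hε, le_div_iff₀ (by positivity)] at this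
    exact this
  have hε4 : 2 * ε * Rf 0 ≤ e / 4 := by nlinarith
  obtain ⟨T2, hT2, hPC⟩ := pair_corr hF ε η hε0 (by linarith) hη0
  obtain ⟨C, hC, hends⟩ := NN_ends hF
  obtain ⟨C', hC', hiso⟩ := iso_count hF
  obtain ⟨T3, hT3, hKB⟩ := kernel_bounds hr0 hr he (by linarith)
  refine ⟨max (max (max T1 T2) T3) (max (Real.exp 10) (2 * Real.pi * (C + C') * 32 / e)),
    fun T hT => ?_⟩
  have hTT1 : T1 ≤ T := (((le_max_left _ _).trans (le_max_left _ _)).trans (le_max_left _ _)).trans hT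
  have hTT2 : T2 ≤ T := (((le_max_right _ _).trans (le_max_left _ _)).trans (le_max_left _ _)).trans hT
  have hTT3 : T3 ≤ T := ((le_max_right _ _).trans (le_max_left _ _)).trans hT
  have hTe : Real.exp 10 ≤ T := ((le_max_left _ _).trans (le_max_right _ _)).trans hT
  have hTC : 2 * Real.pi * (C + C') * 32 / e ≤ T :=
    ((le_max_right _ _).trans (le_max_right _ _)).trans hT
  have hT10 : 10 ≤ T := by have := Real.add_one_le_exp (10 : ℝ); linarith
  obtain ⟨U1, U2, hU1, hU1', hU2, hU2', hNN, hQQ⟩ := hPC T hTT2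
  have hL10 : 10 ≤ Real.log T := (Real.le_log_iff_exp_le (by linarith)).mpr hTe
  have hL : 0 < Real.log T := by linarith
  set M : ℝ := T * Real.log T / (2 * Real.pi) with hM
  have hpi := Real.pi_pos
  have hM0 : 0 < M := by positivity
  have hTL : T * Real.log T = 2 * Real.pi * M := by rw [hM]; field_simp
  rw [hTL] at hNN
  have hpi2 : Real.pi < 3.15 := Real.pi_lt_d2
  have hηM : η * (2 * Real.pi * M) ≤ (7 * e / 80) * M := by
    have : 2 * Real.pi ≤ 7 := by linarith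
    calc η * (2 * Real.pi * M) = (η * M) * (2 * Real.pi) := by ring
      _ ≤ (η * M) * 7 := by
        apply mul_le_mul_of_nonneg_left this (by positivity)
      _ = (7 * e / 80) * M := by rw [hη]; ring
  obtain ⟨hNNl, hNNu⟩ := abs_le.mp hNN
  have h1e : 1 / (1 - ε) ≤ 1 + 2 * ε := by
    rw [div_le_iff₀ (by linarith)]
    nlinarith
  have hQ2 : QQ F ((1 - ε) * Real.log T) U1 U2 ≤ M * (cMTinv + 2 * ε * Rf 0 + η) := by
    refine hQQ.trans ?_
    apply mul_le_mul_of_nonneg_left _ hM0.le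
    have : Rf 0 / (1 - ε) ≤ (1 + 2 * ε) * Rf 0 := by
      rw [div_eq_mul_one_div, mul_comm]
      exact mul_le_mul_of_nonneg_right h1e hR0
    have h2 : 2 * (1 - ε) * J ≤ 2 * J := by nlinarith
    rw [← hcM]
    linarith
  have hCL : (C + C') * Real.log T ≤ e / 32 * M := by
    rw [hM]
    rw [div_le_iff₀ he] at hTC
    have : e / 32 * (T * Real.log T / (2 * Real.pi)) =
      (T * e) * (Real.log T / (64 * Real.pi)) := by ring
    rw [this]
    calc (C + C') * Real.log T = (2 * Real.pi * (C + C') * 32) * (Real.log T / (64 * Real.pi)) := by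
          field_simp; ring
      _ ≤ (T * e) * (Real.log T / (64 * Real.pi)) :=
        mul_le_mul_of_nonneg_right hTC (by positivity)
  have hCl1 : 0 ≤ C * Real.log T := by positivity
  have hCl2 : 0 ≤ C' * Real.log T := by positivity
  have hend := hends T hT10 U1 U2 hU1 hU1' hU2 hU2'
  have hρ1 : 2 * Real.pi * r / Real.log T ≤ 1 := by
    rw [div_le_one hL]
    have h1 : 2 * Real.pi * r ≤ 7 * (1 / 3) :=
      mul_le_mul (by linarith only [hpi2]) hr hr0 (by norm_num)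
    linarith only [h1, hL10]
  have hi := hiso T hT10 U1 U2 hU1 hU1' hU2 hU2' (2 * Real.pi * r / Real.log T)
    (4 * Real.pi / 5 / Real.log T) hρ1
  have hΛ0 : 0 ≤ (1 - ε) * Real.log T := mul_nonneg (by linarith only [hε1]) hL.le
  have hΛ1 : (1 - ε) * Real.log T ≤ Real.log T := by
    have := mul_nonneg hε0.le hL.le
    linarith only [this]
  obtain ⟨hk1, hk2⟩ := hKB T hTT3 ((1 - ε) * Real.log T) hΛ0 hΛ1
  refine ⟨U1, U2, (1 - ε) * Real.log T, hT10, hU1, hU1', hU2, hU2', ?_, ?_, ?_, ?_, ?_, hk1, hk2⟩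
  · have : e * M ≥ (7 * e / 80) * M := mul_le_mul_of_nonneg_right (by linarith only [he]) hM0.le
    linarith only [this, hNNl, hηM]
  · have : 0 ≤ e * M := by positivity
    linarith only [this, hNNu, hηM, hend, hCL, hCl2]
  · have : 0 ≤ e * M := by positivity
    linarith only [this, hi, hCL, hCl1]
  · have h1 : (cMTinv + 2 * ε * Rf 0 + η) ≤ cMTinv + e := by
      rw [hη]; linarith only [hε4, he]
    calc QQ F ((1 - ε) * Real.log T) U1 U2 ≤ M * (cMTinv + 2 * ε * Rf 0 + η) := hQ2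
      _ ≤ M * (cMTinv + e) := mul_le_mul_of_nonneg_left h1 hM0.le
      _ = _ := by ring
  · intro S hS1 hS2
    exact H T hTT1 ((1 - ε) * Real.log T)
      (mul_le_mul_of_nonneg_right (by linarith only [hε2]) hL.le) hΛ1 S hS1 hS2

theorem iso_main {F : ℂ → ℂ} (hF : GoodL F) {κ κ' : ℝ} (hκ0 : 0 < κ') (hκ1 : κ' ≤ 1 / 100)
    (hκ2 : 2 * κ' ≤ κ) (H : YHyp (1 / 2) κ) {r : ℝ} (hr0 : 0 ≤ r) (hr : r ≤ 1 / 3) :
    ∃ T0 : ℝ, ∀ T : ℝ, T0 ≤ T →
      (1 - (cMTinv - 1 - κ') / KK r ^ 2) * (NN F T (2 * T) : ℝ) ≤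
        isoN F T (2 * Real.pi * r / Real.log T) (4 * Real.pi / 5 / Real.log T) := by
  classical
  set e : ℝ := κ' / 64 with he
  have he0 : 0 < e := by positivity
  have he1 : e ≤ 1 / 6400 := by rw [he]; linarith
  obtain ⟨T0, hT0⟩ := setup hF H hr0 hr he0 (by linarith)
  refine ⟨T0, fun T hT => ?_⟩
  obtain ⟨U1, U2, Λ, hT10, hU1, hU1', hU2, hU2', hN1, hN2, hI, hQ, hY, hq1, hq2⟩ := hT0 T hT
  set M : ℝ := T * Real.log T / (2 * Real.pi) with hM
  have hL : 0 < Real.log T := Real.log_pos (by linarith)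
  have hpi := Real.pi_pos
  have hM0 : 0 < M := by positivity
  set ρ := 2 * Real.pi * r / Real.log T with hρ
  set h := 4 * Real.pi / 5 / Real.log T with hh
  set S := SI F U1 U2 ρ h with hS
  set K := KK r with hK
  have hK1 : 0.824 ≤ K := KK_third hr0 hr
  have hK2 : K ≤ 1 := KK_le_one r
  have hKsq1 : 0.678 ≤ K ^ 2 := by
    have : (0.824 : ℝ) ^ 2 ≤ K ^ 2 := pow_le_pow_left₀ (by norm_num) hK1 2
    norm_num at this ⊢
    linarith
  have hKsq2 : K ^ 2 ≤ 1 := by nlinarith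
  have hc1 := cMTinv_le
  have hc2 := cMTinv_ge
  set q : ℝ := (1 - e) * K ^ 2 with hq
  have hq0 : 0.67 ≤ q := by rw [hq]; norm_num at hKsq1 ⊢; nlinarith
  have hqle : q ≤ 1 := by rw [hq]; nlinarith
  have hU : 1 ≤ U1 := by linarith
  have hρ0 : 0 ≤ ρ := by rw [hρ]; positivity
  have hh0 : 0 ≤ h := by rw [hh]; positivity
  have hNsNN : (Ns F U1 U2 : ℝ) ≤ NN F U1 U2 := by exact_mod_cast Ns_le_NN hF hU
  have hq00 : 0 ≤ q := by linarith only [hq0]
  have core := core_ineq (U2 := U2) hF hU Λ ρ h q hρ0 hh0 hq00 hq1 hq2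
  -- from core to a lower bound for the number of isolated zeros
  have step : ∀ Y0 : ℝ → ℝ → ℝ, (∀ v : ℝ → ℂ, ∑ x ∈ S, ∑ y ∈ S,
      Y0 x y * (conj (v x) * v y).re ≤ ∑ x ∈ S, ‖v x‖ ^ 2) →
      (1 + q) * ((1 - e) * M) - (cMTinv + e) * M + YT Λ S Y0 ≤ q * (S.card : ℝ) := by
    intro Y0 hY0
    have h1 := core Y0 hY0
    have h2 : (1 - q) * (Ns F U1 U2 : ℝ) ≤ (1 - q) * (NN F U1 U2 : ℝ) :=
      mul_le_mul_of_nonneg_left hNsNN (by linarith)
    have h3 : (1 + q) * ((1 - e) * M) ≤ (1 + q) * (NN F U1 U2 : ℝ) :=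
      mul_le_mul_of_nonneg_left hN1 (by linarith)
    linarith
  have s1 := step (fun _ _ => 0) (by
    intro v
    simp only [zero_mul, Finset.sum_const_zero]
    exact Finset.sum_nonneg fun x _ => by positivity)
  rw [YT_zero] at s1
  have hhalf : 1 / 2 * M ≤ (S.card : ℝ) := by
    have h1 : q * (1 / 2 * M) ≤ (1 + q) * ((1 - e) * M) - (cMTinv + e) * M := by
      have h2 : q / 2 ≤ (1 + q) * (1 - e) - (cMTinv + e) := by
        norm_num at hc1 hq0 ⊢
        nlinarith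
      calc q * (1 / 2 * M) = (q / 2) * M := by ring
        _ ≤ ((1 + q) * (1 - e) - (cMTinv + e)) * M := mul_le_mul_of_nonneg_right h2 hM0.le
        _ = _ := by ring
    have h3 : q * (1 / 2 * M) ≤ q * (S.card : ℝ) := by linarith
    exact le_of_mul_le_mul_left h3 (by linarith)
  obtain ⟨Y, hYq, hYT⟩ := hY S (by
    intro x hx
    have h1 : x ∈ SF F U1 U2 := Finset.filter_subset _ _ hx
    have h2 := SF_mem hF hU h1
    exact ⟨by linarith [h2.1], by linarith [h2.2]⟩) hhalf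
  have s2 := step Y hYq
  set A : ℝ := 1 - (cMTinv - 1 - κ') / K ^ 2 with hA
  have hK20 : 0 < K ^ 2 := by positivity
  have hAK : A * K ^ 2 = K ^ 2 - (cMTinv - 1 - κ') := by
    rw [hA]; field_simp
  have hA1 : A ≤ 1 := by
    rw [hA]
    have : 0 ≤ (cMTinv - 1 - κ') / K ^ 2 := div_nonneg (by linarith) hK20.le
    linarith
  have hA0 : 0 ≤ A := by
    have h1 : 0 ≤ A * K ^ 2 := by
      rw [hAK]; norm_num at hc1 hKsq1 ⊢; linarith
    exact nonneg_of_mul_nonneg_left h1 hK20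
  have key : (A + κ' / 4) * M ≤ (S.card : ℝ) := by
    have h1 : q * (A + κ' / 4) ≤ (1 + q) * (1 - e) - (cMTinv + e) + κ := by
      have h2 : q * A = (1 - e) * (K ^ 2 - (cMTinv - 1 - κ')) := by
        rw [hq, ← hAK]; ring
      have h3 : q * (κ' / 4) ≤ κ' / 4 := by nlinarith
      rw [mul_add, h2]
      have h4 : (1 + q) * (1 - e) - (cMTinv + e) + κ ≥
          (1 + q) * (1 - e) - (cMTinv + e) + 2 * κ' := by linarith
      refine le_trans ?_ h4
      have h5 : (1 + q) * (1 - e) ≥ 1 + q - 2 * e := by nlinarith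
      have h6 : q = K ^ 2 - e * K ^ 2 := by rw [hq]; ring
      have h7 : (1 - e) * (K ^ 2 - (cMTinv - 1 - κ')) = K ^ 2 - e * K ^ 2 - (cMTinv - 1 - κ') +
          e * (cMTinv - 1 - κ') := by ring
      have h8 : e * (cMTinv - 1 - κ') ≤ e := by
        have : cMTinv - 1 - κ' ≤ 1 := by norm_num at hc1 ⊢; linarith
        nlinarith
      rw [h7]
      linarith
    have h2 : q * ((A + κ' / 4) * M) ≤ q * (S.card : ℝ) := by
      calc q * ((A + κ' / 4) * M) = (q * (A + κ' / 4)) * M := by ring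
        _ ≤ ((1 + q) * (1 - e) - (cMTinv + e) + κ) * M := mul_le_mul_of_nonneg_right h1 hM0.le
        _ = (1 + q) * ((1 - e) * M) - (cMTinv + e) * M + κ * M := by ring
        _ ≤ (1 + q) * ((1 - e) * M) - (cMTinv + e) * M + YT Λ S Y := by linarith
        _ ≤ q * (S.card : ℝ) := s2
    exact le_of_mul_le_mul_left h2 (by linarith)
  calc A * (NN F T (2 * T) : ℝ) ≤ A * ((1 + e) * M) := mul_le_mul_of_nonneg_left hN2 hA0
    _ ≤ (A + e) * M := by
      have : A * e ≤ e := by nlinarith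
      calc A * ((1 + e) * M) = (A + A * e) * M := by ring
        _ ≤ (A + e) * M := mul_le_mul_of_nonneg_right (by linarith) hM0.le
    _ ≤ (A + κ' / 4) * M - e * M := by
      have : 2 * e * M ≤ κ' / 4 * M := mul_le_mul_of_nonneg_right (by rw [he]; linarith) hM0.le
      linarith
    _ ≤ isoN F T ρ h := by linarith

end H344
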