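import Pool.Agent.H344R2.Main

open Complex Filter Topology Set MeasureTheory
open scoped BigOperators ComplexConjugate

namespace H344

open H370

lemma left_card {F : ℂ → ℂ} (hF : GoodL F) {U1 U2 : ℝ} (hU : 1 ≤ U1) :
    ((Zf F U1 U2).filter (fun s => s.re < 1 / 2)).card ≤ NR F U1 U2 := by
  classical
  have h2 : NR F U1 U2 = ∑ s ∈ Zf F U1 U2, (if s.re < 1 / 2 then mult F s else 0) := by
    rw [NR_eq hF hU, ← sum_refl hF hU (fun s => if 1 / 2 < s.re then mult F s else 0)]
    refine Finset.sum_congr rfl fun s hs => ?_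
    have hs' := (mem_Zf hF hU).mp hs
    have e1 : (1 - conj s).re = 1 - s.re := by simp
    rw [e1, mult_refl hF hs'.1 hs'.2.1 (by linarith [hs'.2.2.1])]
    by_cases hh : s.re < 1 / 2
    · rw [if_pos hh, if_pos (by linarith)]
    · rw [if_neg hh, if_neg (by linarith)]
  rw [h2, Finset.card_filter]
  refine Finset.sum_le_sum fun s hs => ?_
  have hs' := (mem_Zf hF hU).mp hs
  have := Loc.mult_pos' hF (s := s) (by linarith [hs'.2.2.1]) hs'.2.2.2.2
  split_ifs
  · exact this
  · exact le_rfl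

/-- isolated zeros that lose isolation because of a far zero with a nearby ordinate -/
theorem bad_count {F : ℂ → ℂ} (hF : GoodL F) {U1 U2 : ℝ} (hU : 1 ≤ U1) {ρ ρ' h : ℝ} (hh : 0 ≤ h)
    (h1 : ρ' ≤ ρ) :
    ((SI F U1 U2 ρ h).card : ℝ) ≤ (SI F U1 U2 ρ' (1 / 2)).card + 2 * NR F U1 U2 ∧
    (2 * ρ' ≤ ρ → ((SI F U1 U2 ρ h).card : ℝ) ≤ (SI F U1 U2 ρ' (1 / 2)).card + NR F U1 U2) := by
  classical
  set A := SI F U1 U2 ρ h with hA
  set A' := SI F U1 U2 ρ' (1 / 2) with hA'
  set t := (Zf F U1 U2).filter (fun s => s.re < 1 / 2) with ht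
  have hAm : ∀ x ∈ A, x ∈ SF F U1 U2 ∧ ∀ s' ∈ Zf F U1 U2, s' ≠ (1 / 2 + I * x : ℂ) →
      |s'.im - x| ≤ ρ → h < |s'.re - 1 / 2| := fun x hx => Finset.mem_filter.mp hx
  have hsep : ∀ x ∈ A, ∀ y ∈ A, |x - y| ≤ ρ → x = y := by
    intro x hx y hy hxy
    by_contra hne
    have h2 := (hAm x hx).2 (1 / 2 + I * y) (mem_SF.mp (hAm y hy).1).1 (by
      intro h3
      apply hne
      have := congrArg Complex.im h3
      simp at this
      exact this.symm) (by
      rw [abs_sub_comm] at hxy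
      simpa using hxy)
    simp at h2
    linarith
  have hex : ∀ x ∈ A \ A', ∃ s ∈ t, |s.im - x| ≤ ρ' := by
    intro x hx
    rw [Finset.mem_sdiff] at hx
    obtain ⟨hxA, hxA'⟩ := hx
    rw [hA', SI, Finset.mem_filter, not_and] at hxA'
    have h2 := hxA' (hAm x hxA).1
    push Not at h2
    obtain ⟨s, hsW, hsx, hs1, hs2⟩ := h2
    have h3 := (hAm x hxA).2 s hsW hsx (hs1.trans h1)
    have hne : s.re ≠ 1 / 2 := by
      intro h4
      rw [h4] at h3
      simp at h3
      linarith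
    rcases lt_or_gt_of_ne hne with h4 | h4
    · exact ⟨s, Finset.mem_filter.mpr ⟨hsW, h4⟩, hs1⟩
    · refine ⟨1 - conj s, Finset.mem_filter.mpr ⟨(mem_Zf hF hU).mpr (zset_refl hF hU
        ((mem_Zf hF hU).mp hsW)), ?_⟩, ?_⟩
      · simp only [Complex.sub_re, Complex.one_re, Complex.conj_re]
        linarith
      · simpa using hs1
  set g : ℝ → ℂ := fun x => if hx : ∃ s ∈ t, |s.im - x| ≤ ρ' then hx.choose else 0 with hg
  have hgs : ∀ x ∈ A \ A', g x ∈ t ∧ |(g x).im - x| ≤ ρ' := by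
    intro x hx
    simp only [hg, dif_pos (hex x hx)]
    exact (hex x hx).choose_spec
  have hAc : A.card ≤ A'.card + (A \ A').card := by
    have h2 : A ⊆ A' ∪ (A \ A') := by
      intro x hx
      rw [Finset.mem_union, Finset.mem_sdiff]
      by_cases h3 : x ∈ A'
      · exact Or.inl h3
      · exact Or.inr ⟨hx, h3⟩
    exact (Finset.card_le_card h2).trans (Finset.card_union_le _ _)
  have hNR : t.card ≤ NR F U1 U2 := left_card hF hU
  constructor
  · have h2 : (A \ A').card ≤ 2 * t.card := by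
      apply Finset.card_le_mul_card_image_of_maps_to (f := g) (fun x hx => (hgs x hx).1)
      intro b _
      have hf : (A \ A').filter (fun x => g x = b) ⊆
          ((A \ A').filter (fun x => g x = b ∧ x ≤ b.im)) ∪
          ((A \ A').filter (fun x => g x = b ∧ b.im < x)) := by
        intro x hx
        rw [Finset.mem_union, Finset.mem_filter, Finset.mem_filter]
        rw [Finset.mem_filter] at hx
        rcases le_or_gt x b.im with h | h
        · exact Or.inl ⟨hx.1, hx.2, h⟩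
        · exact Or.inr ⟨hx.1, hx.2, h⟩
      have c1 : ((A \ A').filter (fun x => g x = b ∧ x ≤ b.im)).card ≤ 1 := by
        rw [Finset.card_le_one]
        intro x hx y hy
        rw [Finset.mem_filter] at hx hy
        have bx := (hgs x hx.1).2
        have bY := (hgs y hy.1).2
        rw [hx.2.1, abs_le] at bx
        rw [hy.2.1, abs_le] at bY
        exact hsep x (Finset.mem_sdiff.mp hx.1).1 y (Finset.mem_sdiff.mp hy.1).1 (by
          rw [abs_le]
          constructor <;> linarith [bx.1, bx.2, bY.1, bY.2, hx.2.2, hy.2.2])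
      have c2 : ((A \ A').filter (fun x => g x = b ∧ b.im < x)).card ≤ 1 := by
        rw [Finset.card_le_one]
        intro x hx y hy
        rw [Finset.mem_filter] at hx hy
        have bx := (hgs x hx.1).2
        have bY := (hgs y hy.1).2
        rw [hx.2.1, abs_le] at bx
        rw [hy.2.1, abs_le] at bY
        exact hsep x (Finset.mem_sdiff.mp hx.1).1 y (Finset.mem_sdiff.mp hy.1).1 (by
          rw [abs_le]
          constructor <;> linarith [bx.1, bx.2, bY.1, bY.2, hx.2.2, hy.2.2])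
      have c3 := Finset.card_le_card hf
      have c4 := Finset.card_union_le ((A \ A').filter (fun x => g x = b ∧ x ≤ b.im))
        ((A \ A').filter (fun x => g x = b ∧ b.im < x))
      omega
    have h3 : A.card ≤ A'.card + 2 * NR F U1 U2 := by omega
    exact_mod_cast h3
  · intro h2ρ
    have h2 : (A \ A').card ≤ 1 * t.card := by
      apply Finset.card_le_mul_card_image_of_maps_to (f := g) (fun x hx => (hgs x hx).1)
      intro b _
      rw [Finset.card_le_one]
      intro x hx y hy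
      rw [Finset.mem_filter] at hx hy
      have bx := (hgs x hx.1).2
      have bY := (hgs y hy.1).2
      rw [hx.2, abs_le] at bx
      rw [hy.2, abs_le] at bY
      exact hsep x (Finset.mem_sdiff.mp hx.1).1 y (Finset.mem_sdiff.mp hy.1).1 (by
        rw [abs_le]
        constructor <;> linarith [bx.1, bx.2, bY.1, bY.2])
    have h3 : A.card ≤ A'.card + NR F U1 U2 := by omega
    exact_mod_cast h3

theorem ord_main {F : ℂ → ℂ} (hF : GoodL F) {κ κ' : ℝ} (hκ0 : 0 < κ') (hκ1 : κ' ≤ 1 / 100)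
    (hκ2 : 2 * κ' ≤ κ) (H : YHyp (1 / 2) κ) :
    ∃ T0 : ℝ, ∀ T : ℝ, T0 ≤ T →
      (3 - 2 * cMTinv + κ') * (NN F T (2 * T) : ℝ) ≤
        isoN F T (2 * Real.pi * (1 / 3) / Real.log T) (1 / 2) ∧
      ((5 - 3 * cMTinv) / 2 + κ') * (NN F T (2 * T) : ℝ) ≤
        isoN F T (2 * Real.pi * (1 / 6) / Real.log T) (1 / 2) := by
  classical
  set e : ℝ := κ' / 64 with he
  have he0 : 0 < e := by positivity
  have he1 : e ≤ 1 / 6400 := by rw [he]; linarith
  have hr0 : (0 : ℝ) ≤ 1 / 3 := by norm_num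
  obtain ⟨T0, hT0⟩ := setup hF H hr0 le_rfl he0 (by linarith)
  obtain ⟨C', hC', hiso⟩ := iso_count hF
  refine ⟨max T0 (max (Real.exp 10) (2 * Real.pi * C' / e)), fun T hT => ?_⟩
  have hTT : T0 ≤ T := (le_max_left _ _).trans hT
  have hTe : Real.exp 10 ≤ T := ((le_max_left _ _).trans (le_max_right _ _)).trans hT
  have hTC : 2 * Real.pi * C' / e ≤ T := ((le_max_right _ _).trans (le_max_right _ _)).trans hT
  obtain ⟨U1, U2, Λ, hT10, hU1, hU1', hU2, hU2', hN1, hN2, hI, hQ, hY, hq1, hq2⟩ := hT0 T hTT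
  have hL10 : 10 ≤ Real.log T := (Real.le_log_iff_exp_le (by linarith)).mpr hTe
  set M : ℝ := T * Real.log T / (2 * Real.pi) with hM
  have hL : 0 < Real.log T := by linarith
  have hpi := Real.pi_pos
  have hpi2 := Real.pi_lt_d2
  have hM0 : 0 < M := by positivity
  have hCL : C' * Real.log T ≤ e * M := by
    rw [div_le_iff₀ he0] at hTC
    have h1 : e * M = (T * e) * (Real.log T / (2 * Real.pi)) := by rw [hM]; ring
    rw [h1]
    calc C' * Real.log T = (2 * Real.pi * C') * (Real.log T / (2 * Real.pi)) := by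
          field_simp
      _ ≤ (T * e) * (Real.log T / (2 * Real.pi)) :=
        mul_le_mul_of_nonneg_right hTC (by positivity)
  set ρ := 2 * Real.pi * (1 / 3) / Real.log T with hρ
  set ρ' := 2 * Real.pi * (1 / 6) / Real.log T with hρ'
  set h := 4 * Real.pi / 5 / Real.log T with hh
  have hρρ' : 2 * ρ' = ρ := by rw [hρ, hρ']; ring
  have hρ0 : 0 ≤ ρ := by rw [hρ]; positivity
  have hρ1 : ρ ≤ 1 := by
    rw [hρ, div_le_one hL]
    linarith
  have hh0 : 0 ≤ h := by rw [hh]; positivity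
  set S := SI F U1 U2 ρ h with hS
  set K := KK (1 / 3) with hK
  have hK1 : 0.824 ≤ K := KK_third hr0 le_rfl
  have hK2 : K ≤ 1 := KK_le_one _
  have hKsq1 : 0.678 ≤ K ^ 2 := by
    have : (0.824 : ℝ) ^ 2 ≤ K ^ 2 := pow_le_pow_left₀ (by norm_num) hK1 2
    norm_num at this ⊢
    linarith
  have hKsq2 : K ^ 2 ≤ 1 := by nlinarith
  have hc1 := cMTinv_le
  have hc2 := cMTinv_ge
  set q : ℝ := (1 - e) * K ^ 2 with hq
  have hq0 : 0.67 ≤ q := by rw [hq]; norm_num at hKsq1 ⊢; nlinarith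
  have hqle : q ≤ 1 := by rw [hq]; nlinarith
  have hU : 1 ≤ U1 := by linarith
  have hNsNN : (Ns F U1 U2 : ℝ) ≤ NN F U1 U2 := by exact_mod_cast Ns_le_NN hF hU
  have hq00 : 0 ≤ q := by linarith only [hq0]
  have core := core_ineq (U2 := U2) hF hU Λ ρ h q hρ0 hh0 hq00 hq1 hq2
  have s1 := core (fun _ _ => 0) (by
    intro v
    simp only [zero_mul, Finset.sum_const_zero]
    exact Finset.sum_nonneg fun x _ => by positivity)
  rw [YT_zero] at s1
  have hhalf : 1 / 2 * M ≤ (S.card : ℝ) := by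
    have h2 : (1 - q) * (Ns F U1 U2 : ℝ) ≤ (1 - q) * (NN F U1 U2 : ℝ) :=
      mul_le_mul_of_nonneg_left hNsNN (by linarith)
    have h3 : (1 + q) * ((1 - e) * M) ≤ (1 + q) * (NN F U1 U2 : ℝ) :=
      mul_le_mul_of_nonneg_left hN1 (by linarith)
    have h1 : q * (1 / 2 * M) ≤ (1 + q) * ((1 - e) * M) - (cMTinv + e) * M := by
      have h2 : q / 2 ≤ (1 + q) * (1 - e) - (cMTinv + e) := by
        norm_num at hc1 hq0 ⊢
        nlinarith
      calc q * (1 / 2 * M) = (q / 2) * M := by ring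
        _ ≤ ((1 + q) * (1 - e) - (cMTinv + e)) * M := mul_le_mul_of_nonneg_right h2 hM0.le
        _ = _ := by ring
    have h4 : q * (1 / 2 * M) ≤ q * (S.card : ℝ) := by linarith
    exact le_of_mul_le_mul_left h4 (by linarith)
  obtain ⟨Y, hYq, hYT⟩ := hY S (by
    intro x hx
    have h1 : x ∈ SF F U1 U2 := Finset.filter_subset _ _ hx
    have h2 := SF_mem hF hU h1
    exact ⟨by linarith [h2.1], by linarith [h2.2]⟩) hhalf
  have s2 := core Y hYq
  -- abbreviations
  set n : ℝ := (NN F U1 U2 : ℝ) with hn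
  set s : ℝ := (Ns F U1 U2 : ℝ) with hs
  set i : ℝ := (S.card : ℝ) with hi
  set Q : ℝ := QQ F Λ U1 U2 with hQdef
  set R : ℝ := (NR F U1 U2 : ℝ) with hR
  have hRs : 2 * R + s ≤ n := by
    have h1 := NR_split hF (b := U2) hU
    rw [hR, hs, hn]
    exact_mod_cast h1
  have his : i ≤ s := by
    rw [hi, hs, Ns_card hF hU]
    exact_mod_cast Finset.card_le_card (Finset.filter_subset _ _)
  have hκM : 2 * κ' * M ≤ κ * M := mul_le_mul_of_nonneg_right hκ2 hM0.le
  -- W = slack
  have hW : q * (s - i) ≤ Q - 2 * κ' * M - 2 * n + s := by linarith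
  have hsi : 0 ≤ s - i := by linarith
  obtain ⟨b1, -⟩ := bad_count hF hU (U2 := U2) (ρ := ρ) (ρ' := ρ) hh0 le_rfl
  obtain ⟨-, b2⟩ := bad_count hF hU (U2 := U2) (ρ := ρ) (ρ' := ρ') hh0 (by
    have : 0 ≤ ρ' := by linarith
    linarith)
  have b2 := b2 hρρ'.le
  have i1 := hiso T hT10 U1 U2 hU1 hU1' hU2 hU2' ρ (1 / 2) hρ1
  have i2 := hiso T hT10 U1 U2 hU1 hU1' hU2 hU2' ρ' (1 / 2) (by linarith)
  have heM : 64 * (e * M) = κ' * M := by rw [he]; ring
  have heM0 : 0 < e * M := by positivity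
  have hcM : cMTinv * M ≤ 1.33 * M := mul_le_mul_of_nonneg_right hc1 hM0.le
  have hn1 : (1 - e) * M ≤ n := hN1
  have hQ1 : Q ≤ (cMTinv + e) * M := hQ
  have hq67 : 0.67 * (s - i) ≤ q * (s - i) := mul_le_mul_of_nonneg_right hq0 hsi
  constructor
  · -- k = 2
    have h1 : 3 * n - 2 * Q + 4 * κ' * M ≤ i - 2 * R := by
      norm_num at hq67
      linarith
    have h2 : (3 - 2 * cMTinv + κ') * (NN F T (2 * T) : ℝ) ≤
        (3 - 2 * cMTinv + κ') * ((1 + e) * M) := by
      apply mul_le_mul_of_nonneg_left hN2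
      norm_num at hc1
      linarith
    have h3 : (3 - 2 * cMTinv + κ') * ((1 + e) * M) ≤ (3 - 2 * cMTinv + κ') * M + e * M := by
      have : (3 - 2 * cMTinv + κ') * (e * M) ≤ 1 * (e * M) := by
        apply mul_le_mul_of_nonneg_right _ heM0.le
        linarith
      linarith
    linarith
  · have h1 : 5 / 2 * n - 3 / 2 * Q + 3 * κ' * M ≤ i - R := by
      norm_num at hq67
      linarith
    have h2 : ((5 - 3 * cMTinv) / 2 + κ') * (NN F T (2 * T) : ℝ) ≤
        ((5 - 3 * cMTinv) / 2 + κ') * ((1 + e) * M) := by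
      apply mul_le_mul_of_nonneg_left hN2
      norm_num at hc1
      linarith
    have h3 : ((5 - 3 * cMTinv) / 2 + κ') * ((1 + e) * M) ≤
        ((5 - 3 * cMTinv) / 2 + κ') * M + e * M := by
      have : ((5 - 3 * cMTinv) / 2 + κ') * (e * M) ≤ 1 * (e * M) := by
        apply mul_le_mul_of_nonneg_right _ heM0.le
        linarith
      linarith
    linarith

end H344
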