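import Pool.Agent.H306R2.RZ.Stubs
import Pool.Agent.H306R2.RZ.Stubs5
import Pool.Agent.H306R2.RZ.Stubs6

set_option autoImplicit false

/-!
Project RZ (helper306), task LIM2 (helper344): limit of the mollified second moment, new range.
-/

namespace Pool.Agent.H344R2.RZ6_LIM2

open Finset Filter Topology MeasureTheory
open Pool.Agent.H306R2.RZ

noncomputable section

theorem wt_bd (s : ℝ) (w : ℝ → ℝ) (hw : Wt s w) (k : ℕ) : ∃ B : ℝ, Bd k w B := by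
  have hcs : HasCompactSupport w := by
    apply HasCompactSupport.intro (K := Set.Icc (-1) s) isCompact_Icc
    intro y hy
    by_contra hne
    exact hy (hw.supp y hne)
  have hcj : ∀ j : ℕ, HasCompactSupport (iteratedDeriv j w) := by
    intro j
    induction j with
    | zero => simpa [iteratedDeriv_zero] using hcs
    | succ j ih =>
      rw [iteratedDeriv_succ]
      exact ih.deriv
  have hbj : ∀ j : ℕ, ∃ B : ℝ, ∀ y, |iteratedDeriv j w y| ≤ B := by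
    intro j
    have hc : Continuous (iteratedDeriv j w) :=
      hw.smooth.continuous_iteratedDeriv j (by exact_mod_cast le_top)
    obtain ⟨B, hB⟩ := hc.bounded_above_of_compact_support (hcj j)
    exact ⟨B, fun y => by simpa [Real.norm_eq_abs] using hB y⟩
  choose B hB using hbj
  refine ⟨∑ j ∈ range (k + 1), |B j|, ?_⟩
  intro j hj y
  refine (hB j y).trans ((le_abs_self _).trans ?_)
  exact Finset.single_le_sum (f := fun j => |B j|) (fun i _ => abs_nonneg _)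
    (Finset.mem_range.2 (by omega))

theorem wt_mono {s t : ℝ} (h : s ≤ t) {w : ℝ → ℝ} (hw : Wt s w) : Wt t w :=
  ⟨hw.smooth, fun y hy => ⟨(hw.supp y hy).1, (hw.supp y hy).2.trans h⟩⟩

theorem Bd_mono {j k : ℕ} {w : ℝ → ℝ} {B : ℝ} (h : Bd k w B) (hjk : j ≤ k) : Bd j w B :=
  fun i hi y => h i (hi.trans hjk) y

theorem al_zero {s : ℝ} {w Q : ℝ → ℝ} (hw : Wt s w) {y : ℝ} (hy : s < y) (t : ℝ) :
    al w Q y t = 0 := by
  have h0 : ∀ u, s < u → w u = 0 := by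
    intro u hu
    by_contra hne
    exact absurd (hw.supp u hne).2 (not_le.mpr hu)
  have h1 : WW w y = 0 := by
    unfold WW
    rw [setIntegral_congr_fun measurableSet_Ioi
      (g := fun _ => (0 : ℝ)) (fun u hu => h0 u (hy.trans hu))]
    simp
  have h2 : deriv w y = 0 := by
    have : w =ᶠ[𝓝 y] fun _ => (0 : ℝ) := by
      filter_upwards [lt_mem_nhds hy] with u hu
      exact h0 u hu
    rw [this.deriv_eq]
    simp
  unfold al
  rw [h1, h2]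
  ring

theorem swapI {s : ℝ} (hs : s < 1) {w1 w2 Q1 Q2 : ℝ → ℝ} (h1 : Wt s w1) (h2 : Wt s w2) (t : ℝ) :
    ∫ y in Set.Ioi (0 : ℝ), al w2 Q2 (1 - y) t * al w1 Q1 y t =
      ∫ y in Set.Ioi (0 : ℝ), al w1 Q1 (1 - y) t * al w2 Q2 y t := by
  rw [setIntegral_eq_integral_of_forall_compl_eq_zero,
    setIntegral_eq_integral_of_forall_compl_eq_zero]
  · have := integral_sub_left_eq_self (fun y => al w1 Q1 (1 - y) t * al w2 Q2 y t) volume (1 : ℝ)
    rw [← this]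
    refine integral_congr_ae (Eventually.of_forall fun y => ?_)
    simp only [sub_sub_cancel]
    ring
  · intro y hy
    have hy0 : y ≤ 0 := by simpa using hy
    rw [al_zero h1 (by linarith), zero_mul]
  · intro y hy
    have hy0 : y ≤ 0 := by simpa using hy
    rw [al_zero h2 (by linarith), zero_mul]

theorem LIM2 (F : ℝ → ℝ) (hF : TF F) (q : ℕ) (hq : Even q) (hq0 : q ≠ 0) (c : ℝ) (hc : 0 < c)
    (s θ : ℝ) (hs : 1 / 2 ≤ s) (hθ : 0 < θ) (hθ1 : θ < 1 / 2) (h : s + θ < 1) (w1 w2 Q1 Q2 : ℝ → ℝ)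
    (h1 : Wt s w1) (h2 : Wt s w2) (h3 : Wt θ Q1) (h4 : Wt θ Q2) :
    Tendsto (fun L : ℝ => TT F (c * Real.exp L) q L w1 Q1 w2 Q2) atTop
      (𝓝 (1 / 2 * Ft F 0 * BB w1 Q1 w2 Q2)) := by
  have hθs : θ ≤ s := by linarith
  have h3' : Wt s Q1 := wt_mono hθs h3
  have h4' : Wt s Q2 := wt_mono hθs h4
  have hs1 : s < 1 := by linarith
  obtain ⟨C', η', L0', A, hC', hη', hE7⟩ := Stubs5.EZ 0 (le_refl 0) Stubs5.TRI0 F hF q hq hq0 c hc
    s θ hs hθ hθ1 (by linarith)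
  obtain ⟨B1, hB1⟩ := wt_bd s w1 h1 (max A 1)
  obtain ⟨B2, hB2⟩ := wt_bd s w2 h2 (max A 1)
  obtain ⟨B3, hB3⟩ := wt_bd θ Q1 h3 (max A 1)
  obtain ⟨B4, hB4⟩ := wt_bd θ Q2 h4 (max A 1)
  have hA : A ≤ max A 1 := le_max_left _ _
  have hA1 : 1 ≤ max A 1 := le_max_right _ _
  -- diagonal
  have hD := (Stubs.MT1 q hq0 s).2 w1 w2 Q1 Q2 h1 h2 h3' h4'
  -- off-diagonal
  have hO := (Stubs.MT2 F hF q hq0 c hc s hs1).2 w1 w2 Q1 Q2 h1 h2 h3' h4'
  have hO' := (Stubs.MT2 F hF q hq0 c hc s hs1).2 w2 w1 Q2 Q1 h2 h1 h4' h3'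
  have hOd := (Stubs6.MT2d F hF q hq0 c hc s hs1).2 w1 w2 Q1 Q2 h1 h2 h3' h4'
  obtain ⟨C, η, a, L0, hC, hη, ha, ha1, hS4⟩ :=
    Stubs6.S4d F hF q hq hq0 c hc s θ hs hs1 hθ hθ1
  have hexp : ∀ (K η : ℝ), 0 < η → Tendsto (fun L : ℝ => K * Real.exp (-(η * L))) atTop (𝓝 0) := by
    intro K η hη
    have : Tendsto (fun L : ℝ => Real.exp (-(η * L))) atTop (𝓝 0) := by
      apply Real.tendsto_exp_neg_atTop_nhds_zero.comp
      exact tendsto_id.const_mul_atTop hη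
    simpa using this.const_mul K
  -- non squares tend to zero
  have hN : Tendsto (fun L : ℝ => ∑' a : Fin 4 → ℕ, t4c q a * w4 L w1 w2 Q1 Q2 a *
      Dns F (c * Real.exp L) (∏ i, a i)) atTop (𝓝 0) := by
    apply squeeze_zero_norm' _ (hexp (C' * B1 * B2 * B3 * B4) η' hη')
    filter_upwards [eventually_ge_atTop L0'] with L hL
    rw [Real.norm_eq_abs]
    exact hE7 L hL w1 w2 Q1 Q2 B1 B2 B3 B4 h1 h2 h3 h4 (Bd_mono hB1 hA) (Bd_mono hB2 hA)
      (Bd_mono hB3 hA) (Bd_mono hB4 hA)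
  -- squares
  set I2 : ℝ := ∫ t in Set.Ioi (0 : ℝ), ∫ y in Set.Ioi (0 : ℝ), al w1 Q1 (1 - y) t * al w2 Q2 y t
    with hI2
  have hI2' : (∫ t in Set.Ioi (0 : ℝ), ∫ y in Set.Ioi (0 : ℝ),
      al w2 Q2 (1 - y) t * al w1 Q1 y t) = I2 := by
    rw [hI2]
    refine setIntegral_congr_fun measurableSet_Ioi fun t _ => ?_
    exact swapI hs1 h1 h2 t
  rw [hI2'] at hO'
  set SQ : ℝ → ℝ := fun L : ℝ => ∑' a : Fin 4 → ℕ, t4c q a * w4 L w1 w2 Q1 Q2 a *
      Dsq F (c * Real.exp L) (∏ i, a i) with hSQ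
  have hdiff : Tendsto (fun L : ℝ => ((SQ L : ℝ) : ℂ) -
      T2m F (c * Real.exp L) q L w1 w2 Q1 Q2 (1 / L) -
      T2m F (c * Real.exp L) q L w2 w1 Q2 Q1 (1 / L) +
      T2d F (c * Real.exp L) q L w1 w2 Q1 Q2 (1 / L)) atTop (𝓝 0) := by
    apply squeeze_zero_norm' _ (hexp (C * B1 * B2 * B3 * B4) η hη)
    filter_upwards [eventually_ge_atTop L0, eventually_ge_atTop (2 : ℝ)] with L hL hL2
    have hL0 : 0 < L := by linarith
    have hL12 : 1 / L ≤ 1 / 2 + a := by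
      have : 1 / L ≤ 1 / 2 := by
        apply one_div_le_one_div_of_le (by norm_num) hL2
      linarith
    have hS5 := Stubs.S5 F hF (c * Real.exp L) (by positivity) q hq0 L hL0 s w1 w2 Q1 Q2 h1 h2
      h3' h4' (1 / 2 + a) (1 / L) (by positivity) hL12 (by linarith)
    have hS5' := Stubs.S5 F hF (c * Real.exp L) (by positivity) q hq0 L hL0 s w2 w1 Q2 Q1 h2 h1
      h4' h3' (1 / 2 + a) (1 / L) (by positivity) hL12 (by linarith)
    have hS5d := Stubs6.S5d F hF (c * Real.exp L) (by positivity) q hq0 L hL0 s w1 w2 Q1 Q2 h1 h2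
      h3' h4' (1 / 2 + a) (1 / L) (by positivity) hL12 (by linarith)
    rw [← hS5, ← hS5', ← hS5d]
    exact hS4 L hL w1 w2 Q1 Q2 B1 B2 B3 B4 h1 h2 h3 h4 (Bd_mono hB1 hA1) (Bd_mono hB2 hA1)
      (Bd_mono hB3 hA1) (Bd_mono hB4 hA1)
  have hSQc : Tendsto (fun L : ℝ => ((SQ L : ℝ) : ℂ)) atTop
      (𝓝 ((1 / 2 * Ft F 0 * (-(1 / 4) * I2) : ℝ) : ℂ)) := by
    have h5 := ((hdiff.add hO).add hO').sub hOd
    have h6 : (0 : ℂ) + ((1 / 2 * Ft F 0 * (-(1 / 4) * I2) : ℝ) : ℂ) +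
        ((1 / 2 * Ft F 0 * (-(1 / 4) * I2) : ℝ) : ℂ) - ((1 / 2 * Ft F 0 * (-(1 / 4) * I2) : ℝ) : ℂ) =
        ((1 / 2 * Ft F 0 * (-(1 / 4) * I2) : ℝ) : ℂ) := by ring
    rw [h6] at h5
    refine h5.congr fun L => ?_
    ring
  have hSQr : Tendsto SQ atTop (𝓝 (1 / 2 * Ft F 0 * (-(1 / 4) * I2))) := by
    have := (Complex.continuous_re.tendsto _).comp hSQc
    simpa [Function.comp_def] using this
  have hsum := ((hD.const_mul (1 / 2 * Ft F 0)).add hSQr).add hN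
  have hlim : 1 / 2 * Ft F 0 * BB w1 Q1 w2 Q2 =
      1 / 2 * Ft F 0 * ((mn w1 Q1 * mn w2 Q2 + ∫ t in Set.Ioi (0 : ℝ), ∫ y in Set.Ioi (0 : ℝ),
        al w1 Q1 y t * al w2 Q2 y t) / 4) + 1 / 2 * Ft F 0 * (-(1 / 4) * I2) + 0 := by
    rw [Stubs.ID3 s hs1 w1 w2 Q1 Q2 h1 h2 h3' h4']
    ring
  rw [hlim]
  refine hsum.congr' ?_
  filter_upwards [eventually_gt_atTop (0 : ℝ)] with L hL
  rw [Stubs.X1 F hF (c * Real.exp L) (by positivity) q hq hq0 L hL s w1 w2 Q1 Q2 h1 h2 h3' h4']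

end

end Pool.Agent.H344R2.RZ6_LIM2
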