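import Pool.Agent.H306R2.RZ.Stubs

set_option autoImplicit false

/-! Task E7 of project RZ: the total contribution of the non-squares. -/

namespace Pool.Agent.H344R2.RZE7

open Finset Filter Topology MeasureTheory
open Pool.Agent.H306R2.RZ

noncomputable section

theorem bd0 {w : ℝ → ℝ} {B : ℝ} (h : Bd 1 w B) (y : ℝ) : |w y| ≤ B := by
  have := h 0 (by norm_num) y
  simpa using this

theorem bd_nonneg {w : ℝ → ℝ} {B : ℝ} (h : Bd 1 w B) : 0 ≤ B :=
  le_trans (abs_nonneg _) (bd0 h 0)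

/-- the inner sum over `n1, n2` for a fixed `l` -/
def Inn (F : ℝ → ℝ) (X : ℝ) (q : ℕ) (L : ℝ) (w1 w2 : ℝ → ℝ) (N l : ℕ) : ℝ :=
  ∑ a ∈ Icc 1 N, ∑ b ∈ Icc 1 N, if (a * b).Coprime q then
    w1 (Real.log a / L) * w2 (Real.log b / L) / Real.sqrt ((a : ℝ) * b) * Dns F X (a * b * l) else 0

theorem odd_of_coprime {q n : ℕ} (hq : Even q) (h : n.Coprime q) : Odd n := by
  rcases Nat.even_or_odd n with h1 | h1
  · exfalso
    have h2 : 2 ∣ n := h1.two_dvd
    have h3 : 2 ∣ q := hq.two_dvd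
    have := Nat.dvd_gcd h2 h3
    rw [h.gcd_eq_one] at this
    omega
  · exact h1

theorem inn_eq (F : ℝ → ℝ) (hF : TF F) (X : ℝ) (hX : 0 < X) (q : ℕ) (hq : Even q) (L : ℝ)
    (w1 w2 : ℝ → ℝ) (N l : ℕ) (hl : Odd l) :
    Inn F X q L w1 w2 N l = ∑' k : ℤ, if IsSquare k then 0 else (-1 : ℝ) ^ k.natAbs *
      ∑ a ∈ Icc 1 N, ∑ b ∈ Icc 1 N, if (a * b).Coprime q then
          Gk k (a * b * l) / Real.sqrt ((a : ℝ) * b) * ph F X L w1 w2 k l a b else 0 := by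
  have hsum : ∀ a b : ℕ, (a * b).Coprime q → Summable (fun k : ℤ => if IsSquare k then 0 else
      (-1 : ℝ) ^ k.natAbs * Gk k (a * b * l) * Ft F ((k : ℝ) * X / (2 * (a * b * l : ℕ)))) := by
    intro a b hab
    have hodd : Odd (a * b * l) := (odd_of_coprime hq hab).mul hl
    have h1 := (Stubs.P1 F hF X hX (a * b * l) hodd).1
    refine Summable.of_norm_bounded h1.norm ?_
    intro k
    split_ifs
    · rw [norm_zero]
      exact norm_nonneg _
    · exact le_refl _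
  have hterm : ∀ a b : ℕ, (a * b).Coprime q →
      w1 (Real.log a / L) * w2 (Real.log b / L) / Real.sqrt ((a : ℝ) * b) * Dns F X (a * b * l) =
      ∑' k : ℤ, if IsSquare k then 0 else (-1 : ℝ) ^ k.natAbs *
        (Gk k (a * b * l) / Real.sqrt ((a : ℝ) * b) * ph F X L w1 w2 k l a b) := by
    intro a b _
    unfold Dns
    rw [← mul_div_assoc, ← tsum_mul_left, ← tsum_div_const]
    refine tsum_congr fun k => ?_
    split_ifs
    · simp
    · unfold ph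
      push_cast
      ring
  have hsum2 : ∀ a b : ℕ, (a * b).Coprime q → Summable (fun k : ℤ => if IsSquare k then 0 else
      (-1 : ℝ) ^ k.natAbs *
        (Gk k (a * b * l) / Real.sqrt ((a : ℝ) * b) * ph F X L w1 w2 k l a b)) := by
    intro a b hab
    have h1 := (hsum a b hab).mul_left
      (w1 (Real.log a / L) * w2 (Real.log b / L) / Real.sqrt ((a : ℝ) * b) /
        (2 * (a * b * l : ℕ)))
    refine h1.congr fun k => ?_
    split_ifs
    · simp
    · unfold ph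
      push_cast
      ring
  unfold Inn
  have e1 : ∀ a b : ℕ, (if (a * b).Coprime q then
      w1 (Real.log a / L) * w2 (Real.log b / L) / Real.sqrt ((a : ℝ) * b) * Dns F X (a * b * l)
      else 0) = ∑' k : ℤ, if IsSquare k then 0 else (-1 : ℝ) ^ k.natAbs *
        (if (a * b).Coprime q then
          Gk k (a * b * l) / Real.sqrt ((a : ℝ) * b) * ph F X L w1 w2 k l a b else 0) := by
    intro a b
    by_cases hab : (a * b).Coprime q
    · rw [if_pos hab, hterm a b hab]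
      refine tsum_congr fun k => ?_
      rw [if_pos hab]
    · rw [if_neg hab]
      rw [tsum_congr (g := fun _ => (0 : ℝ))]
      · simp
      · intro k
        rw [if_neg hab]
        simp
  have s1 : ∀ a b : ℕ, Summable (fun k : ℤ => if IsSquare k then 0 else (-1 : ℝ) ^ k.natAbs *
        (if (a * b).Coprime q then
          Gk k (a * b * l) / Real.sqrt ((a : ℝ) * b) * ph F X L w1 w2 k l a b else 0)) := by
    intro a b
    by_cases hab : (a * b).Coprime q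
    · refine (hsum2 a b hab).congr fun k => ?_
      rw [if_pos hab]
    · refine (summable_zero (α := ℝ) (β := ℤ)).congr fun k => ?_
      rw [if_neg hab]
      simp
  rw [Finset.sum_congr rfl fun a _ => Finset.sum_congr rfl fun b _ => e1 a b]
  rw [Finset.sum_congr rfl fun a _ => (Summable.tsum_finsetSum (fun b _ => s1 a b)).symm]
  rw [← Summable.tsum_finsetSum (fun a _ => summable_sum (fun b _ => s1 a b))]
  refine tsum_congr fun k => ?_
  by_cases hk : IsSquare k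
  · simp [hk]
  · simp only [hk, if_false]
    rw [Finset.mul_sum]
    refine Finset.sum_congr rfl fun a _ => ?_
    rw [Finset.mul_sum]

def eqv : (ℕ × ℕ) × (ℕ × ℕ) ≃ (Fin 4 → ℕ) where
  toFun p := ![p.2.1, p.2.2, p.1.1, p.1.2]
  invFun a := ((a 2, a 3), (a 0, a 1))
  left_inv p := by simp
  right_inv a := by ext i; fin_cases i <;> rfl

theorem t4c_eq (q n1 n2 l1 l2 : ℕ) (h1 : 1 ≤ n1) (h2 : 1 ≤ n2) (h3 : 1 ≤ l1) (h4 : 1 ≤ l2) :
    t4c q ![n1, n2, l1, l2] = if (l1 * l2).Coprime q then (if (n1 * n2).Coprime q then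
      ((ArithmeticFunction.moebius l1 : ℤ) : ℝ) * ((ArithmeticFunction.moebius l2 : ℤ) : ℝ) /
        Real.sqrt ((l1 : ℝ) * l2) / Real.sqrt ((n1 : ℝ) * n2) else 0) else 0 := by
  unfold t4c
  have hiff : (∀ i, (![n1, n2, l1, l2] : Fin 4 → ℕ) i ≠ 0 ∧
      Nat.Coprime ((![n1, n2, l1, l2] : Fin 4 → ℕ) i) q) ↔
      ((l1 * l2).Coprime q ∧ (n1 * n2).Coprime q) := by
    rw [Fin.forall_fin_succ, Fin.forall_fin_succ, Fin.forall_fin_succ, Fin.forall_fin_succ,
      Nat.coprime_mul_iff_left, Nat.coprime_mul_iff_left]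
    simp only [Matrix.cons_val_zero, Matrix.cons_val_succ, IsEmpty.forall_iff, and_true]
    constructor
    · rintro ⟨a, b, c, d⟩
      exact ⟨⟨c.2, d.2⟩, a.2, b.2⟩
    · rintro ⟨⟨c, d⟩, a, b⟩
      exact ⟨⟨by omega, a⟩, ⟨by omega, b⟩, ⟨by omega, c⟩, ⟨by omega, d⟩⟩
  have hprod : ((∏ i, (![n1, n2, l1, l2] : Fin 4 → ℕ) i : ℕ) : ℝ) = ((l1 : ℝ) * l2) * (n1 * n2) := by
    rw [Fin.prod_univ_four]
    simp only [Matrix.cons_val_zero, Matrix.cons_val_one, Matrix.cons_val]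
    push_cast
    ring
  by_cases hc : (l1 * l2).Coprime q ∧ (n1 * n2).Coprime q
  · rw [if_pos (hiff.mpr hc), if_pos hc.1, if_pos hc.2, hprod, Real.sqrt_mul (by positivity),
      div_div]
    rfl
  · rw [if_neg (fun h => hc (hiff.mp h))]
    by_cases h5 : (l1 * l2).Coprime q
    · rw [if_pos h5, if_neg (fun h6 => hc ⟨h5, h6⟩)]
    · rw [if_neg h5]

theorem log_le_of {w : ℝ → ℝ} {s L : ℝ} (hw : Wt s w) (hL : 0 < L) {n : ℕ} (hn : n ≠ 0)
    (h : w (Real.log n / L) ≠ 0) : (n : ℝ) ≤ Real.exp (s * L) := by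
  have h1 := (hw.supp _ h).2
  rw [div_le_iff₀ hL] at h1
  rw [← Real.log_le_iff_le_exp (by positivity)]
  exact h1

theorem main_eq (F : ℝ → ℝ) (X : ℝ) (q : ℕ) (L : ℝ) (hL : 0 < L) (s θ : ℝ)
    (w1 w2 Q1 Q2 : ℝ → ℝ) (h1 : Wt s w1) (h2 : Wt s w2) (h3 : Wt θ Q1) (h4 : Wt θ Q2)
    (N M : ℕ) (hN : Real.exp (s * L) ≤ N) (hM : Real.exp (θ * L) < M + 1) :
    ∑' a : Fin 4 → ℕ, t4c q a * w4 L w1 w2 Q1 Q2 a * Dns F X (∏ i, a i) =
      ∑ l1 ∈ Icc 1 M, ∑ l2 ∈ Icc 1 M, if (l1 * l2).Coprime q then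
        ((ArithmeticFunction.moebius l1 : ℤ) : ℝ) * ((ArithmeticFunction.moebius l2 : ℤ) : ℝ) /
          Real.sqrt ((l1 : ℝ) * l2) * (Q1 (Real.log l1 / L) * Q2 (Real.log l2 / L)) *
          Inn F X q L w1 w2 N (l1 * l2) else 0 := by
  rw [← Equiv.tsum_eq eqv]
  rw [tsum_eq_sum (s := (Icc 1 M ×ˢ Icc 1 M) ×ˢ (Icc 1 N ×ˢ Icc 1 N))]
  · rw [Finset.sum_product, Finset.sum_product]
    refine Finset.sum_congr rfl fun l1 hl1 => Finset.sum_congr rfl fun l2 hl2 => ?_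
    rw [Finset.sum_product]
    rw [Finset.mem_Icc] at hl1 hl2
    unfold Inn
    by_cases hc : (l1 * l2).Coprime q
    · rw [if_pos hc, Finset.mul_sum]
      refine Finset.sum_congr rfl fun n1 hn1 => ?_
      rw [Finset.mul_sum]
      refine Finset.sum_congr rfl fun n2 hn2 => ?_
      rw [Finset.mem_Icc] at hn1 hn2
      have e1 : eqv ((l1, l2), (n1, n2)) = ![n1, n2, l1, l2] := rfl
      rw [e1, t4c_eq q n1 n2 l1 l2 hn1.1 hn2.1 hl1.1 hl2.1, if_pos hc]
      have e2 : ∏ i, (![n1, n2, l1, l2] : Fin 4 → ℕ) i = n1 * n2 * (l1 * l2) := by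
        rw [Fin.prod_univ_four]
        simp only [Matrix.cons_val_zero, Matrix.cons_val_one, Matrix.cons_val]
        ring
      rw [e2]
      have e3 : w4 L w1 w2 Q1 Q2 ![n1, n2, l1, l2] =
        w1 (Real.log n1 / L) * w2 (Real.log n2 / L) * Q1 (Real.log l1 / L) *
          Q2 (Real.log l2 / L) := by
        unfold w4
        simp only [Matrix.cons_val_zero, Matrix.cons_val_one, Matrix.cons_val]
      rw [e3]
      by_cases hc2 : (n1 * n2).Coprime q
      · rw [if_pos hc2, if_pos hc2]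
        ring
      · rw [if_neg hc2, if_neg hc2]
        simp
    · rw [if_neg hc]
      refine Finset.sum_eq_zero fun n1 hn1 => Finset.sum_eq_zero fun n2 hn2 => ?_
      rw [Finset.mem_Icc] at hn1 hn2
      have e1 : eqv ((l1, l2), (n1, n2)) = ![n1, n2, l1, l2] := rfl
      rw [e1, t4c_eq q n1 n2 l1 l2 hn1.1 hn2.1 hl1.1 hl2.1, if_neg hc]
      simp
  · rintro ⟨⟨l1, l2⟩, ⟨n1, n2⟩⟩ hp
    by_contra hne
    apply hp
    have e1 : eqv ((l1, l2), (n1, n2)) = ![n1, n2, l1, l2] := rfl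
    rw [e1] at hne
    have ht : t4c q ![n1, n2, l1, l2] ≠ 0 := fun h => hne (by rw [h]; simp)
    have hw : w4 L w1 w2 Q1 Q2 ![n1, n2, l1, l2] ≠ 0 := fun h => hne (by rw [h]; simp)
    have hnz : ∀ i, (![n1, n2, l1, l2] : Fin 4 → ℕ) i ≠ 0 := by
      by_contra hcon
      apply ht
      unfold t4c
      rw [if_neg]
      intro hall
      exact hcon fun i => (hall i).1
    have z0 : n1 ≠ 0 := hnz 0
    have z1 : n2 ≠ 0 := hnz 1
    have z2 : l1 ≠ 0 := hnz 2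
    have z3 : l2 ≠ 0 := hnz 3
    have e3 : w4 L w1 w2 Q1 Q2 ![n1, n2, l1, l2] =
        w1 (Real.log n1 / L) * w2 (Real.log n2 / L) * Q1 (Real.log l1 / L) *
          Q2 (Real.log l2 / L) := by
      unfold w4
      simp only [Matrix.cons_val_zero, Matrix.cons_val_one, Matrix.cons_val]
    rw [e3] at hw
    have a0 : w1 (Real.log n1 / L) ≠ 0 := by
      intro h
      apply hw
      rw [h]
      simp
    have a1 : w2 (Real.log n2 / L) ≠ 0 := by
      intro h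
      apply hw
      rw [h]
      simp
    have a2 : Q1 (Real.log l1 / L) ≠ 0 := by
      intro h
      apply hw
      rw [h]
      simp
    have a3 : Q2 (Real.log l2 / L) ≠ 0 := by
      intro h
      apply hw
      rw [h]
      simp
    have b0 := log_le_of h1 hL z0 a0
    have b1 := log_le_of h2 hL z1 a1
    have b2 := log_le_of h3 hL z2 a2
    have b3 := log_le_of h4 hL z3 a3
    have c0 : n1 ≤ N := by exact_mod_cast b0.trans hN
    have c1 : n2 ≤ N := by exact_mod_cast b1.trans hN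
    have c2 : l1 < M + 1 := by exact_mod_cast b2.trans_lt hM
    have c3 : l2 < M + 1 := by exact_mod_cast b3.trans_lt hM
    simp only [Finset.mem_product, Finset.mem_Icc]
    omega

theorem mu_le (n : ℕ) : |((ArithmeticFunction.moebius n : ℤ) : ℝ)| ≤ 1 := by
  have h := ArithmeticFunction.abs_moebius_le_one (n := n)
  exact_mod_cast h

theorem E7 (F : ℝ → ℝ) (hF : TF F) (q : ℕ) (hq : Even q) (hq0 : q ≠ 0) (c : ℝ) (hc : 0 < c)
    (s θ : ℝ) (hs : 1 / 2 ≤ s) (hθ : 0 < θ) (h : 2 * s + 3 * θ < 3 / 2) :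
    ∃ C η L0 : ℝ, 0 < C ∧ 0 < η ∧ ∀ L : ℝ, L0 ≤ L → ∀ (w1 w2 Q1 Q2 : ℝ → ℝ) (B1 B2 B3 B4 : ℝ),
      Wt s w1 → Wt s w2 → Wt θ Q1 → Wt θ Q2 → Bd 1 w1 B1 → Bd 1 w2 B2 → Bd 1 Q1 B3 → Bd 1 Q2 B4 →
      |∑' a : Fin 4 → ℕ, t4c q a * w4 L w1 w2 Q1 Q2 a * Dns F (c * Real.exp L) (∏ i, a i)| ≤
        C * B1 * B2 * B3 * B4 * Real.exp (-(η * L)) := by
  obtain ⟨η, hη⟩ : ∃ η : ℝ, η = (3 / 2 - 2 * s - 3 * θ) / 2 := ⟨_, rfl⟩
  have hη0 : 0 < η := by rw [hη]; linarith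
  obtain ⟨ε, hε⟩ : ∃ ε : ℝ, ε = 2 / 3 * η := ⟨_, rfl⟩
  have hε0 : 0 < ε := by rw [hε]; linarith
  obtain ⟨C, hC, hE6⟩ := Stubs.E6 F hF q hq hq0 ε hε0
  refine ⟨C * c ^ (-(3 / 2) : ℝ) * 2 ^ (2 + ε), η, 1 + |Real.log c|, by positivity, hη0, ?_⟩
  intro L hL w1 w2 Q1 Q2 B1 B2 B3 B4 h1 h2 h3 h4 hB1 hB2 hB3 hB4
  have b1 := bd_nonneg hB1
  have b2 := bd_nonneg hB2
  have b3 := bd_nonneg hB3
  have b4 := bd_nonneg hB4
  have hL1 : 1 ≤ L := by
    have := abs_nonneg (Real.log c)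
    linarith
  have hL0 : 0 < L := by linarith
  have hX : 1 ≤ c * Real.exp L := by
    have h5 : Real.log c + L ≥ 0 := by
      have := neg_abs_le (Real.log c)
      linarith
    have h6 : c * Real.exp L = Real.exp (Real.log c + L) := by
      rw [Real.exp_add, Real.exp_log hc]
    rw [h6]
    exact Real.one_le_exp h5
  obtain ⟨N, hN⟩ : ∃ N : ℕ, N = ⌈Real.exp (s * L)⌉₊ := ⟨_, rfl⟩
  obtain ⟨M, hM⟩ : ∃ M : ℕ, M = ⌊Real.exp (θ * L)⌋₊ := ⟨_, rfl⟩
  have hN1 : Real.exp (s * L) ≤ N := by rw [hN]; exact Nat.le_ceil _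
  have hexp1 : (1 : ℝ) ≤ Real.exp (s * L) := Real.one_le_exp (by positivity)
  have hN2 : (N : ℝ) ≤ 2 * Real.exp (s * L) := by
    have := Nat.ceil_lt_add_one (Real.exp_pos (s * L)).le
    rw [← hN] at this
    linarith
  have hN3 : 1 ≤ N := by
    have : (1 : ℝ) ≤ N := hexp1.trans hN1
    exact_mod_cast this
  have hM1 : Real.exp (θ * L) < M + 1 := by rw [hM]; exact Nat.lt_floor_add_one _
  have hM2 : (M : ℝ) ≤ Real.exp (θ * L) := by
    rw [hM]
    exact Nat.floor_le (Real.exp_pos _).le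
  rw [main_eq F (c * Real.exp L) q L hL0 s θ w1 w2 Q1 Q2 h1 h2 h3 h4 N M hN1 hM1]
  obtain ⟨X, hXd⟩ : ∃ X : ℝ, X = c * Real.exp L := ⟨_, rfl⟩
  rw [← hXd] at hX ⊢
  have hInn : ∀ l : ℕ, Odd l → |Inn F X q L w1 w2 N l| ≤
      C * B1 * B2 * X ^ (-(3 / 2) : ℝ) * (l : ℝ) ^ (1 + ε) * (N : ℝ) ^ (2 + ε) := by
    intro l hl
    have h6 := hE6 X L w1 w2 s B1 B2 l N hX hL1 h1 h2 hB1 hB2 hl hN3 hN1
    rw [inn_eq F hF X (by linarith) q hq L w1 w2 N l hl]
    refine le_trans ?_ h6.2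
    have habs : ∀ k : ℤ, (if IsSquare k then 0 else
        |∑ a ∈ Icc 1 N, ∑ b ∈ Icc 1 N, if (a * b).Coprime q then
          Gk k (a * b * l) / Real.sqrt ((a : ℝ) * b) * ph F X L w1 w2 k l a b else 0|) =
        ‖(if IsSquare k then 0 else (-1 : ℝ) ^ k.natAbs *
      ∑ a ∈ Icc 1 N, ∑ b ∈ Icc 1 N, if (a * b).Coprime q then
          Gk k (a * b * l) / Real.sqrt ((a : ℝ) * b) * ph F X L w1 w2 k l a b else 0)‖ := by
      intro k
      split_ifs
      · simp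
      · rw [norm_mul, norm_pow, norm_neg, norm_one, one_pow, one_mul, Real.norm_eq_abs]
    rw [tsum_congr habs, ← Real.norm_eq_abs]
    have hs6 := h6.1
    rw [summable_congr habs] at hs6
    exact norm_tsum_le_tsum_norm hs6
  have hterm : ∀ l1 ∈ Icc 1 M, ∀ l2 ∈ Icc 1 M, |if (l1 * l2).Coprime q then
        ((ArithmeticFunction.moebius l1 : ℤ) : ℝ) * ((ArithmeticFunction.moebius l2 : ℤ) : ℝ) /
          Real.sqrt ((l1 : ℝ) * l2) * (Q1 (Real.log l1 / L) * Q2 (Real.log l2 / L)) *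
          Inn F X q L w1 w2 N (l1 * l2) else 0| ≤
      C * B1 * B2 * B3 * B4 * X ^ (-(3 / 2) : ℝ) * (M : ℝ) ^ (1 + 2 * ε) * (N : ℝ) ^ (2 + ε) := by
    intro l1 hl1 l2 hl2
    rw [Finset.mem_Icc] at hl1 hl2
    have hM0 : 1 ≤ M := hl1.1.trans hl1.2
    have p1 : (0 : ℝ) < l1 := by exact_mod_cast hl1.1
    have p2 : (0 : ℝ) < l2 := by exact_mod_cast hl2.1
    split_ifs with hcop
    · have hodd := odd_of_coprime hq hcop
      have hI := hInn (l1 * l2) hodd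
      rw [abs_mul, abs_mul, abs_div, abs_mul, abs_mul, abs_of_nonneg (Real.sqrt_nonneg _)]
      have hmu : |((ArithmeticFunction.moebius l1 : ℤ) : ℝ)| *
          |((ArithmeticFunction.moebius l2 : ℤ) : ℝ)| ≤ 1 :=
        mul_le_one₀ (mu_le l1) (abs_nonneg _) (mu_le l2)
      have hQ : |Q1 (Real.log l1 / L)| * |Q2 (Real.log l2 / L)| ≤ B3 * B4 :=
        mul_le_mul (bd0 hB3 _) (bd0 hB4 _) (abs_nonneg _) b3
      have hsq : 0 < Real.sqrt ((l1 : ℝ) * l2) := Real.sqrt_pos.mpr (by positivity)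
      have step1 : |((ArithmeticFunction.moebius l1 : ℤ) : ℝ)| *
          |((ArithmeticFunction.moebius l2 : ℤ) : ℝ)| / Real.sqrt ((l1 : ℝ) * l2) *
          (|Q1 (Real.log l1 / L)| * |Q2 (Real.log l2 / L)|) *
          |Inn F X q L w1 w2 N (l1 * l2)| ≤
          1 / Real.sqrt ((l1 : ℝ) * l2) * (B3 * B4) *
          (C * B1 * B2 * X ^ (-(3 / 2) : ℝ) * ((l1 * l2 : ℕ) : ℝ) ^ (1 + ε) *
            (N : ℝ) ^ (2 + ε)) := by
        refine mul_le_mul (mul_le_mul ?_ hQ (by positivity) (by positivity)) hI (abs_nonneg _)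
          (by positivity)
        exact div_le_div_of_nonneg_right hmu hsq.le
      refine step1.trans ?_
      have hpow : 1 / Real.sqrt ((l1 : ℝ) * l2) * ((l1 * l2 : ℕ) : ℝ) ^ (1 + ε) ≤
          (M : ℝ) ^ (1 + 2 * ε) := by
        have e1 : 1 / Real.sqrt ((l1 : ℝ) * l2) * ((l1 * l2 : ℕ) : ℝ) ^ (1 + ε) =
            ((l1 : ℝ) * l2) ^ (1 / 2 + ε) := by
          push_cast
          rw [Real.sqrt_eq_rpow, one_div, ← Real.rpow_neg (by positivity),
            ← Real.rpow_add (by positivity)]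
          congr 1
          ring
        have e2 : (M : ℝ) ^ (1 + 2 * ε) = ((M : ℝ) * M) ^ (1 / 2 + ε) := by
          rw [Real.mul_rpow (by positivity) (by positivity), ← Real.rpow_add_of_nonneg
            (by positivity) (by positivity) (by positivity)]
          congr 1
          ring
        rw [e1, e2]
        refine Real.rpow_le_rpow (by positivity) ?_ (by positivity)
        have q1 : (l1 : ℝ) ≤ M := by exact_mod_cast hl1.2
        have q2 : (l2 : ℝ) ≤ M := by exact_mod_cast hl2.2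
        exact mul_le_mul q1 q2 p2.le (by positivity)
      calc 1 / Real.sqrt ((l1 : ℝ) * l2) * (B3 * B4) *
          (C * B1 * B2 * X ^ (-(3 / 2) : ℝ) * ((l1 * l2 : ℕ) : ℝ) ^ (1 + ε) *
            (N : ℝ) ^ (2 + ε))
          = C * B1 * B2 * B3 * B4 * X ^ (-(3 / 2) : ℝ) *
            (1 / Real.sqrt ((l1 : ℝ) * l2) * ((l1 * l2 : ℕ) : ℝ) ^ (1 + ε)) *
            (N : ℝ) ^ (2 + ε) := by ring
        _ ≤ C * B1 * B2 * B3 * B4 * X ^ (-(3 / 2) : ℝ) * (M : ℝ) ^ (1 + 2 * ε) *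
            (N : ℝ) ^ (2 + ε) := by
          refine mul_le_mul_of_nonneg_right (mul_le_mul_of_nonneg_left hpow ?_) (by positivity)
          positivity
    · rw [abs_zero]
      positivity
  have hsum : |∑ l1 ∈ Icc 1 M, ∑ l2 ∈ Icc 1 M, if (l1 * l2).Coprime q then
        ((ArithmeticFunction.moebius l1 : ℤ) : ℝ) * ((ArithmeticFunction.moebius l2 : ℤ) : ℝ) /
          Real.sqrt ((l1 : ℝ) * l2) * (Q1 (Real.log l1 / L) * Q2 (Real.log l2 / L)) *
          Inn F X q L w1 w2 N (l1 * l2) else 0| ≤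
      M * (M * (C * B1 * B2 * B3 * B4 * X ^ (-(3 / 2) : ℝ) * (M : ℝ) ^ (1 + 2 * ε) *
        (N : ℝ) ^ (2 + ε))) := by
    refine (Finset.abs_sum_le_sum_abs _ _).trans ?_
    refine (Finset.sum_le_card_nsmul _ _ (M * (C * B1 * B2 * B3 * B4 * X ^ (-(3 / 2) : ℝ) *
      (M : ℝ) ^ (1 + 2 * ε) * (N : ℝ) ^ (2 + ε))) fun l1 hl1 => ?_).trans_eq ?_
    · refine (Finset.abs_sum_le_sum_abs _ _).trans ?_
      refine (Finset.sum_le_card_nsmul _ _ _ fun l2 hl2 => hterm l1 hl1 l2 hl2).trans_eq ?_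
      rw [Nat.card_Icc, nsmul_eq_mul]
      simp
    · rw [Nat.card_Icc, nsmul_eq_mul]
      simp
  refine hsum.trans ?_
  have hMpos : (0 : ℝ) < M := by
    have h5 : (1 : ℝ) ≤ Real.exp (θ * L) := Real.one_le_exp (by positivity)
    have h6 : 1 ≤ M := by
      rw [hM]
      exact Nat.le_floor (by simpa using h5)
    exact_mod_cast h6
  have hMM : (M : ℝ) * (M * (M : ℝ) ^ (1 + 2 * ε)) ≤ Real.exp (θ * L * (3 + 2 * ε)) := by
    have e1 : (M : ℝ) * (M * (M : ℝ) ^ (1 + 2 * ε)) = (M : ℝ) ^ (3 + 2 * ε) := by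
      have : (3 + 2 * ε : ℝ) = 1 + (1 + (1 + 2 * ε)) := by ring
      rw [this, Real.rpow_add hMpos 1 (1 + (1 + 2 * ε)), Real.rpow_add hMpos 1 (1 + 2 * ε),
        Real.rpow_one]
    rw [e1, Real.exp_mul]
    exact Real.rpow_le_rpow hMpos.le hM2 (by positivity)
  have hNN : (N : ℝ) ^ (2 + ε) ≤ 2 ^ (2 + ε) * Real.exp (s * L * (2 + ε)) := by
    rw [Real.exp_mul, ← Real.mul_rpow (by norm_num) (Real.exp_pos _).le]
    exact Real.rpow_le_rpow (Nat.cast_nonneg _) hN2 (by positivity)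
  have hXX : X ^ (-(3 / 2) : ℝ) = c ^ (-(3 / 2) : ℝ) * Real.exp (L * (-(3 / 2))) := by
    rw [hXd, Real.mul_rpow hc.le (Real.exp_pos _).le, ← Real.exp_mul]
  have hfin : Real.exp (L * (-(3 / 2))) * Real.exp (θ * L * (3 + 2 * ε)) *
      Real.exp (s * L * (2 + ε)) ≤ Real.exp (-(η * L)) := by
    rw [← Real.exp_add, ← Real.exp_add]
    apply Real.exp_le_exp.mpr
    have h7 : s + 2 * θ ≤ 3 / 2 := by linarith
    have h8 : ε * (s + 2 * θ) ≤ η := by
      calc ε * (s + 2 * θ) ≤ ε * (3 / 2) := mul_le_mul_of_nonneg_left h7 hε0.le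
        _ = η := by rw [hε]; ring
    have h9 : L * (-(3 / 2)) + θ * L * (3 + 2 * ε) + s * L * (2 + ε) =
        L * (-(2 * η) + ε * (s + 2 * θ)) := by
      rw [hη]
      ring
    rw [h9]
    nlinarith [mul_le_mul_of_nonneg_left h8 hL0.le]
  calc (M : ℝ) * (M * (C * B1 * B2 * B3 * B4 * X ^ (-(3 / 2) : ℝ) * (M : ℝ) ^ (1 + 2 * ε) *
        (N : ℝ) ^ (2 + ε)))
      = (C * B1 * B2 * B3 * B4) * X ^ (-(3 / 2) : ℝ) * ((M : ℝ) * (M * (M : ℝ) ^ (1 + 2 * ε))) *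
        (N : ℝ) ^ (2 + ε) := by ring
    _ ≤ (C * B1 * B2 * B3 * B4) * X ^ (-(3 / 2) : ℝ) * Real.exp (θ * L * (3 + 2 * ε)) *
        (2 ^ (2 + ε) * Real.exp (s * L * (2 + ε))) := by
        refine mul_le_mul (mul_le_mul_of_nonneg_left hMM (by positivity)) hNN (by positivity)
          (by positivity)
    _ = (C * B1 * B2 * B3 * B4) * (c ^ (-(3 / 2) : ℝ) * 2 ^ (2 + ε)) *
        (Real.exp (L * (-(3 / 2))) * Real.exp (θ * L * (3 + 2 * ε)) *
          Real.exp (s * L * (2 + ε))) := by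
        rw [hXX]
        ring
    _ ≤ (C * B1 * B2 * B3 * B4) * (c ^ (-(3 / 2) : ℝ) * 2 ^ (2 + ε)) * Real.exp (-(η * L)) :=
        mul_le_mul_of_nonneg_left hfin (by positivity)
    _ = C * c ^ (-(3 / 2) : ℝ) * 2 ^ (2 + ε) * B1 * B2 * B3 * B4 * Real.exp (-(η * L)) := by ring

end

end Pool.Agent.H344R2.RZE7
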