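import Pool.Agent.H344R2.Ord

open Complex Filter Topology Set MeasureTheory
open scoped BigOperators ComplexConjugate

namespace H344

open H370

/-- number of zeros with ordinate in `(a, b]` that satisfy `Q` -/
noncomputable def PQ (F : ℂ → ℂ) (Q : ℂ → Prop) (a b : ℝ) : ℕ := {s : ℂ | s ∈ zset F a b ∧ Q s}.ncard

theorem PQ_add {F : ℂ → ℂ} (hF : GoodL F) (Q : ℂ → Prop) {a b c : ℝ} (h : 1 ≤ a) (hab : a ≤ b)
    (hbc : b ≤ c) : PQ F Q a c = PQ F Q a b + PQ F Q b c := by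
  unfold PQ
  rw [← Set.ncard_union_eq ?_ ((zset_finite hF a b h).subset fun s hs => hs.1)
    ((zset_finite hF b c (h.trans hab)).subset fun s hs => hs.1)]
  · congr 1
    ext s
    simp only [zset, Set.mem_ofPred_eq, Set.mem_union]
    constructor
    · rintro ⟨⟨a1, a2, a3, a4, a5⟩, a6⟩
      rcases le_or_gt s.im b with h1 | h1
      · exact Or.inl ⟨⟨a1, a2, a3, h1, a5⟩, a6⟩
      · exact Or.inr ⟨⟨a1, a2, h1, a4, a5⟩, a6⟩
    · rintro (⟨⟨a1, a2, a3, a4, a5⟩, a6⟩ | ⟨⟨a1, a2, a3, a4, a5⟩, a6⟩)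
      · exact ⟨⟨a1, a2, a3, a4.trans hbc, a5⟩, a6⟩
      · exact ⟨⟨a1, a2, hab.trans_lt a3, a4, a5⟩, a6⟩
  · rw [Set.disjoint_left]
    rintro s ⟨⟨a1, a2, a3, a4, a5⟩, a6⟩ ⟨⟨b1, b2, b3, b4, b5⟩, b6⟩
    linarith

/-- isolation in the box `|Im| ≤ 2πr / log γ`, `|Re - 1/2| ≤ (2/5) 2π / log γ` -/
def Qbox (F : ℂ → ℂ) (r : ℝ) (s : ℂ) : Prop :=
  s.re = 1 / 2 ∧ mult F s = 1 ∧ ∀ s' : ℂ, F s' = 0 → 0 < s'.re → s'.re < 1 → s' ≠ s →
    |s'.im - s.im| ≤ 2 * Real.pi * r / Real.log s.im →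
      4 * Real.pi / 5 / Real.log s.im < |s'.re - 1 / 2|

/-- isolation of the ordinate -/
def Qord (F : ℂ → ℂ) (r : ℝ) (s : ℂ) : Prop :=
  s.re = 1 / 2 ∧ mult F s = 1 ∧ ∀ s' : ℂ, F s' = 0 → 0 < s'.re → s'.re < 1 → s' ≠ s →
    2 * Real.pi * r / Real.log s.im < |s'.im - s.im|

lemma iso_le_box {F : ℂ → ℂ} (hF : GoodL F) {r T : ℝ} (hr : 0 ≤ r) (hT : 10 ≤ T) :
    isoN F T (2 * Real.pi * r / Real.log T) (4 * Real.pi / 5 / Real.log T) ≤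
      PQ F (Qbox F r) T (2 * T) := by
  refine Set.ncard_le_ncard ?_ ((zset_finite hF T (2 * T) (by linarith)).subset fun s hs => hs.1)
  rintro s ⟨h1, h2, h3, h4⟩
  have hlog : 0 < Real.log T := Real.log_pos (by linarith)
  have hlog2 : Real.log T ≤ Real.log s.im := Real.log_le_log (by linarith) h1.2.2.1.le
  refine ⟨h1, h2, h3, fun s' a1 a2 a3 a4 a5 => ?_⟩
  have h5 := h4 s' a1 a2 a3 a4 (a5.trans (div_le_div_of_nonneg_left (by positivity) hlog hlog2))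
  exact (div_le_div_of_nonneg_left (by positivity) hlog hlog2).trans_lt h5

lemma iso_le_ord {F : ℂ → ℂ} (hF : GoodL F) {r T : ℝ} (hr : 0 ≤ r) (hT : 10 ≤ T) :
    isoN F T (2 * Real.pi * r / Real.log T) (1 / 2) ≤ PQ F (Qord F r) T (2 * T) := by
  refine Set.ncard_le_ncard ?_ ((zset_finite hF T (2 * T) (by linarith)).subset fun s hs => hs.1)
  rintro s ⟨h1, h2, h3, h4⟩
  have hlog : 0 < Real.log T := Real.log_pos (by linarith)
  have hlog2 : Real.log T ≤ Real.log s.im := Real.log_le_log (by linarith) h1.2.2.1.le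
  refine ⟨h1, h2, h3, fun s' a1 a2 a3 a4 => ?_⟩
  by_contra hcon
  push Not at hcon
  have h5 := h4 s' a1 a2 a3 a4 (hcon.trans (div_le_div_of_nonneg_left (by positivity) hlog hlog2))
  have h6 : |s'.re - 1 / 2| ≤ 1 / 2 := by
    rw [abs_le]; constructor <;> linarith
  linarith

lemma PQ_mono {F : ℂ → ℂ} (hfin : ∀ T : ℝ, (zset F 0 T).Finite) (Q : ℂ → Prop) (a X : ℝ)
    (ha : 0 ≤ a) : PQ F Q a X ≤ PQ F Q 0 X := by
  refine Set.ncard_le_ncard ?_ ((hfin X).subset fun s hs => hs.1)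
  rintro s ⟨⟨a1, a2, a3, a4, a5⟩, a6⟩
  exact ⟨⟨a1, a2, by linarith, a4, a5⟩, a6⟩

/-- the box version, from `0` -/
theorem box_zero {F : ℂ → ℂ} (hF : GoodL F) (hfin : ∀ T : ℝ, (zset F 0 T).Finite) {κ κ' : ℝ}
    (hκ0 : 0 < κ') (hκ1 : κ' ≤ 1 / 100) (hκ2 : 2 * κ' ≤ κ) (H : YHyp (1 / 2) κ) {r : ℝ}
    (hr0 : 0 ≤ r) (hr : r ≤ 1 / 3) :
    ∃ X0 : ℝ, ∀ X : ℝ, X0 ≤ X →
      (1 - (cMTinv - 1 - κ' / 2) / KK r ^ 2) * (NN F 0 X : ℝ) ≤ PQ F (Qbox F r) 0 X := by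
  obtain ⟨T0, hT0⟩ := iso_main hF hκ0 hκ1 hκ2 H hr0 hr
  have hK1 := KK_third hr0 hr
  have hK20 : 0 < KK r ^ 2 := by positivity
  have hKsq1 : 0.678 ≤ KK r ^ 2 := by
    have : (0.824 : ℝ) ^ 2 ≤ KK r ^ 2 := pow_le_pow_left₀ (by norm_num) hK1 2
    norm_num at this ⊢
    linarith
  have hc1 := cMTinv_le
  refine dyadic_zero hF hfin (PQ F (Qbox F r)) (fun a b c h1 h2 h3 => PQ_add hF _ h1 h2 h3)
    (fun a X ha => PQ_mono hfin _ a X ha) (1 - (cMTinv - 1 - κ') / KK r ^ 2)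
    (1 - (cMTinv - 1 - κ' / 2) / KK r ^ 2) (max T0 10) ?_ ?_ ?_
  · rw [sub_nonneg, div_le_one hK20]
    norm_num at hc1 hKsq1 ⊢
    linarith
  · have : (cMTinv - 1 - κ') / KK r ^ 2 < (cMTinv - 1 - κ' / 2) / KK r ^ 2 :=
      div_lt_div_of_pos_right (by linarith) hK20
    linarith
  · intro T hT
    have h1 := hT0 T ((le_max_left _ _).trans hT)
    have h2 := iso_le_box hF hr0 ((le_max_right _ _).trans hT)
    exact h1.trans (by exact_mod_cast h2)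

/-- the ordinate version, from `0` -/
theorem ord_zero {F : ℂ → ℂ} (hF : GoodL F) (hfin : ∀ T : ℝ, (zset F 0 T).Finite) {κ κ' : ℝ}
    (hκ0 : 0 < κ') (hκ1 : κ' ≤ 1 / 100) (hκ2 : 2 * κ' ≤ κ) (H : YHyp (1 / 2) κ) :
    ∃ X0 : ℝ, ∀ X : ℝ, X0 ≤ X →
      (3 - 2 * cMTinv + κ' / 2) * (NN F 0 X : ℝ) ≤ PQ F (Qord F (1 / 3)) 0 X ∧
      ((5 - 3 * cMTinv) / 2 + κ' / 2) * (NN F 0 X : ℝ) ≤ PQ F (Qord F (1 / 6)) 0 X := by
  obtain ⟨T0, hT0⟩ := ord_main hF hκ0 hκ1 hκ2 H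
  have hc1 := cMTinv_le
  have hc2 : 0 ≤ 3 - 2 * cMTinv := by norm_num at hc1; linarith
  have hc3 : 0 ≤ (5 - 3 * cMTinv) / 2 := by norm_num at hc1; linarith
  obtain ⟨X1, hX1⟩ := dyadic_zero hF hfin (PQ F (Qord F (1 / 3)))
    (fun a b c h1 h2 h3 => PQ_add hF _ h1 h2 h3)
    (fun a X ha => PQ_mono hfin _ a X ha) (3 - 2 * cMTinv + κ') (3 - 2 * cMTinv + κ' / 2)
    (max T0 10) (by linarith) (by linarith) (by
      intro T hT
      have h1 := (hT0 T ((le_max_left _ _).trans hT)).1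
      have h2 := iso_le_ord hF (r := 1 / 3) (by norm_num) ((le_max_right _ _).trans hT)
      exact h1.trans (by exact_mod_cast h2))
  obtain ⟨X2, hX2⟩ := dyadic_zero hF hfin (PQ F (Qord F (1 / 6)))
    (fun a b c h1 h2 h3 => PQ_add hF _ h1 h2 h3)
    (fun a X ha => PQ_mono hfin _ a X ha) ((5 - 3 * cMTinv) / 2 + κ')
    ((5 - 3 * cMTinv) / 2 + κ' / 2)
    (max T0 10) (by linarith) (by linarith) (by
      intro T hT
      have h1 := (hT0 T ((le_max_left _ _).trans hT)).2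
      have h2 := iso_le_ord hF (r := 1 / 6) (by norm_num) ((le_max_right _ _).trans hT)
      exact h1.trans (by exact_mod_cast h2))
  exact ⟨max X1 X2, fun X hX => ⟨hX1 X ((le_max_left _ _).trans hX),
    hX2 X ((le_max_right _ _).trans hX)⟩⟩

/-- numerical values -/
lemma half_lt_box : 1 / 2 < 1 - (cMTinv - 1) / KK (1 / 3) ^ 2 := by
  have hK1 := KK_third (r := 1 / 3) (by norm_num) le_rfl
  have hK20 : 0 < KK (1 / 3) ^ 2 := by positivity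
  have hKsq1 : 0.678 ≤ KK (1 / 3) ^ 2 := by
    have : (0.824 : ℝ) ^ 2 ≤ KK (1 / 3) ^ 2 := pow_le_pow_left₀ (by norm_num) hK1 2
    norm_num at this ⊢
    linarith
  have hc1 := cMTinv_le
  have : (cMTinv - 1) / KK (1 / 3) ^ 2 < 1 / 2 := by
    rw [div_lt_iff₀ hK20]
    norm_num at hc1 hKsq1 ⊢
    linarith
  linarith

lemma half_lt_ord : 1 / 2 < (5 - 3 * cMTinv) / 2 := by
  have hc1 := cMTinv_le
  norm_num at hc1
  linarith

end H344
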